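import Pool.Agent.Lib.MP_23961f_co.AA.Perturb

/-!
Configurations without stress. `SFree S u`: no nonzero symmetric `X` supported on `S` with
`∑ w, X v w • u w = 0` for all `v`. Products `E × ℝ` with the euclidean norm.
-/

set_option autoImplicit false

open scoped InnerProductSpace Topology

namespace Pool.Agent.Lib.MP_23961f_co.K

open Pool.Agent.Lib.MP_23961f_co.AA

section

variable {V : Type*} [Fintype V] {E : Type*} [NormedAddCommGroup E] [InnerProductSpace ℝ E]

/-- `u` carries no stress on the (symmetric) relation `S`. -/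
def SFree (S : V → V → Prop) (u : V → E) : Prop :=
  ∀ X : V → V → ℝ, (∀ v w, X v w = X w v) → (∀ v w, ¬ S v w → X v w = 0) →
    (∀ v, ∑ w, X v w • u w = 0) → ∀ v w, X v w = 0

theorem SFree.mono {S S' : V → V → Prop} {u : V → E} (h : SFree S' u)
    (hSS : ∀ v w, S v w → S' v w) : SFree S u := by
  intro X h1 h2 h3
  exact h X h1 (fun v w hvw => h2 v w (fun h' => hvw (hSS v w h'))) h3

/-- An orientation of a relation along an enumeration. -/
def ori (o : V → ℕ) (S : V → V → Prop) : V → V → Prop := fun v w => S v w ∧ o v < o w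

theorem ori_asymm (o : V → ℕ) (S : V → V → Prop) : ∀ v w, ori o S v w → ¬ ori o S w v :=
  fun _ _ h h' => lt_asymm h.2 h'.2

theorem not_of_not_ori {o : V → ℕ} (ho : Function.Injective o) {S : V → V → Prop}
    (hS : ∀ v w, S v w → S w v) (hirr : ∀ v, ¬ S v v) {v w : V} (h1 : ¬ ori o S v w)
    (h2 : ¬ ori o S w v) : ¬ S v w := by
  intro h3
  rcases lt_trichotomy (o v) (o w) with h4 | h4 | h4
  · exact h1 ⟨h3, h4⟩
  · rw [ho h4] at h3
    exact hirr _ h3
  · exact h2 ⟨hS _ _ h3, h4⟩

open Classical in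
theorem sFree_iff [DecidableEq V] {o : V → ℕ} (ho : Function.Injective o) {S : V → V → Prop}
    (hS : ∀ v w, S v w → S w v) (hirr : ∀ v, ¬ S v v) (u : V → E) :
    SFree S u ↔ NS (ori o S) u := by
  constructor
  · intro h
    refine ns_of (ori_asymm o S) fun X hX hX0 hs => ?_
    exact h X hX (fun v w hvw => hX0 v w (fun h => hvw h.1)
      (fun h => hvw (hS _ _ h.1))) hs
  · intro h X h1 h2 h3
    exact NS.eq_zero (ori_asymm o S) h X h1
      (fun v w h4 h5 => h2 v w (not_of_not_ori ho hS hirr h4 h5)) h3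

/-- pairing of a configuration with a function -/
noncomputable def pr (x : V → E) (τ : V → ℝ) : V → WithLp 2 (E × ℝ) :=
  fun v => WithLp.toLp 2 (x v, τ v)

theorem inner_pr (x : V → E) (τ : V → ℝ) (v w : V) :
    ⟪pr x τ v, pr x τ w⟫_ℝ = ⟪x v, x w⟫_ℝ + τ v * τ w := by
  unfold pr
  rw [WithLp.prod_inner_apply]
  simp [mul_comm]

theorem sum_pr_eq_zero_iff (x : V → E) (τ : V → ℝ) (a : V → ℝ) :
    ∑ w, a w • pr x τ w = 0 ↔ ∑ w, a w • x w = 0 ∧ ∑ w, a w * τ w = 0 := by
  have h : ∑ w, a w • pr x τ w = WithLp.toLp 2 (∑ w, a w • x w, ∑ w, a w * τ w) := by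
    unfold pr
    have h1 : ∀ s : Finset V, ∑ w ∈ s, a w • (WithLp.toLp 2 (x w, τ w) : WithLp 2 (E × ℝ)) =
        WithLp.toLp 2 (∑ w ∈ s, a w • x w, ∑ w ∈ s, a w * τ w) := by
      classical
      intro s
      induction s using Finset.induction_on with
      | empty =>
        simp only [Finset.sum_empty]
        rfl
      | insert b s hb ih =>
        rw [Finset.sum_insert hb, Finset.sum_insert hb, Finset.sum_insert hb, ih,
          ← WithLp.toLp_smul, ← WithLp.toLp_add]
        rfl
    exact h1 _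
  rw [h]
  constructor
  · intro h1
    have h2 : (∑ w, a w • x w, ∑ w, a w * τ w) = (0 : E × ℝ) := by
      have := congrArg WithLp.ofLp h1
      simpa using this
    exact ⟨congrArg Prod.fst h2, congrArg Prod.snd h2⟩
  · rintro ⟨h1, h2⟩
    rw [h1, h2]
    rfl

theorem continuous_pr : Continuous (fun q : (V → E) × (V → ℝ) => pr q.1 q.2) := by
  unfold pr
  refine continuous_pi fun v => ?_
  refine (WithLp.prod_continuous_toLp 2 E ℝ).comp ?_
  fun_prop

end

/-- Orthogonality and stress-freeness are invariant under linear isometries. -/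
theorem SFree.map {V : Type*} [Fintype V] {E F : Type*} [NormedAddCommGroup E]
    [InnerProductSpace ℝ E] [NormedAddCommGroup F] [InnerProductSpace ℝ F]
    {S : V → V → Prop} {u : V → E} (h : SFree S u) (f : E ≃ₗᵢ[ℝ] F) :
    SFree S (fun v => f (u v)) := by
  intro X h1 h2 h3
  refine h X h1 h2 (fun v => ?_)
  have h4 := h3 v
  have h5 : f (∑ w, X v w • u w) = 0 := by
    rw [map_sum, ← h4]
    refine Finset.sum_congr rfl fun w _ => ?_
    rw [map_smul]
  exact (map_eq_zero_iff f f.injective).1 h5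

/-- `G` has an orthogonal configuration without stress in dimension `d`. -/
def Rep {V : Type*} [Fintype V] (S : V → V → Prop) (d : ℕ) : Prop :=
  ∃ u : V → EuclideanSpace ℝ (Fin d), (∀ v w, S v w → ⟪u v, u w⟫_ℝ = 0) ∧ SFree S u

theorem rep_of {V : Type*} [Fintype V] {E : Type*} [NormedAddCommGroup E]
    [InnerProductSpace ℝ E] [FiniteDimensional ℝ E] {S : V → V → Prop} {d : ℕ}
    (hd : Module.finrank ℝ E = d) {u : V → E} (h0 : ∀ v w, S v w → ⟪u v, u w⟫_ℝ = 0)
    (h1 : SFree S u) : Rep S d := by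
  subst hd
  refine ⟨fun v => (stdOrthonormalBasis ℝ E).repr (u v), fun v w hvw => ?_, h1.map _⟩
  rw [LinearIsometryEquiv.inner_map_map]
  exact h0 v w hvw

theorem finrank_pr {E : Type*} [NormedAddCommGroup E] [InnerProductSpace ℝ E]
    [FiniteDimensional ℝ E] : Module.finrank ℝ (WithLp 2 (E × ℝ)) = Module.finrank ℝ E + 1 := by
  rw [LinearEquiv.finrank_eq (WithLp.linearEquiv 2 ℝ (E × ℝ)), Module.finrank_prod]
  simp

end Pool.Agent.Lib.MP_23961f_co.K
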