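import Pool.Agent.Lib.MP_23961f_co.K.IndepHigh

/-!
Covers by sets with few neighbours.

`kill_of_cover`: fix a set `T`. If every edge of `H` has an end in a set `C` such that `C \ T` is
independent and `C` has at most `r - |C ∩ T|` neighbours outside, then `r` rounds empty `H`.
`Cert a G`: after shifts along edges `G` has a cover of level `a`.
Main theorem `gcc_of_cert`.
-/

set_option autoImplicit false

namespace Pool.Agent.Lib.MP_23961f_co.K

section

variable {V : Type*} [Fintype V]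

open Classical in
/-- `C \ T` is independent and the number of outside neighbours of `C` plus `|C ∩ T|` is at most
`r`. -/
def GoodH (H : SimpleGraph V) (T : Finset V) (r : ℕ) (C : Finset V) : Prop :=
  (∀ v ∈ C, v ∉ T → ∀ w ∈ C, w ∉ T → ¬ H.Adj v w) ∧
    (Finset.univ.filter (fun w => w ∉ C ∧ ∃ v ∈ C, H.Adj v w)).card + (C ∩ T).card ≤ r

open Classical in
/-- A maximal independent set containing `Z` and, after that, as much of `T` as possible. -/
theorem exists_staged (G : SimpleGraph V) (Z T : Finset V)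
    (hZ : ∀ a ∈ Z, ∀ b ∈ Z, ¬ G.Adj a b) :
    ∃ I : Finset V, Z ⊆ I ∧ (∀ a ∈ I, ∀ b ∈ I, ¬ G.Adj a b) ∧
      (∀ v, v ∉ I → ∃ a ∈ I, G.Adj v a) ∧
      ∀ t ∈ T, t ∉ I → ∃ a ∈ I, (a ∈ Z ∨ a ∈ T) ∧ G.Adj t a := by
  have hZ' : ∀ a ∈ Z, ∀ b ∈ Z, ¬ (ind G (Z ∪ T)).Adj a b := fun a ha b hb h => hZ a ha b hb h.1
  obtain ⟨J₀, hJ1, hJ2, hJ3⟩ := exists_max_indep (ind G (Z ∪ T)) Z hZ'
  let J : Finset V := J₀ ∩ (Z ∪ T)
  have hJind : ∀ a ∈ J, ∀ b ∈ J, ¬ G.Adj a b := by
    intro a ha b hb h
    obtain ⟨ha1, ha2⟩ := Finset.mem_inter.1 ha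
    obtain ⟨hb1, hb2⟩ := Finset.mem_inter.1 hb
    exact hJ2 a ha1 b hb1 ⟨h, ha2, hb2⟩
  obtain ⟨I, hI1, hI2, hI3⟩ := exists_max_indep G J hJind
  refine ⟨I, ?_, hI2, hI3, ?_⟩
  · intro z hz
    exact hI1 (Finset.mem_inter.2 ⟨hJ1 hz, Finset.mem_union_left _ hz⟩)
  · intro t ht htI
    have h1 : t ∉ J₀ := by
      intro h2
      exact htI (hI1 (Finset.mem_inter.2 ⟨h2, Finset.mem_union_right _ ht⟩))
    obtain ⟨a, ha, hta⟩ := hJ3 t h1
    refine ⟨a, hI1 (Finset.mem_inter.2 ⟨ha, hta.2.2⟩), ?_, hta.1⟩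
    exact Finset.mem_union.1 hta.2.2

omit [Fintype V] in
open Classical in
/-- The first neighbour is the neighbour with the smallest index. -/
theorem fst_of_min {G : SimpleGraph V} {L : List V} {v w : V} (hv : v ∈ L) (hw : G.Adj w v)
    (hmin : ∀ u ∈ L, G.Adj w u → L.idxOf v ≤ L.idxOf u) : fst G L w = some v := by
  obtain ⟨a, ha⟩ := fst_isSome hv hw
  obtain ⟨ha1, ha2⟩ := fst_eq_some ha
  by_cases h : v = a
  · rw [ha, h]
  · have h1 := fst_first ha hv hw h
    have h2 := hmin a ha1 ha2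
    omega

open Classical in
theorem kill_of_cover (T : Finset V) : ∀ (r : ℕ) (H : SimpleGraph V),
    (∀ v w, H.Adj v w → (∃ C, v ∈ C ∧ GoodH H T r C) ∨ (∃ C, w ∈ C ∧ GoodH H T r C)) →
    Kill r H := by
  intro r
  induction r with
  | zero =>
    intro H hcov
    have h0 : ∀ v w, (∃ C, v ∈ C ∧ GoodH H T 0 C) → ¬ H.Adj v w := by
      rintro v w ⟨C, hvC, h1, h2⟩ hvw
      have h3 : (Finset.univ.filter (fun w => w ∉ C ∧ ∃ v ∈ C, H.Adj v w)).card = 0 := by omega
      have h4 : (C ∩ T).card = 0 := by omega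
      rw [Finset.card_eq_zero] at h3 h4
      have h5 : ∀ u ∈ C, u ∉ T := by
        intro u hu huT
        have h6 : u ∈ C ∩ T := Finset.mem_inter.2 ⟨hu, huT⟩
        rw [h4] at h6
        exact absurd h6 (Finset.notMem_empty _)
      by_cases hw : w ∈ C
      · exact h1 v hvC (h5 v hvC) w hw (h5 w hw) hvw
      · have h6 : w ∈ Finset.univ.filter (fun w => w ∉ C ∧ ∃ v ∈ C, H.Adj v w) :=
          Finset.mem_filter.2 ⟨Finset.mem_univ _, hw, v, hvC, hvw⟩
        rw [h3] at h6
        exact absurd h6 (Finset.notMem_empty _)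
    intro v w hvw
    rcases hcov v w hvw with h | h
    · exact h0 v w h hvw
    · exact h0 w v h hvw.symm
  | succ r ih =>
    intro H hcov
    -- the uncovered vertices
    let Z : Finset V := Finset.univ.filter (fun v => ¬ ∃ C, v ∈ C ∧ GoodH H T (r + 1) C)
    have hZ : ∀ a ∈ Z, ∀ b ∈ Z, ¬ H.Adj a b := by
      intro a ha b hb hab
      rcases hcov a b hab with h | h
      · exact (Finset.mem_filter.1 ha).2 h
      · exact (Finset.mem_filter.1 hb).2 h
    obtain ⟨I, hZI, hind, hmax, hT⟩ := exists_staged H Z T hZ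
    let L₁ : List V := (I ∩ T).toList
    let L₂ : List V := (I ∩ (Z \ T)).toList
    let L₃ : List V := (I \ (Z ∪ T)).toList
    let L : List V := L₁ ++ (L₂ ++ L₃)
    have hL : ∀ v, v ∈ L ↔ v ∈ I := by
      intro v
      simp only [L, L₁, L₂, L₃, List.mem_append, Finset.mem_toList, Finset.mem_inter,
        Finset.mem_sdiff, Finset.mem_union]
      tauto
    have hLind : ∀ a ∈ L, ∀ b ∈ L, ¬ H.Adj a b := fun a ha b hb =>
      hind a ((hL a).1 ha) b ((hL b).1 hb)
    refine ⟨L, List.pairwise_of_forall_mem_list (r := fun a b => ¬ H.Adj a b) hLind, ih _ ?_⟩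
    -- order of the classes
    have hord1 : ∀ a b, a ∈ I → a ∈ T → b ∈ I → b ∉ T → L.idxOf a < L.idxOf b := by
      intro a b ha haT hb hbT
      have h1 : a ∈ L₁ := Finset.mem_toList.2 (Finset.mem_inter.2 ⟨ha, haT⟩)
      have h2 : b ∉ L₁ := fun h => hbT (Finset.mem_inter.1 (Finset.mem_toList.1 h)).2
      show (L₁ ++ (L₂ ++ L₃)).idxOf a < (L₁ ++ (L₂ ++ L₃)).idxOf b
      rw [List.idxOf_append_of_mem h1, List.idxOf_append_of_notMem h2]
      have h3 := List.idxOf_lt_length_iff.2 h1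
      omega
    have hord2 : ∀ a b, a ∈ I → a ∈ Z → b ∈ I → b ∉ T → b ∉ Z → L.idxOf a < L.idxOf b := by
      intro a b ha haZ hb hbT hbZ
      by_cases haT : a ∈ T
      · exact hord1 a b ha haT hb hbT
      · have h1 : a ∉ L₁ := fun h => haT (Finset.mem_inter.1 (Finset.mem_toList.1 h)).2
        have h2 : b ∉ L₁ := fun h => hbT (Finset.mem_inter.1 (Finset.mem_toList.1 h)).2
        have h3 : a ∈ L₂ := Finset.mem_toList.2
          (Finset.mem_inter.2 ⟨ha, Finset.mem_sdiff.2 ⟨haZ, haT⟩⟩)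
        have h4 : b ∉ L₂ := fun h => hbZ
          (Finset.mem_sdiff.1 (Finset.mem_inter.1 (Finset.mem_toList.1 h)).2).1
        show (L₁ ++ (L₂ ++ L₃)).idxOf a < (L₁ ++ (L₂ ++ L₃)).idxOf b
        rw [List.idxOf_append_of_notMem h1, List.idxOf_append_of_notMem h2,
          List.idxOf_append_of_mem h3, List.idxOf_append_of_notMem h4]
        have h5 := List.idxOf_lt_length_iff.2 h3
        omega
    -- every vertex outside `I` is covered at level `r`
    have hclaim : ∀ x, x ∉ I → ∃ C, x ∈ C ∧ GoodH (roundL H L) T r C := by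
      intro x hxI
      have hxcov : ∃ C, x ∈ C ∧ GoodH H T (r + 1) C := by
        by_contra h
        exact hxI (hZI (Finset.mem_filter.2 ⟨Finset.mem_univ _, h⟩))
      -- reduction: if `C ∩ T = ∅` then `C = {x}`
      obtain ⟨C, hxC, hC1, hC2, hC3⟩ : ∃ C, x ∈ C ∧
          (∀ v ∈ C, v ∉ T → ∀ w ∈ C, w ∉ T → ¬ H.Adj v w) ∧
          (Finset.univ.filter (fun w => w ∉ C ∧ ∃ v ∈ C, H.Adj v w)).card + (C ∩ T).card ≤ r + 1 ∧
          ((∀ t ∈ C, t ∉ T) → C = {x}) := by
        obtain ⟨C, hxC, hC1, hC2⟩ := hxcov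
        by_cases hCT : ∀ t ∈ C, t ∉ T
        · refine ⟨{x}, Finset.mem_singleton_self x, ?_, ?_, fun _ => rfl⟩
          · intro v hv _ w hw _ h
            rw [Finset.mem_singleton] at hv hw
            exact h.ne (hv.trans hw.symm)
          · have h1 : Finset.univ.filter (fun w => w ∉ ({x} : Finset V) ∧
                ∃ v ∈ ({x} : Finset V), H.Adj v w) ⊆
                Finset.univ.filter (fun w => w ∉ C ∧ ∃ v ∈ C, H.Adj v w) := by
              intro w hw
              obtain ⟨_, h2, v, hv, hvw⟩ := Finset.mem_filter.1 hw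
              rw [Finset.mem_singleton] at hv
              subst hv
              refine Finset.mem_filter.2 ⟨Finset.mem_univ _, ?_, v, hxC, hvw⟩
              intro hwC
              exact hC1 v hxC (hCT v hxC) w hwC (hCT w hwC) hvw
            have h2 : (({x} : Finset V) ∩ T).card = 0 := by
              rw [Finset.card_eq_zero]
              ext w
              simp only [Finset.mem_inter, Finset.mem_singleton, Finset.notMem_empty, iff_false]
              rintro ⟨rfl, h⟩
              exact hCT w hxC h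
            have h3 := Finset.card_le_card h1
            omega
        · exact ⟨C, hxC, hC1, hC2, fun h => absurd h hCT⟩
      -- the first element of `I` in the closed neighbourhood of `C`
      let P : Finset V := I.filter (fun u => u ∈ C ∨ ∃ w ∈ C, H.Adj w u)
      have hP : P.Nonempty := by
        obtain ⟨a, haI, hxa⟩ := hmax x hxI
        exact ⟨a, Finset.mem_filter.2 ⟨haI, Or.inr ⟨x, hxC, hxa⟩⟩⟩
      obtain ⟨v, hvP, hvmin⟩ := Finset.exists_min_image P (fun u => L.idxOf u) hP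
      obtain ⟨hvI, hvN⟩ := Finset.mem_filter.1 hvP
      have hfst : ∀ w ∈ C, H.Adj w v → fst H L w = some v := by
        intro w hw hwv
        refine fst_of_min ((hL v).2 hvI) hwv ?_
        intro u hu hwu
        exact hvmin u (Finset.mem_filter.2 ⟨(hL u).1 hu, Or.inr ⟨w, hw, hwu⟩⟩)
      have hcut : ∀ w ∈ C, ¬ (roundL H L).Adj w v := by
        intro w hw h
        exact h.2.1 (hfst w hw h.1)
      by_cases hvC : v ∈ C
      · by_cases hvT : v ∈ T
        · -- `v` is a cover vertex of `C`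
          refine ⟨C.erase v, Finset.mem_erase.2 ⟨?_, hxC⟩, ?_, ?_⟩
          · rintro rfl
            exact hxI hvI
          · intro a ha haT b hb hbT h
            exact hC1 a (Finset.mem_of_mem_erase ha) haT b (Finset.mem_of_mem_erase hb) hbT h.1
          · have h1 : Finset.univ.filter (fun w => w ∉ C.erase v ∧
                ∃ u ∈ C.erase v, (roundL H L).Adj u w) ⊆
                Finset.univ.filter (fun w => w ∉ C ∧ ∃ v ∈ C, H.Adj v w) := by
              intro w hw
              obtain ⟨_, h2, u, hu, huw⟩ := Finset.mem_filter.1 hw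
              have huC := Finset.mem_of_mem_erase hu
              refine Finset.mem_filter.2 ⟨Finset.mem_univ _, ?_, u, huC, huw.1⟩
              intro hwC
              refine h2 (Finset.mem_erase.2 ⟨?_, hwC⟩)
              rintro rfl
              exact hcut u huC huw
            have h2 : (C.erase v ∩ T).card + 1 = (C ∩ T).card := by
              have h3 : C.erase v ∩ T = (C ∩ T).erase v := by
                ext w
                simp only [Finset.mem_inter, Finset.mem_erase]
                tauto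
              rw [h3, Finset.card_erase_of_mem (Finset.mem_inter.2 ⟨hvC, hvT⟩)]
              have h4 : 0 < (C ∩ T).card :=
                Finset.card_pos.2 ⟨v, Finset.mem_inter.2 ⟨hvC, hvT⟩⟩
              omega
            have h3 := Finset.card_le_card h1
            omega
        · -- impossible
          exfalso
          have hvZ : v ∉ Z := by
            intro h
            exact (Finset.mem_filter.1 h).2 ⟨C, hvC, hC1, hC2⟩
          by_cases hCT : ∀ t ∈ C, t ∉ T
          · have h1 := hC3 hCT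
            rw [h1, Finset.mem_singleton] at hvC
            rw [hvC] at hvI
            exact hxI hvI
          · push Not at hCT
            obtain ⟨t, htC, htT⟩ := hCT
            by_cases htI : t ∈ I
            · have h1 := hvmin t (Finset.mem_filter.2 ⟨htI, Or.inl htC⟩)
              have h2 := hord1 t v htI htT hvI hvT
              omega
            · obtain ⟨a, haI, haZT, hta⟩ := hT t htT htI
              have h1 := hvmin a (Finset.mem_filter.2 ⟨haI, Or.inr ⟨t, htC, hta⟩⟩)
              rcases haZT with haZ | haT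
              · have h2 := hord2 a v haI haZ hvI hvT hvZ
                omega
              · have h2 := hord1 a v haI haT hvI hvT
                omega
      · -- `v` is an outside neighbour of `C`
        have hvN' : ∃ w ∈ C, H.Adj w v := hvN.resolve_left hvC
        refine ⟨C, hxC, fun a ha haT b hb hbT h => hC1 a ha haT b hb hbT h.1, ?_⟩
        have h1 : Finset.univ.filter (fun w => w ∉ C ∧ ∃ u ∈ C, (roundL H L).Adj u w) ⊆
            (Finset.univ.filter (fun w => w ∉ C ∧ ∃ v ∈ C, H.Adj v w)).erase v := by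
          intro w hw
          obtain ⟨_, h2, u, hu, huw⟩ := Finset.mem_filter.1 hw
          refine Finset.mem_erase.2 ⟨?_, Finset.mem_filter.2 ⟨Finset.mem_univ _, h2, u, hu, huw.1⟩⟩
          rintro rfl
          exact hcut u hu huw
        have h2 := Finset.card_le_card h1
        have h3 : v ∈ Finset.univ.filter (fun w => w ∉ C ∧ ∃ v ∈ C, H.Adj v w) :=
          Finset.mem_filter.2 ⟨Finset.mem_univ _, hvC, hvN'⟩
        rw [Finset.card_erase_of_mem h3] at h2
        have h4 : 0 < (Finset.univ.filter (fun w => w ∉ C ∧ ∃ v ∈ C, H.Adj v w)).card :=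
          Finset.card_pos.2 ⟨v, h3⟩
        omega
    intro a b hab
    by_cases ha : a ∈ I
    · by_cases hb : b ∈ I
      · exact absurd hab.1 (hind a ha b hb)
      · exact Or.inr (hclaim b hb)
    · exact Or.inl (hclaim a ha)

/-- `C` lies in `S`, its vertices outside `D` form a clique, and their number plus the number of
common neighbours of `C` in `S` outside `C` is more than `a`. -/
def Good (G : SimpleGraph V) (S D : Finset V) (a : ℕ) (C : Finset V) : Prop :=
  C ⊆ S ∧ (∀ v ∈ C, v ∉ D → ∀ w ∈ C, w ∉ D → v ≠ w → G.Adj v w) ∧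
    a < Set.ncard {v | v ∈ C ∧ v ∉ D} + Set.ncard {w | w ∈ S ∧ w ∉ C ∧ ∀ v ∈ C, G.Adj v w}

/-- There are vertex sets `S`, `D` with `a < |S|` such that of any two non-adjacent vertices of `S`
one lies in a good set. -/
def Cov (G : SimpleGraph V) (a : ℕ) : Prop :=
  ∃ S D : Finset V, a < S.card ∧ ∀ v ∈ S, ∀ w ∈ S, v ≠ w → ¬ G.Adj v w →
    (∃ C, v ∈ C ∧ Good G S D a C) ∨ (∃ C, w ∈ C ∧ Good G S D a C)

open Classical in
theorem goodH_of_good {G : SimpleGraph V} {S D C : Finset V} {a : ℕ} (h : Good G S D a C) :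
    GoodH (ind Gᶜ S) D (S.card - (a + 1)) C := by
  obtain ⟨hCS, hcl, hcard⟩ := h
  have e1 : Set.ncard {v | v ∈ C ∧ v ∉ D} = (C \ D).card := by
    rw [← Set.ncard_coe_finset]
    congr 1
    ext w
    simp
  have e2 : Set.ncard {w | w ∈ S ∧ w ∉ C ∧ ∀ v ∈ C, G.Adj v w} =
      (S.filter (fun w => w ∉ C ∧ ∀ v ∈ C, G.Adj v w)).card := by
    rw [← Set.ncard_coe_finset]
    congr 1
    ext w
    simp
  rw [e1, e2] at hcard
  refine ⟨?_, ?_⟩
  · intro v hv hvD w hw hwD hvw
    have h1 := (SimpleGraph.compl_adj _ _ _).1 hvw.1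
    exact h1.2 (hcl v hv hvD w hw hwD h1.1)
  · have h1 : Finset.univ.filter (fun w => w ∉ C ∧ ∃ v ∈ C, (ind Gᶜ S).Adj v w) ⊆
        (S \ C) \ (S.filter (fun w => w ∉ C ∧ ∀ v ∈ C, G.Adj v w)) := by
      intro w hw
      obtain ⟨_, h2, v, hv, hvw⟩ := Finset.mem_filter.1 hw
      have h3 := (SimpleGraph.compl_adj _ _ _).1 hvw.1
      refine Finset.mem_sdiff.2 ⟨Finset.mem_sdiff.2 ⟨hvw.2.2, h2⟩, ?_⟩
      intro h4
      exact h3.2 ((Finset.mem_filter.1 h4).2.2 v hv)
    have h2 : S.filter (fun w => w ∉ C ∧ ∀ v ∈ C, G.Adj v w) ⊆ S \ C := by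
      intro w hw
      obtain ⟨h3, h4, _⟩ := Finset.mem_filter.1 hw
      exact Finset.mem_sdiff.2 ⟨h3, h4⟩
    have h3 := Finset.card_le_card h1
    have h4 := Finset.card_le_card h2
    rw [Finset.card_sdiff_of_subset h2, Finset.card_sdiff_of_subset hCS] at h3
    rw [Finset.card_sdiff_of_subset hCS] at h4
    have h5 : (C ∩ D).card + (C \ D).card = C.card := Finset.card_inter_add_card_sdiff C D
    have h6 := Finset.card_le_card hCS
    omega

open Classical in
theorem kill_of_cov {G : SimpleGraph V} {a : ℕ} (h : Cov G a) :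
    Kill (Fintype.card V - (a + 1)) Gᶜ := by
  obtain ⟨S, D, haS, hcov⟩ := h
  have h1 : Kill (S.card - (a + 1)) (ind Gᶜ (Sᶜ)ᶜ) := by
    rw [compl_compl]
    refine kill_of_cover D _ _ ?_
    intro v w hvw
    have h2 := (SimpleGraph.compl_adj _ _ _).1 hvw.1
    rcases hcov v hvw.2.1 w hvw.2.2 h2.1 h2.2 with ⟨C, hC, hg⟩ | ⟨C, hC, hg⟩
    · exact Or.inl ⟨C, hC, goodH_of_good hg⟩
    · exact Or.inr ⟨C, hC, goodH_of_good hg⟩
  have h2 := kill_of_ind _ _ _ h1
  have h3 : S.card - (a + 1) + Sᶜ.card = Fintype.card V - (a + 1) := by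
    rw [Finset.card_compl]
    have := Finset.card_le_univ S
    omega
  rwa [h3] at h2

/-- A positive semidefinite matrix with the pattern of `G`, the strong Arnold property and nullity
at least `x`. -/
def Nul (G : SimpleGraph V) (x : ℕ) : Prop :=
  ∃ A : Matrix V V ℝ, A.PosSemidef ∧ (∀ i j, i ≠ j → (A i j ≠ 0 ↔ G.Adj i j)) ∧
    (∀ X : Matrix V V ℝ, X.IsSymm → (∀ i, X i i = 0) →
      (∀ i j, G.Adj i j → X i j = 0) → A * X = 0 → X = 0) ∧ x ≤ Fintype.card V - A.rank

theorem nul_of_kill {G : SimpleGraph V} {k : ℕ} (h : Kill k G) :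
    Nul Gᶜ (Fintype.card V - (k + 1)) := by
  obtain ⟨B, hB1, hB2, hB3, hB4⟩ := matrix_of_kill h
  exact ⟨B, hB1, hB2, hB3, by omega⟩

theorem nul_of_rep {G : SimpleGraph V} {K : ℕ} (h : Rep Gᶜ.Adj (Fintype.card V - (K + 1))) :
    Nul G (min K (Fintype.card V - 1)) := by
  obtain ⟨A, hA1, hA2, hA3, hA4⟩ := exists_matrix_of_rep Gᶜ h
  rw [compl_compl] at hA2 hA3
  exact ⟨A, hA1, hA2, hA3, by omega⟩

/-- Covers after shifts along edges. -/
inductive Cert (a : ℕ) : SimpleGraph V → Prop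
  | cov (G : SimpleGraph V) (h : Cov G a) : Cert a G
  | shift (G : SimpleGraph V) (z z' : V) (h : G.Adj z z') (h' : Cert a (esh G z z')) : Cert a G

theorem rep_of_cert {G : SimpleGraph V} {a : ℕ} (h : Cert a G) :
    Rep Gᶜ.Adj (Fintype.card V - (a + 1)) ∧ a < Fintype.card V := by
  induction h with
  | cov G h =>
    refine ⟨rep_of_kill _ _ (kill_of_cov h), ?_⟩
    obtain ⟨S, D, haS, -⟩ := h
    have h1 := Finset.card_le_univ S
    omega
  | shift G z z' h h' ih => exact ⟨rep_of_esh h ih.1, ih.2⟩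

theorem nul_of_cert {G : SimpleGraph V} {a : ℕ} (h : Cert a G) : Nul G a := by
  obtain ⟨h1, h2⟩ := rep_of_cert h
  obtain ⟨A, hA1, hA2, hA3, hA4⟩ := nul_of_rep h1
  exact ⟨A, hA1, hA2, hA3, by omega⟩

/-- The value `3` is always available, up to the bound `n - 2`. -/
theorem exists_nul_three {G : SimpleGraph V} {a b : ℕ} (ha : Nul G a) (hb : Nul Gᶜ b) :
    ∃ x y, Nul G x ∧ Nul Gᶜ y ∧ min (Fintype.card V - 2) (b + 3) ≤ x + y := by
  rcases rep_or_kill (K := 3) le_rfl (by norm_num) G with h | h3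
  · exact ⟨_, _, nul_of_rep h, hb, by omega⟩
  rcases rep_or_kill (K := 2) (by norm_num) (by norm_num) G with h | h2
  · exact ⟨_, _, nul_of_rep h, nul_of_kill h3, by omega⟩
  rcases rep_or_kill (K := 1) (by norm_num) le_rfl G with h | h1
  · exact ⟨_, _, nul_of_rep h, nul_of_kill h2, by omega⟩
  exact ⟨_, _, ha, nul_of_kill h1, by omega⟩

theorem exists_nul {G : SimpleGraph V} {a b : ℕ} (ha : Nul G a) (hb : Nul Gᶜ b) :
    ∃ x y, Nul G x ∧ Nul Gᶜ y ∧ b + max a (min 3 (Fintype.card V - 2 - b)) ≤ x + y := by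
  by_cases h : min 3 (Fintype.card V - 2 - b) ≤ a
  · exact ⟨a, b, ha, hb, by omega⟩
  · obtain ⟨x, y, hx, hy, hxy⟩ := exists_nul_three ha hb
    exact ⟨x, y, hx, hy, by omega⟩

end

/-- Main theorem: positive semidefinite matrices with the strong Arnold property for a graph and
its complement from covers of both after shifts. -/
theorem gcc_of_cert {n : ℕ} (G : SimpleGraph (Fin n)) (a b : ℕ) (ha : Cert a G) (hb : Cert b Gᶜ) :
    ∃ (A B : Matrix (Fin n) (Fin n) ℝ),
      A.PosSemidef ∧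
      (∀ i j, i ≠ j → (A i j ≠ 0 ↔ G.Adj i j)) ∧
      (∀ X : Matrix (Fin n) (Fin n) ℝ, X.IsSymm → (∀ i, X i i = 0) →
          (∀ i j, G.Adj i j → X i j = 0) → A * X = 0 → X = 0) ∧
      B.PosSemidef ∧
      (∀ i j, i ≠ j → (B i j ≠ 0 ↔ Gᶜ.Adj i j)) ∧
      (∀ X : Matrix (Fin n) (Fin n) ℝ, X.IsSymm → (∀ i, X i i = 0) →
          (∀ i j, Gᶜ.Adj i j → X i j = 0) → B * X = 0 → X = 0) ∧
      b + max a (min 3 (n - 2 - b)) ≤ (n - A.rank) + (n - B.rank) := by
  obtain ⟨x, y, ⟨A, hA1, hA2, hA3, hA4⟩, ⟨B, hB1, hB2, hB3, hB4⟩, h⟩ :=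
    exists_nul (nul_of_cert ha) (nul_of_cert hb)
  rw [Fintype.card_fin] at hA4 hB4 h
  exact ⟨A, B, hA1, hA2, hA3, hB1, hB2, hB3, by omega⟩

end Pool.Agent.Lib.MP_23961f_co.K
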