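import Pool.Agent.Lib.MP_23961f_co.K.ShiftChain

/-!
Graphs whose vertices of large degree are pairwise non-adjacent.

`kill_of_degree`: if the vertices outside an independent set `T` have degree at most `r`, then `G`
can be emptied by `r` rounds.
`kill_of_col`: an ordering and a colouring with `K` colours such that the earlier neighbours of
every vertex have different colours give `K` rounds.
`rep_or_kill`: for `K ≤ 3` either the complement of `G` has an orthogonal configuration without
stress in dimension `n - (K + 1)`, or `G` can be emptied by `K` rounds.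
Main theorem `gcc_of_indep_high`.
-/

set_option autoImplicit false

open scoped InnerProductSpace Topology

namespace Pool.Agent.Lib.MP_23961f_co.K

section

variable {V : Type*}

theorem roundL_le (G : SimpleGraph V) (I : List V) : roundL G I ≤ G := fun _ _ h => h.1

open Classical in
theorem fst_isSome {G : SimpleGraph V} {I : List V} {w k : V} (hk : k ∈ I) (hw : G.Adj w k) :
    ∃ a, fst G I w = some a := by
  unfold fst
  have h : (I.find? (fun k => decide (G.Adj w k))).isSome = true := by
    rw [List.find?_isSome]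
    exact ⟨k, hk, decide_eq_true hw⟩
  exact Option.isSome_iff_exists.1 h

variable [Fintype V]

open Classical in
/-- number of neighbours -/
noncomputable def dg (G : SimpleGraph V) (v : V) : ℕ := (Finset.univ.filter (fun w => G.Adj v w)).card

open Classical in
/-- A maximal independent set containing a given one. -/
theorem exists_max_indep (G : SimpleGraph V) (T : Finset V)
    (hT : ∀ a ∈ T, ∀ b ∈ T, ¬ G.Adj a b) :
    ∃ I : Finset V, T ⊆ I ∧ (∀ a ∈ I, ∀ b ∈ I, ¬ G.Adj a b) ∧ ∀ v, v ∉ I → ∃ a ∈ I, G.Adj v a := by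
  let F : Finset (Finset V) := Finset.univ.filter (fun I => T ⊆ I ∧ ∀ a ∈ I, ∀ b ∈ I, ¬ G.Adj a b)
  have hF : F.Nonempty := ⟨T, Finset.mem_filter.2 ⟨Finset.mem_univ _, Finset.Subset.refl _, hT⟩⟩
  obtain ⟨I, hI, hmax⟩ := Finset.exists_max_image F Finset.card hF
  obtain ⟨hTI, hind⟩ := (Finset.mem_filter.1 hI).2
  refine ⟨I, hTI, hind, fun v hv => ?_⟩
  by_contra hno
  push Not at hno
  have h1 : insert v I ∈ F := by
    refine Finset.mem_filter.2 ⟨Finset.mem_univ _, hTI.trans (Finset.subset_insert _ _), ?_⟩
    intro a ha b hb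
    rcases Finset.mem_insert.1 ha with rfl | ha'
    · rcases Finset.mem_insert.1 hb with rfl | hb'
      · exact fun h => h.ne rfl
      · exact hno b hb'
    · rcases Finset.mem_insert.1 hb with rfl | hb'
      · exact fun h => hno a ha' h.symm
      · exact hind a ha' b hb'
  have h2 := hmax _ h1
  rw [Finset.card_insert_of_notMem hv] at h2
  omega

open Classical in
/-- If the vertices outside an independent set have degree at most `r`, then `r` rounds suffice. -/
theorem kill_of_degree : ∀ (r : ℕ) (G : SimpleGraph V) (T : Finset V),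
    (∀ a ∈ T, ∀ b ∈ T, ¬ G.Adj a b) → (∀ v, v ∉ T → dg G v ≤ r) → Kill r G := by
  intro r
  induction r with
  | zero =>
    intro G T hT hd v w hvw
    have h0 : ∀ v, v ∉ T → ∀ w, ¬ G.Adj v w := by
      intro v hv w hvw
      have h1 := Nat.le_zero.1 (hd v hv)
      unfold dg at h1
      have h2 := Finset.card_eq_zero.1 h1
      have h3 : w ∈ Finset.univ.filter (fun w => G.Adj v w) :=
        Finset.mem_filter.2 ⟨Finset.mem_univ _, hvw⟩
      rw [h2] at h3
      exact absurd h3 (Finset.notMem_empty _)
    by_cases hv : v ∈ T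
    · by_cases hw : w ∈ T
      · exact hT v hv w hw hvw
      · exact h0 w hw v hvw.symm
    · exact h0 v hv w hvw
  | succ r ih =>
    intro G T hT hd
    obtain ⟨I, hTI, hind, hmax⟩ := exists_max_indep G T hT
    refine ⟨I.toList, ?_, ih (roundL G I.toList) I ?_ ?_⟩
    · refine (List.pairwise_of_forall_mem_list (r := fun a b => ¬ G.Adj a b) ?_)
      intro a ha b hb
      exact hind a (Finset.mem_toList.1 ha) b (Finset.mem_toList.1 hb)
    · intro a ha b hb h
      exact hind a ha b hb h.1
    · intro v hv
      obtain ⟨a, haI, hva⟩ := hmax v hv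
      obtain ⟨k, hk⟩ := fst_isSome (G := G) (I := I.toList) (Finset.mem_toList.2 haI) hva
      have hkv := (fst_eq_some hk).2
      have h1 : Finset.univ.filter (fun w => (roundL G I.toList).Adj v w) ⊆
          (Finset.univ.filter (fun w => G.Adj v w)).erase k := by
        intro w hw
        have h2 := (Finset.mem_filter.1 hw).2
        refine Finset.mem_erase.2 ⟨?_, Finset.mem_filter.2 ⟨Finset.mem_univ _, h2.1⟩⟩
        rintro rfl
        exact h2.2.1 hk
      have h2 := Finset.card_le_card h1
      rw [Finset.card_erase_of_mem (Finset.mem_filter.2 ⟨Finset.mem_univ _, hkv⟩)] at h2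
      have h3 := hd v (fun h => hv (hTI h))
      have h4 : dg (roundL G I.toList) v ≤ dg G v - 1 := h2
      omega

/-- The graph without the edges at the vertices outside `U`. -/
def ind (G : SimpleGraph V) (U : Finset V) : SimpleGraph V where
  Adj v w := G.Adj v w ∧ v ∈ U ∧ w ∈ U
  symm := ⟨fun _ _ h => ⟨h.1.symm, h.2.2, h.2.1⟩⟩
  loopless := ⟨fun _ h => h.1.ne rfl⟩

open Classical in
theorem kill_of_ind : ∀ (W : Finset V) (k : ℕ) (G : SimpleGraph V), Kill k (ind G Wᶜ) →
    Kill (k + W.card) G := by
  intro W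
  induction W using Finset.induction_on with
  | empty =>
    intro k G h
    have : ind G (∅ : Finset V)ᶜ = G := by
      ext v w
      show (G.Adj v w ∧ v ∈ (∅ : Finset V)ᶜ ∧ w ∈ (∅ : Finset V)ᶜ) ↔ G.Adj v w
      simp
    rw [this] at h
    simpa using h
  | insert u W hu ih =>
    intro k G h
    rw [Finset.card_insert_of_notMem hu, ← add_assoc]
    refine ⟨[u], List.pairwise_singleton _ _, ih k _ ?_⟩
    have h1 : ind (roundL G [u]) Wᶜ = ind G (insert u W)ᶜ := by
      have hf : ∀ v, G.Adj v u → fst G [u] v = some u := by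
        intro v hv
        unfold fst
        simp [hv]
      ext v w
      show ((G.Adj v w ∧ fst G [u] v ≠ some w ∧ fst G [u] w ≠ some v) ∧ v ∈ Wᶜ ∧ w ∈ Wᶜ) ↔
        (G.Adj v w ∧ v ∈ (insert u W)ᶜ ∧ w ∈ (insert u W)ᶜ)
      simp only [Finset.mem_compl, Finset.mem_insert, not_or]
      constructor
      · rintro ⟨⟨h1, h2, h3⟩, h4, h5⟩
        refine ⟨h1, ⟨?_, h4⟩, ?_, h5⟩
        · rintro rfl
          exact h3 (hf w h1.symm)
        · rintro rfl
          exact h2 (hf v h1)
      · rintro ⟨h1, ⟨h2, h3⟩, h4, h5⟩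
        refine ⟨⟨h1, ?_, ?_⟩, h3, h5⟩
        · intro h6
          have h7 := (fst_eq_some h6).1
          simp only [List.mem_singleton] at h7
          exact h4 h7
        · intro h6
          have h7 := (fst_eq_some h6).1
          simp only [List.mem_singleton] at h7
          exact h2 h7
    rw [h1]
    exact h

open Classical in
/-- A nonempty set of vertices each with at least `d` neighbours in the set: the complement has an
orthogonal configuration without stress in dimension `n - (d + 1)`. -/
theorem rep_of_min_degree (G : SimpleGraph V) (U : Finset V) (hU : U.Nonempty) (d : ℕ)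
    (hd : ∀ v ∈ U, d ≤ (U.filter (fun w => G.Adj v w)).card) :
    Rep Gᶜ.Adj (Fintype.card V - (d + 1)) := by
  have hU1 : d + 1 ≤ U.card := by
    obtain ⟨v, hv⟩ := hU
    have h1 := hd v hv
    have h2 : U.filter (fun w => G.Adj v w) ⊆ U.erase v := by
      intro w hw
      obtain ⟨h3, h4⟩ := Finset.mem_filter.1 hw
      exact Finset.mem_erase.2 ⟨h4.ne', h3⟩
    have h3 := Finset.card_le_card h2
    rw [Finset.card_erase_of_mem hv] at h3
    have h4 : 0 < U.card := Finset.card_pos.2 ⟨v, hv⟩
    omega
  have hk : Kill (U.card - (d + 1)) (ind Gᶜ (Uᶜ)ᶜ) := by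
    rw [compl_compl]
    refine kill_of_degree _ _ ∅ (by simp) ?_
    intro v _
    unfold dg
    by_cases hv : v ∈ U
    · have h1 : Finset.univ.filter (fun w => (ind Gᶜ U).Adj v w) ⊆
          (U.erase v) \ (U.filter (fun w => G.Adj v w)) := by
        intro w hw
        obtain ⟨h2, h3, h4⟩ := (Finset.mem_filter.1 hw).2
        have h5 := (SimpleGraph.compl_adj _ _ _).1 h2
        refine Finset.mem_sdiff.2 ⟨Finset.mem_erase.2 ⟨h5.1.symm, h4⟩, ?_⟩
        intro h6
        exact h5.2 (Finset.mem_filter.1 h6).2
      have h2 := Finset.card_le_card h1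
      have h3 : U.filter (fun w => G.Adj v w) ⊆ U.erase v := by
        intro w hw
        obtain ⟨h3, h4⟩ := Finset.mem_filter.1 hw
        exact Finset.mem_erase.2 ⟨h4.ne', h3⟩
      rw [Finset.card_sdiff_of_subset h3, Finset.card_erase_of_mem hv] at h2
      have h4 := hd v hv
      omega
    · have h1 : Finset.univ.filter (fun w => (ind Gᶜ U).Adj v w) = ∅ := by
        ext w
        simp only [Finset.mem_filter, Finset.mem_univ, true_and, Finset.notMem_empty, iff_false]
        rintro ⟨_, h2, _⟩
        exact hv h2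
      rw [h1]
      simp
  have h1 := rep_of_kill _ _ (kill_of_ind _ _ _ hk)
  have h2 : U.card - (d + 1) + Uᶜ.card = Fintype.card V - (d + 1) := by
    rw [Finset.card_compl]
    have := Finset.card_le_univ U
    omega
  rwa [h2] at h1

theorem Rep.repL {A : V → V → Prop} {d : ℕ} (h : Rep A d) (hA : ∀ v, ¬ A v v) : RepL A d := by
  obtain ⟨u, h1, h2⟩ := h
  exact ⟨u, fun v w _ h3 => h1 v w h3, fun v h3 => absurd h3 (hA v), h2⟩

/-- A shift along an edge does not lower the dimension for the complement. -/
theorem rep_of_esh {G : SimpleGraph V} {z z' : V} (hz : G.Adj z z') {d : ℕ}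
    (h : Rep (esh G z z')ᶜ.Adj d) : Rep Gᶜ.Adj d := by
  have hne : z ≠ z' := hz.ne
  have h1 : RepL (esh G z z')ᶜ.Adj d := h.repL fun v h4 => h4.ne rfl
  have h2 : RepL (ks Gᶜ.Adj z' z) d := h1.mono (compl_esh hne)
  refine RepL.rep (repL_shift hne.symm (fun v w h3 => h3.symm) ?_ (fun h3 => h3.ne rfl)
      (fun h3 => h3.ne rfl) h2) (fun v h4 => h4.ne rfl)
  intro h3
  exact ((SimpleGraph.compl_adj _ _ _).1 h3).2 hz.symm

/-- A colouring with `K` colours and an ordering of `U` such that neighbours have different colours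
and places and the earlier neighbours of every vertex have different colours. -/
structure Col (G : SimpleGraph V) (U : Finset V) (K : ℕ) (c o : V → ℕ) : Prop where
  lt : ∀ v ∈ U, c v < K
  proper : ∀ v ∈ U, ∀ w ∈ U, G.Adj v w → c v ≠ c w ∧ o v ≠ o w
  rain : ∀ v ∈ U, ∀ a ∈ U, ∀ b ∈ U, a ≠ b → G.Adj v a → G.Adj v b → o a < o v → o b < o v →
    c a ≠ c b

open Classical in
/-- One round along a colour class, ordered by `o`, removes all edges from the class to the
later vertices. -/
theorem round_col {G : SimpleGraph V} {K : ℕ} {c o : V → ℕ}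
    (hC : Col G Finset.univ K c o) (G' : SimpleGraph V) (hG' : G' ≤ G) (j : ℕ) :
    ∃ I : List V, I.Pairwise (fun a b => ¬ G'.Adj a b) ∧
      ∀ a w, c a = j → o a < o w → ¬ (roundL G' I).Adj w a := by
  let I : List V := ((Finset.univ.filter (fun v => c v = j)).toList).insertionSort
    (fun a b => o a ≤ o b)
  have hmem : ∀ v, v ∈ I ↔ c v = j := by
    intro v
    rw [List.mem_insertionSort, Finset.mem_toList, Finset.mem_filter]
    simp
  have hsort : I.Pairwise (fun a b => o a ≤ o b) := by
    have : Std.Total (fun a b : V => o a ≤ o b) := ⟨fun a b => le_total _ _⟩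
    have : IsTrans V (fun a b : V => o a ≤ o b) := ⟨fun a b c h h' => le_trans h h'⟩
    exact List.pairwise_insertionSort _ _
  refine ⟨I, List.pairwise_of_forall_mem_list (r := fun a b => ¬ G'.Adj a b) ?_, ?_⟩
  · intro a ha b hb h
    have h1 := (hC.proper a (Finset.mem_univ _) b (Finset.mem_univ _) (hG' h)).1
    rw [(hmem a).1 ha, (hmem b).1 hb] at h1
    exact h1 rfl
  · intro a w hca haw h
    obtain ⟨h1, h2, h3⟩ := h
    have haI : a ∈ I := (hmem a).2 hca
    obtain ⟨k, hk⟩ := fst_isSome (G := G') haI h1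
    have hkI := (fst_eq_some hk).1
    have hkw := (fst_eq_some hk).2
    have hka : a ≠ k := by
      rintro rfl
      exact h2 hk
    have hle : o k ≤ o a := by
      have h4 := fst_first hk haI h1 hka
      have h5 := List.pairwise_iff_getElem.1 hsort (I.idxOf k) (I.idxOf a)
        (List.idxOf_lt_length_iff.2 hkI) (List.idxOf_lt_length_iff.2 haI) h4
      rwa [List.getElem_idxOf, List.getElem_idxOf] at h5
    exact hC.rain w (Finset.mem_univ _) a (Finset.mem_univ _) k (Finset.mem_univ _) hka
      (hG' h1) (hG' hkw) haw (lt_of_le_of_lt hle haw) (hca.trans ((hmem k).1 hkI).symm)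

/-- An ordering and a colouring give rounds. -/
theorem kill_of_col {G : SimpleGraph V} {K : ℕ} {c o : V → ℕ}
    (hC : Col G Finset.univ K c o) : Kill K G := by
  have key : ∀ m j : ℕ, j + m = K → ∀ G' : SimpleGraph V, G' ≤ G →
      (∀ a w, c a < j → o a < o w → ¬ G'.Adj w a) → Kill m G' := by
    intro m
    induction m with
    | zero =>
      intro j hj G' hG' h v w hvw
      have h1 := (hC.proper v (Finset.mem_univ _) w (Finset.mem_univ _) (hG' hvw)).2
      have hv := hC.lt v (Finset.mem_univ _)
      have hw := hC.lt w (Finset.mem_univ _)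
      rcases lt_or_gt_of_ne h1 with h2 | h2
      · exact h v w (by omega) h2 hvw.symm
      · exact h w v (by omega) h2 hvw
    | succ m ih =>
      intro j hj G' hG' h
      obtain ⟨I, hI, hI2⟩ := round_col hC G' hG' j
      refine ⟨I, hI, ih (j + 1) (by omega) _ ((roundL_le G' I).trans hG') ?_⟩
      intro a w hca haw hadj
      rcases Nat.lt_succ_iff_lt_or_eq.1 hca with h1 | h1
      · exact h a w h1 haw hadj.1
      · exact hI2 a w h1 haw hadj
  exact key K 0 (by omega) G le_rfl (fun a w h => absurd h (Nat.not_lt_zero _))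

open Classical in
/-- For `K ≤ 3`: the complement has a configuration in dimension `n - (K + 1)`, or there are an
ordering and a colouring with `K` colours. -/
theorem col_of_not_rep {K : ℕ} (hK : K ≤ 3) (hK1 : 1 ≤ K) : ∀ (m : ℕ) (U : Finset V)
    (G : SimpleGraph V), U.card = m → ¬ Rep Gᶜ.Adj (Fintype.card V - (K + 1)) →
    ∃ c o : V → ℕ, Col G U K c o := by
  intro m
  induction m with
  | zero =>
    intro U G hU _
    rw [Finset.card_eq_zero] at hU
    subst hU
    exact ⟨fun _ => 0, fun _ => 0, by simp, by simp, by simp⟩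
  | succ m ih =>
    intro U G hU hG
    have hne : U.Nonempty := Finset.card_pos.1 (by omega)
    -- a vertex of small degree
    obtain ⟨v, hv, hdv⟩ : ∃ v ∈ U, (U.filter (fun w => G.Adj v w)).card < K := by
      by_contra hno
      push Not at hno
      exact hG (rep_of_min_degree G U hne K hno)
    have hN : ∀ w, w ∈ U.filter (fun w => G.Adj v w) ↔ w ∈ U ∧ G.Adj v w := fun w =>
      Finset.mem_filter
    -- a graph in which the neighbourhood of `v` is a clique
    obtain ⟨G1, hG1, hle, hcl⟩ : ∃ G1 : SimpleGraph V,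
        ¬ Rep G1ᶜ.Adj (Fintype.card V - (K + 1)) ∧
        (∀ a ∈ U.erase v, ∀ b ∈ U.erase v, G.Adj a b → G1.Adj a b) ∧
        (∀ a ∈ U.erase v, ∀ b ∈ U.erase v, a ≠ b → G.Adj v a → G.Adj v b → G1.Adj a b) := by
      by_cases h1 : (U.filter (fun w => G.Adj v w)).card ≤ 1
      · refine ⟨G, hG, fun _ _ _ _ h => h, ?_⟩
        intro a ha b hb hab hva hvb
        exfalso
        have h2 := Finset.card_le_one.1 h1 a ((hN a).2 ⟨(Finset.mem_erase.1 ha).2, hva⟩) b
          ((hN b).2 ⟨(Finset.mem_erase.1 hb).2, hvb⟩)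
        exact hab h2
      · have h2 : (U.filter (fun w => G.Adj v w)).card = 2 := by omega
        obtain ⟨x, y, hxy, hxyN⟩ := Finset.card_eq_two.1 h2
        have hx : G.Adj v x := ((hN x).1 (by rw [hxyN]; simp)).2
        have hy : G.Adj v y := ((hN y).1 (by rw [hxyN]; simp)).2
        have hmem : ∀ a ∈ U.erase v, G.Adj v a → a = x ∨ a = y := by
          intro a ha hva
          have h3 := (hN a).2 ⟨(Finset.mem_erase.1 ha).2, hva⟩
          rw [hxyN] at h3
          simpa using h3
        refine ⟨esh G x v, fun h => hG (rep_of_esh hx.symm h), ?_, ?_⟩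
        · intro a ha b hb hab
          have hav := (Finset.mem_erase.1 ha).1
          have hbv := (Finset.mem_erase.1 hb).1
          refine ⟨hab.ne, ?_⟩
          by_cases hax : a = x
          · subst hax
            exact Or.inr (Or.inr (Or.inl ⟨rfl, hbv, Or.inl hab⟩))
          · by_cases hbx : b = x
            · subst hbx
              exact Or.inr (Or.inr (Or.inr (Or.inl ⟨rfl, hav, Or.inl hab.symm⟩)))
            · exact Or.inr (Or.inr (Or.inr (Or.inr (Or.inr (Or.inr
                ⟨hax, hav, hbx, hbv, hab⟩)))))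
        · intro a ha b hb hab hva hvb
          have hav := (Finset.mem_erase.1 ha).1
          have hbv := (Finset.mem_erase.1 hb).1
          refine ⟨hab, ?_⟩
          rcases hmem a ha hva with h3 | h3 <;> rcases hmem b hb hvb with h4 | h4
          · exact absurd (h3.trans h4.symm) hab
          · exact Or.inr (Or.inr (Or.inl ⟨h3, hbv, Or.inr hvb⟩))
          · exact Or.inr (Or.inr (Or.inr (Or.inl ⟨h4, hav, Or.inr hva⟩)))
          · exact absurd (h3.trans h4.symm) hab
    obtain ⟨c, o, hC⟩ := ih (U.erase v) G1 (by rw [Finset.card_erase_of_mem hv]; omega) hG1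
    -- a free colour
    obtain ⟨j, hjK, hj⟩ : ∃ j, j < K ∧ ∀ a ∈ U, G.Adj v a → c a ≠ j := by
      by_contra hno
      push Not at hno
      have h1 : Finset.range K ⊆ (U.filter (fun w => G.Adj v w)).image c := by
        intro j hj
        obtain ⟨a, ha, hva, hca⟩ := hno j (Finset.mem_range.1 hj)
        exact Finset.mem_image.2 ⟨a, (hN a).2 ⟨ha, hva⟩, hca⟩
      have h2 := (Finset.card_le_card h1).trans Finset.card_image_le
      rw [Finset.card_range] at h2
      omega
    obtain ⟨m0, hm0⟩ : ∃ m0, ∀ w, o w < m0 :=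
      ⟨Finset.univ.sup o + 1, fun w => Nat.lt_succ_of_le (Finset.le_sup (Finset.mem_univ w))⟩
    refine ⟨Function.update c v j, Function.update o v m0, ?_, ?_, ?_⟩
    · intro w hw
      by_cases h1 : w = v
      · subst h1
        rw [Function.update_self]
        exact hjK
      · rw [Function.update_of_ne h1]
        exact hC.lt w (Finset.mem_erase.2 ⟨h1, hw⟩)
    · intro a ha b hb hab
      by_cases h1 : a = v
      · subst h1
        have h2 : b ≠ a := hab.ne'
        rw [Function.update_self, Function.update_self, Function.update_of_ne h2,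
          Function.update_of_ne h2]
        exact ⟨(hj b hb hab).symm, (hm0 b).ne'⟩
      · by_cases h2 : b = v
        · subst h2
          rw [Function.update_self, Function.update_self, Function.update_of_ne h1,
            Function.update_of_ne h1]
          exact ⟨hj a ha hab.symm, (hm0 a).ne⟩
        · rw [Function.update_of_ne h1, Function.update_of_ne h1, Function.update_of_ne h2,
            Function.update_of_ne h2]
          have h3 := Finset.mem_erase.2 ⟨h1, ha⟩
          have h4 := Finset.mem_erase.2 ⟨h2, hb⟩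
          exact hC.proper a h3 b h4 (hle a h3 b h4 hab)
    · intro w hw a ha b hb hab hwa hwb hoa hob
      have h1 : a ≠ v := by
        rintro rfl
        rw [Function.update_self, Function.update_of_ne hwa.ne] at hoa
        exact absurd (hm0 w) (not_lt.2 hoa.le)
      have h2 : b ≠ v := by
        rintro rfl
        rw [Function.update_self, Function.update_of_ne hwb.ne] at hob
        exact absurd (hm0 w) (not_lt.2 hob.le)
      rw [Function.update_of_ne h1, Function.update_of_ne h2]
      have h3 := Finset.mem_erase.2 ⟨h1, ha⟩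
      have h4 := Finset.mem_erase.2 ⟨h2, hb⟩
      by_cases h5 : w = v
      · subst h5
        exact (hC.proper a h3 b h4 (hcl a h3 b h4 hab hwa hwb)).1
      · rw [Function.update_of_ne h5, Function.update_of_ne h1] at hoa
        rw [Function.update_of_ne h5, Function.update_of_ne h2] at hob
        have h6 := Finset.mem_erase.2 ⟨h5, hw⟩
        exact hC.rain w h6 a h3 b h4 hab (hle w h6 a h3 hwa) (hle w h6 b h4 hwb) hoa hob

/-- For `1 ≤ K ≤ 3`: the complement has a configuration in dimension `n - (K + 1)`, or `K` rounds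
suffice. -/
theorem rep_or_kill {K : ℕ} (hK : K ≤ 3) (hK1 : 1 ≤ K) (G : SimpleGraph V) :
    Rep Gᶜ.Adj (Fintype.card V - (K + 1)) ∨ Kill K G := by
  by_cases h : Rep Gᶜ.Adj (Fintype.card V - (K + 1))
  · exact Or.inl h
  · obtain ⟨c, o, hC⟩ := col_of_not_rep hK hK1 _ Finset.univ G rfl h
    exact Or.inr (kill_of_col hC)

end

/-- From a configuration for the complement in dimension `n - k` and `k` rounds for the graph. -/
theorem gcc_of_rep_kill {n : ℕ} {G : SimpleGraph (Fin n)} {k : ℕ} (ha : Rep Gᶜ.Adj (n - k))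
    (hb : Kill k G) :
    ∃ (A B : Matrix (Fin n) (Fin n) ℝ),
      A.PosSemidef ∧
      (∀ i j, i ≠ j → (A i j ≠ 0 ↔ G.Adj i j)) ∧
      (∀ X : Matrix (Fin n) (Fin n) ℝ, X.IsSymm → (∀ i, X i i = 0) →
          (∀ i j, G.Adj i j → X i j = 0) → A * X = 0 → X = 0) ∧
      B.PosSemidef ∧
      (∀ i j, i ≠ j → (B i j ≠ 0 ↔ Gᶜ.Adj i j)) ∧
      (∀ X : Matrix (Fin n) (Fin n) ℝ, X.IsSymm → (∀ i, X i i = 0) →
          (∀ i j, Gᶜ.Adj i j → X i j = 0) → B * X = 0 → X = 0) ∧
      (n - A.rank) + (n - B.rank) + 2 ≥ n := by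
  obtain ⟨B, hB1, hB2, hB3, hB4⟩ := matrix_of_kill hb
  obtain ⟨A, hA1, hA2, hA3, hA4⟩ := exists_matrix_of_rep Gᶜ ha
  rw [compl_compl] at hA2 hA3
  exact ⟨A, B, hA1, hA2, hA3, hB1, hB2, hB3, by omega⟩

open Classical in
/-- The asked inequality if the vertices of degree more than `k` are pairwise non-adjacent and
`k ≤ 4` or some nonempty set of vertices induces minimum degree at least `k - 1`. -/
theorem gcc_of_indep_high {n : ℕ} (G : SimpleGraph (Fin n)) (k : ℕ)
    (hk : ∀ i j, G.Adj i j → Set.ncard {w | G.Adj i w} ≤ k ∨ Set.ncard {w | G.Adj j w} ≤ k)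
    (hS : k ≤ 4 ∨ ∃ S : Finset (Fin n), S.Nonempty ∧
      ∀ v ∈ S, k ≤ Set.ncard {w | w ∈ S ∧ G.Adj v w} + 1) :
    ∃ (A B : Matrix (Fin n) (Fin n) ℝ),
      A.PosSemidef ∧
      (∀ i j, i ≠ j → (A i j ≠ 0 ↔ G.Adj i j)) ∧
      (∀ X : Matrix (Fin n) (Fin n) ℝ, X.IsSymm → (∀ i, X i i = 0) →
          (∀ i j, G.Adj i j → X i j = 0) → A * X = 0 → X = 0) ∧
      B.PosSemidef ∧
      (∀ i j, i ≠ j → (B i j ≠ 0 ↔ Gᶜ.Adj i j)) ∧
      (∀ X : Matrix (Fin n) (Fin n) ℝ, X.IsSymm → (∀ i, X i i = 0) →
          (∀ i j, Gᶜ.Adj i j → X i j = 0) → B * X = 0 → X = 0) ∧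
      (n - A.rank) + (n - B.rank) + 2 ≥ n := by
  have hdg : ∀ v, dg G v = Set.ncard {w | G.Adj v w} := by
    intro v
    unfold dg
    rw [← Set.ncard_coe_finset]
    congr 1
    ext w
    simp
  have hkill : Kill k G := by
    refine kill_of_degree k G (Finset.univ.filter (fun v => k < dg G v)) ?_ ?_
    · intro a ha b hb hab
      have h1 := (Finset.mem_filter.1 ha).2
      have h2 := (Finset.mem_filter.1 hb).2
      rw [hdg] at h1 h2
      rcases hk a b hab with h | h <;> omega
    · intro v hv
      by_contra h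
      exact hv (Finset.mem_filter.2 ⟨Finset.mem_univ _, not_le.1 h⟩)
  by_cases hk4 : k ≤ 4
  · have h4 : Kill 4 G := hkill.mono hk4
    rcases rep_or_kill (K := 3) le_rfl (by norm_num) G with h | h3
    · rw [Fintype.card_fin] at h
      exact gcc_of_rep_kill h h4
    rcases rep_or_kill (K := 2) (by norm_num) (by norm_num) G with h | h2
    · rw [Fintype.card_fin] at h
      exact gcc_of_rep_kill h h3
    rcases rep_or_kill (K := 1) (by norm_num) le_rfl G with h | h1
    · rw [Fintype.card_fin] at h
      exact gcc_of_rep_kill h h2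
    have h5 : Rep Gᶜ.Adj (n - 1) := by
      rcases Nat.eq_zero_or_pos n with h0 | h0
      · have h6 := repL_of_indep (A := Gᶜ.Adj) ∅ (by simp)
        rw [Fintype.card_fin, Finset.card_empty] at h6
        have h7 : n - 0 = n - 1 := by omega
        rw [h7] at h6
        exact h6.rep fun v h => h.ne rfl
      · have h6 := repL_of_indep (A := Gᶜ.Adj) {⟨0, h0⟩} (by
          intro v hv w hw h
          rw [Finset.mem_singleton] at hv hw
          exact h.ne (hv.trans hw.symm))
        rw [Fintype.card_fin, Finset.card_singleton] at h6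
        exact h6.rep fun v h => h.ne rfl
    exact gcc_of_rep_kill h5 h1
  · obtain ⟨S, hSne, hSd⟩ := hS.resolve_left hk4
    have h1 := rep_of_min_degree G S hSne (k - 1) (by
      intro v hv
      have h2 := hSd v hv
      have h3 : Set.ncard {w | w ∈ S ∧ G.Adj v w} = (S.filter (fun w => G.Adj v w)).card := by
        rw [← Set.ncard_coe_finset]
        congr 1
        ext w
        simp
      omega)
    have h2 : k - 1 + 1 = k := by omega
    rw [h2, Fintype.card_fin] at h1
    exact gcc_of_rep_kill h1 hkill

end Pool.Agent.Lib.MP_23961f_co.K
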