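import Pool.Agent.Lib.MP_23961f_co.K.Near

/-!
From an orthogonal configuration of `G` without stress in dimension `d` to a positive semidefinite
matrix of the complement with the Strong Arnold Property and rank at most `d + 1`.
-/

set_option autoImplicit false

open scoped InnerProductSpace Topology

namespace Pool.Agent.Lib.MP_23961f_co.K

open Pool.Agent.Lib.MP_23961f_co.AA

/-- the relation with one more pair -/
def addp {V : Type*} (S : V → V → Prop) (a b : V) : V → V → Prop :=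
  fun v w => S v w ∨ (v = a ∧ w = b) ∨ (v = b ∧ w = a)

theorem addp_symm {V : Type*} {S : V → V → Prop} (hS : ∀ v w, S v w → S w v) (a b : V) :
    ∀ v w, addp S a b v w → addp S a b w v := by
  rintro v w (h | ⟨h1, h2⟩ | ⟨h1, h2⟩)
  · exact Or.inl (hS _ _ h)
  · exact Or.inr (Or.inr ⟨h2, h1⟩)
  · exact Or.inr (Or.inl ⟨h2, h1⟩)

theorem addp_irrefl {V : Type*} {S : V → V → Prop} (hS : ∀ v, ¬ S v v) {a b : V} (hab : a ≠ b) :
    ∀ v, ¬ addp S a b v v := by
  rintro v (h | ⟨h1, h2⟩ | ⟨h1, h2⟩)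
  · exact hS _ h
  · exact hab (h1.symm.trans h2)
  · exact hab (h2.symm.trans h1)

section

variable {V : Type*} [Fintype V] {E : Type*} [NormedAddCommGroup E] [InnerProductSpace ℝ E]

/-- a stress on `addp S a b` with value `1` at the new pair -/
def IsSt (S : V → V → Prop) (x : V → E) (a b : V) (X : V → V → ℝ) : Prop :=
  (∀ v w, X v w = X w v) ∧ (∀ v w, ¬ addp S a b v w → X v w = 0) ∧
    (∀ v, ∑ w, X v w • x w = 0) ∧ X a b = 1

theorem IsSt.unique {S : V → V → Prop} {x : V → E} (hx : SFree S x) {a b : V}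
    {X Y : V → V → ℝ} (hX : IsSt S x a b X) (hY : IsSt S x a b Y) (v w : V) : X v w = Y v w := by
  obtain ⟨hX1, hX2, hX3, hX4⟩ := hX
  obtain ⟨hY1, hY2, hY3, hY4⟩ := hY
  have h := hx (fun v w => X v w - Y v w) (fun v w => by
    show X v w - Y v w = X w v - Y w v
    rw [hX1 v w, hY1 v w]) (fun v w hvw => by
    show X v w - Y v w = 0
    by_cases h1 : v = a ∧ w = b
    · rw [h1.1, h1.2, hX4, hY4, sub_self]
    · by_cases h2 : v = b ∧ w = a
      · rw [h2.1, h2.2, hX1 b a, hY1 b a, hX4, hY4, sub_self]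
      · have h3 : ¬ addp S a b v w := by
          rintro (h | h | h)
          · exact hvw h
          · exact h1 h
          · exact h2 h
        rw [hX2 v w h3, hY2 v w h3, sub_self]) (fun v => by
    have h1 : ∀ w, (X v w - Y v w) • x w = X v w • x w - Y v w • x w :=
      fun w => sub_smul _ _ _
    rw [Finset.sum_congr rfl fun w _ => h1 w, Finset.sum_sub_distrib, hX3, hY3, sub_self]) v w
  exact sub_eq_zero.1 h

open Classical in
/-- a generic extra coordinate destroys all stresses on one more pair -/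
theorem exists_tau {S : V → V → Prop} {x : V → E} (hx : SFree S x) :
    ∃ τ : V → ℝ, ∀ a b, SFree (addp S a b) (pr x τ) := by
  let J : Finset (V × V) := Finset.univ.filter (fun p => ∃ X, IsSt S x p.1 p.2 X)
  let X : V × V → V → V → ℝ := fun p =>
    if h : ∃ X, IsSt S x p.1 p.2 X then h.choose else 0
  have hX : ∀ p ∈ J, IsSt S x p.1 p.2 (X p) := by
    intro p hp
    have h := (Finset.mem_filter.1 hp).2
    show IsSt S x p.1 p.2 (if h : ∃ X, IsSt S x p.1 p.2 X then h.choose else 0)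
    rw [dif_pos h]
    exact h.choose_spec
  let L : V × V → (V → ℝ) →ₗ[ℝ] ℝ := fun p =>
    ∑ w, X p p.1 w • (LinearMap.proj w : (V → ℝ) →ₗ[ℝ] ℝ)
  have hL : ∀ p τ, L p τ = ∑ w, X p p.1 w * τ w := by
    intro p τ
    simp [L, LinearMap.sum_apply]
  have hnt : (⊤ : Submodule ℝ (V → ℝ)) ∉ J.image (fun p => LinearMap.ker (L p)) := by
    intro htop
    obtain ⟨p, hp, hpk⟩ := Finset.mem_image.1 htop
    have h1 : (Pi.single p.2 1 : V → ℝ) ∈ LinearMap.ker (L p) := by
      rw [hpk]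
      trivial
    have h2 : L p (Pi.single p.2 1) = 0 := h1
    rw [hL, Finset.sum_eq_single p.2] at h2
    · rw [Pi.single_eq_same, mul_one, (hX p hp).2.2.2] at h2
      exact one_ne_zero h2
    · intro w _ hw
      rw [Pi.single_eq_of_ne hw, mul_zero]
    · intro h
      exact absurd (Finset.mem_univ _) h
  have hun := Subspace.biUnion_ne_univ_of_top_notMem (k := ℝ) (E := V → ℝ)
    (s := J.image (fun p => LinearMap.ker (L p))) hnt
  obtain ⟨τ, hτ⟩ := (Set.ne_univ_iff_exists_notMem _).1 hun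
  refine ⟨τ, fun a b Y hY1 hY2 hY3 => ?_⟩
  have hY4 : ∀ v, ∑ w, Y v w • x w = 0 := fun v => ((sum_pr_eq_zero_iff x τ (Y v)).1 (hY3 v)).1
  have hY5 : ∀ v, ∑ w, Y v w * τ w = 0 := fun v => ((sum_pr_eq_zero_iff x τ (Y v)).1 (hY3 v)).2
  by_cases hab : Y a b = 0
  · refine hx Y hY1 (fun v w hvw => ?_) hY4
    by_cases h1 : v = a ∧ w = b
    · rw [h1.1, h1.2, hab]
    · by_cases h2 : v = b ∧ w = a
      · rw [h2.1, h2.2, hY1 b a, hab]
      · refine hY2 v w ?_
        rintro (h | h | h)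
        · exact hvw h
        · exact h1 h
        · exact h2 h
  · exfalso
    have hst : IsSt S x a b (fun v w => (Y a b)⁻¹ * Y v w) := by
      refine ⟨fun v w => ?_, fun v w hvw => ?_, fun v => ?_, ?_⟩
      · show (Y a b)⁻¹ * Y v w = (Y a b)⁻¹ * Y w v
        rw [hY1 v w]
      · show (Y a b)⁻¹ * Y v w = 0
        rw [hY2 v w hvw, mul_zero]
      · have h1 : ∀ w, ((Y a b)⁻¹ * Y v w) • x w = (Y a b)⁻¹ • (Y v w • x w) :=
          fun w => mul_smul _ _ _
        rw [Finset.sum_congr rfl fun w _ => h1 w, ← Finset.smul_sum, hY4, smul_zero]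
      · exact inv_mul_cancel₀ hab
    have hJ : (a, b) ∈ J := Finset.mem_filter.2 ⟨Finset.mem_univ _, ⟨_, hst⟩⟩
    have huni := IsSt.unique hx hst (hX (a, b) hJ)
    apply hτ
    simp only [Set.mem_iUnion]
    refine ⟨LinearMap.ker (L (a, b)), Finset.mem_image.2 ⟨(a, b), hJ, rfl⟩, ?_⟩
    show L (a, b) τ = 0
    rw [hL]
    have h2 : ∀ w, X (a, b) (a, b).1 w * τ w = (Y a b)⁻¹ * (Y a w * τ w) := by
      intro w
      rw [← huni]
      ring
    rw [Finset.sum_congr rfl fun w _ => h2 w, ← Finset.mul_sum, hY5, mul_zero]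

end

open Classical in
/-- Lemma L. -/
theorem exists_matrix_of_rep {V : Type*} [Fintype V] (G : SimpleGraph V) {d : ℕ}
    (h : Rep G.Adj d) :
    ∃ A : Matrix V V ℝ, A.PosSemidef ∧ (∀ i j, i ≠ j → (A i j ≠ 0 ↔ Gᶜ.Adj i j)) ∧
      (∀ X : Matrix V V ℝ, X.IsSymm → (∀ i, X i i = 0) →
        (∀ i j, Gᶜ.Adj i j → X i j = 0) → A * X = 0 → X = 0) ∧ A.rank ≤ d + 1 := by
  obtain ⟨x, hx0, hxF⟩ := h
  obtain ⟨τ, hτ⟩ := exists_tau hxF
  let o : V → ℕ := fun v => (Fintype.equivFin V v : ℕ)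
  have ho : Function.Injective o := by
    intro v w hvw
    exact (Fintype.equivFin V).injective (Fin.ext hvw)
  have hGs : ∀ v w, G.Adj v w → G.Adj w v := fun v w h => h.symm
  have hGi : ∀ v, ¬ G.Adj v v := fun v h => h.ne rfl
  let O : Set ((V → EuclideanSpace ℝ (Fin d)) × ℝ) :=
    {q | NS (ori o G.Adj) q.1 ∧ ∀ p : V × V, p.1 ≠ p.2 →
      NS (ori o (addp G.Adj p.1 p.2)) (pr q.1 τ)}
  have hOo : IsOpen O := by
    have h1 : O = {q | NS (ori o G.Adj) q.1} ∩ ⋂ p : V × V, {q | p.1 ≠ p.2 →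
      NS (ori o (addp G.Adj p.1 p.2)) (pr q.1 τ)} := by
      ext q
      simp only [O, Set.mem_setOf_eq, Set.mem_inter_iff, Set.mem_iInter]
    rw [h1]
    refine ((isOpen_ns _).preimage continuous_fst).inter (isOpen_iInter_of_finite fun p => ?_)
    by_cases hp : p.1 = p.2
    · have h2 : {q : (V → EuclideanSpace ℝ (Fin d)) × ℝ | p.1 ≠ p.2 →
          NS (ori o (addp G.Adj p.1 p.2)) (pr q.1 τ)} = Set.univ :=
        Set.eq_univ_of_forall fun q h3 => absurd hp h3
      rw [h2]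
      exact isOpen_univ
    · have h2 : {q : (V → EuclideanSpace ℝ (Fin d)) × ℝ | p.1 ≠ p.2 →
          NS (ori o (addp G.Adj p.1 p.2)) (pr q.1 τ)} =
          {q | NS (ori o (addp G.Adj p.1 p.2)) (pr q.1 τ)} := by
        ext q
        exact ⟨fun h3 => h3 hp, fun h3 _ => h3⟩
      rw [h2]
      have hc : Continuous (fun q : (V → EuclideanSpace ℝ (Fin d)) × ℝ => pr q.1 τ) :=
        continuous_pr.comp (continuous_fst.prodMk continuous_const)
      exact (isOpen_ns _).preimage hc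
  have hO : O ∈ 𝓝 (x, (0 : ℝ)) := by
    refine hOo.mem_nhds ⟨(sFree_iff ho hGs hGi x).1 hxF, fun p hp => ?_⟩
    exact (sFree_iff ho (addp_symm hGs _ _) (addp_irrefl hGi hp) _).1 (hτ p.1 p.2)
  obtain ⟨x', t, ht, hmem, heq⟩ := exists_zero_near (S := ori o G.Adj) (x := x)
    (fun v w hvw => hx0 v w hvw.1) ((sFree_iff ho hGs hGi x).1 hxF)
    (fun q p => q.2 ^ 2 * (τ p.1.1 * τ p.1.2))
    (by
      refine contDiff_pi.2 fun p => ?_
      fun_prop)
    (fun y => by
      funext p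
      show (0 : ℝ) ^ 2 * _ = 0
      ring) hO
  have hxF' : SFree G.Adj x' := (sFree_iff ho hGs hGi x').2 hmem.1
  have hadd' : ∀ a b, a ≠ b → SFree (addp G.Adj a b) (pr x' τ) := fun a b hab =>
    (sFree_iff ho (addp_symm hGs _ _) (addp_irrefl hGi hab) _).2 (hmem.2 (a, b) hab)
  have horth : ∀ v w, G.Adj v w →
      ⟪pr x' (fun a => t * τ a) v, pr x' (fun a => t * τ a) w⟫_ℝ = 0 := by
    have h1 : ∀ v w, ori o G.Adj v w → ⟪x' v, x' w⟫_ℝ + t ^ 2 * (τ v * τ w) = 0 :=
      fun v w hvw => heq ⟨(v, w), hvw⟩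
    intro v w hvw
    rw [inner_pr]
    rcases lt_trichotomy (o v) (o w) with h2 | h2 | h2
    · rw [← h1 v w ⟨hvw, h2⟩]
      ring
    · exact absurd (ho h2) hvw.ne
    · have h3 := h1 w v ⟨hvw.symm, h2⟩
      rw [real_inner_comm] at h3
      rw [← h3]
      ring
  have hsum : ∀ (a : V → ℝ), ∑ w, a w • pr x' (fun a => t * τ a) w = 0 →
      ∑ w, a w • pr x' τ w = 0 := by
    intro a ha
    obtain ⟨h1, h2⟩ := (sum_pr_eq_zero_iff x' _ a).1 ha
    refine (sum_pr_eq_zero_iff x' τ a).2 ⟨h1, ?_⟩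
    have h3 : t * ∑ w, a w * τ w = 0 := by
      rw [Finset.mul_sum, ← h2]
      refine Finset.sum_congr rfl fun w _ => ?_
      ring
    exact (mul_eq_zero.1 h3).resolve_left ht
  obtain ⟨A, h1, h2, h3, h4⟩ := matrix_of_config G (pr x' (fun a => t * τ a)) horth
    (fun X hX1 hX2 hX3 => by
      refine hxF' X hX1 hX2 (fun v => ?_)
      exact ((sum_pr_eq_zero_iff x' _ (X v)).1 (hX3 v)).1)
    (fun a b hab hG => by
      right
      intro X hX1 hX2 hX3
      refine hadd' a b hab X hX1 (fun v w hvw => ?_) (fun v => hsum _ (hX3 v))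
      exact hX2 v w (fun h => hvw (Or.inl h)) (fun h => hvw (Or.inr (Or.inl h)))
        (fun h => hvw (Or.inr (Or.inr h))))
  refine ⟨A, h1, h2, h3, h4.trans ?_⟩
  rw [finrank_pr]
  simp

end Pool.Agent.Lib.MP_23961f_co.K
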