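import Pool.Agent.Lib.MP_23961f_co.K.RoundMain
import Pool.Agent.Lib.MP_23961f_co.K.LemmaL

/-!
Rounds along ordered independent lists, and the killing number.

`roundL G I`: every vertex with a neighbour in `I` deletes the edge to its first neighbour in `I`.
`Kill k G`: `G` can be emptied by `k` rounds along lists of pairwise non-adjacent vertices.
Main theorems: `matrix_of_kill` (n - nu(complement of G) ≤ k + 1) and `gcc_of_kill`.
-/

set_option autoImplicit false

open scoped InnerProductSpace Topology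

namespace Pool.Agent.Lib.MP_23961f_co.K

open Classical in
/-- the first neighbour of `w` in the list `I` -/
noncomputable def fst {V : Type*} (G : SimpleGraph V) (I : List V) (w : V) : Option V :=
  I.find? (fun k => decide (G.Adj w k))

/-- The graph after the round along `I`. -/
noncomputable def roundL {V : Type*} (G : SimpleGraph V) (I : List V) : SimpleGraph V where
  Adj v w := G.Adj v w ∧ fst G I v ≠ some w ∧ fst G I w ≠ some v
  symm := ⟨fun _ _ h => ⟨h.1.symm, h.2.2, h.2.1⟩⟩
  loopless := ⟨fun _ h => h.1.ne rfl⟩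

/-- `G` can be emptied by `k` rounds. -/
def Kill {V : Type*} : ℕ → SimpleGraph V → Prop
  | 0, G => ∀ v w, ¬ G.Adj v w
  | k + 1, G => ∃ I : List V, I.Pairwise (fun a b => ¬ G.Adj a b) ∧ Kill k (roundL G I)

open Classical in
theorem fst_eq_some {V : Type*} {G : SimpleGraph V} {I : List V} {w k : V}
    (h : fst G I w = some k) : k ∈ I ∧ G.Adj w k := by
  unfold fst at h
  have h1 := List.find?_some h
  exact ⟨List.mem_of_find?_eq_some h, of_decide_eq_true h1⟩

open Classical in
theorem fst_first {V : Type*} {G : SimpleGraph V} {I : List V} {w k k' : V}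
    (h : fst G I w = some k) (hk' : k' ∈ I) (hw : G.Adj w k') (hne : k' ≠ k) :
    I.idxOf k < I.idxOf k' := by
  unfold fst at h
  obtain ⟨h1, l₁, l₂, h2, h3⟩ := List.find?_eq_some_iff_append.1 h
  have h4 : k' ∉ l₁ := by
    intro h5
    have h6 := h3 k' h5
    simp [hw] at h6
  have h7 : k ∉ l₁ := by
    intro h5
    have h6 := h3 k h5
    simp [of_decide_eq_true h1] at h6
  rw [h2, List.idxOf_append_of_notMem h7, List.idxOf_append_of_notMem h4, List.idxOf_cons_self,
    List.idxOf_cons_ne _ (Ne.symm hne)]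
  omega

open Classical in
theorem rep_of_kill {V : Type*} [Fintype V] : ∀ (k : ℕ) (G : SimpleGraph V), Kill k G →
    Rep G.Adj k := by
  intro k
  induction k with
  | zero =>
    intro G h
    refine ⟨fun _ => 0, fun v w hvw => absurd hvw (h v w), ?_⟩
    intro X _ h2 _ v w
    exact h2 v w (h v w)
  | succ k ih =>
    intro G h
    obtain ⟨I, hI, hk⟩ := h
    have hsym : Std.Symm (fun a b => ¬ G.Adj a b) := ⟨fun a b h h' => h h'.symm⟩
    have hI' : ∀ a ∈ I, ∀ b ∈ I, ¬ G.Adj a b := by
      intro a ha b hb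
      by_cases hab : a = b
      · subst hab
        exact fun h => h.ne rfl
      · exact hI.forall ha hb hab
    have hR : RoundData G.Adj (fun v => v ∈ I) (fun v => (fst G I v).isSome = true)
        (fun v => (fst G I v).getD v) (fun v => I.idxOf v) := by
      refine ⟨fun a b ha hb => hI' a ha b hb, ?_, ?_, ?_⟩
      · intro w hw
        obtain ⟨k, hk⟩ := Option.isSome_iff_exists.1 hw
        show (fst G I w).getD w ∈ I
        rw [hk]
        exact (fst_eq_some hk).1
      · intro w hw
        obtain ⟨k, hk⟩ := Option.isSome_iff_exists.1 hw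
        show G.Adj w ((fst G I w).getD w)
        rw [hk]
        exact (fst_eq_some hk).2
      · intro w hw k' hk' hadj hne
        obtain ⟨k, hk⟩ := Option.isSome_iff_exists.1 hw
        have h1 : (fst G I w).getD w = k := by rw [hk]; rfl
        show I.idxOf ((fst G I w).getD w) < I.idxOf k'
        rw [h1]
        exact fst_first hk hk' hadj (fun h2 => hne (h2.trans h1.symm))
    refine rep_round (fun v w h => h.symm) (fun v h => h.ne rfl) hR ?_
    obtain ⟨u, hu1, hu2⟩ := ih _ hk
    have hsub : ∀ v w, rest G.Adj (fun v => (fst G I v).isSome = true)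
        (fun v => (fst G I v).getD v) v w → (roundL G I).Adj v w := by
      rintro v w ⟨h1, h2, h3⟩
      refine ⟨h1, fun h4 => h2 ⟨?_, ?_⟩, fun h4 => h3 ⟨?_, ?_⟩⟩
      · show (fst G I v).isSome = true
        rw [h4]; rfl
      · show (fst G I v).getD v = w
        rw [h4]; rfl
      · show (fst G I w).isSome = true
        rw [h4]; rfl
      · show (fst G I w).getD w = v
        rw [h4]; rfl
    exact ⟨u, fun v w h => hu1 v w (hsub v w h), hu2.mono hsub⟩

open Classical in
/-- `n - nu (complement of G) ≤ k + 1` if `G` can be emptied by `k` rounds. -/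
theorem matrix_of_kill {V : Type*} [Fintype V] {k : ℕ} {G : SimpleGraph V} (h : Kill k G) :
    ∃ A : Matrix V V ℝ, A.PosSemidef ∧ (∀ i j, i ≠ j → (A i j ≠ 0 ↔ Gᶜ.Adj i j)) ∧
      (∀ X : Matrix V V ℝ, X.IsSymm → (∀ i, X i i = 0) →
        (∀ i j, Gᶜ.Adj i j → X i j = 0) → A * X = 0 → X = 0) ∧ A.rank ≤ k + 1 :=
  exists_matrix_of_rep G (rep_of_kill k G h)

theorem roundL_nil {V : Type*} (G : SimpleGraph V) : roundL G [] = G := by
  ext v w
  show (G.Adj v w ∧ fst G [] v ≠ some w ∧ fst G [] w ≠ some v) ↔ G.Adj v w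
  simp [fst]

theorem Kill.succ {V : Type*} : ∀ {k : ℕ} {G : SimpleGraph V}, Kill k G → Kill (k + 1) G := by
  intro k G h
  refine ⟨[], List.Pairwise.nil, ?_⟩
  rw [roundL_nil]
  exact h

theorem Kill.mono {V : Type*} {k l : ℕ} {G : SimpleGraph V} (h : Kill k G) (hkl : k ≤ l) :
    Kill l G := by
  induction hkl with
  | refl => exact h
  | step _ ih => exact ih.succ

/-- The asked inequality for a graph whose killing number and that of its complement sum to at
most `n`. -/
theorem gcc_of_kill {n : ℕ} {G : SimpleGraph (Fin n)} {a b : ℕ} (ha : Kill a G) (hb : Kill b Gᶜ)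
    (hab : a + b ≤ n) :
    ∃ (A B : Matrix (Fin n) (Fin n) ℝ),
      A.PosSemidef ∧
      (∀ i j, i ≠ j → (A i j ≠ 0 ↔ G.Adj i j)) ∧
      (∀ X : Matrix (Fin n) (Fin n) ℝ, X.IsSymm → (∀ i, X i i = 0) →
          (∀ i j, G.Adj i j → X i j = 0) → A * X = 0 → X = 0) ∧
      B.PosSemidef ∧
      (∀ i j, i ≠ j → (B i j ≠ 0 ↔ Gᶜ.Adj i j)) ∧
      (∀ X : Matrix (Fin n) (Fin n) ℝ, X.IsSymm → (∀ i, X i i = 0) →
          (∀ i j, Gᶜ.Adj i j → X i j = 0) → B * X = 0 → X = 0) ∧
      (n - A.rank) + (n - B.rank) + 2 ≥ n := by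
  obtain ⟨B, hB1, hB2, hB3, hB4⟩ := matrix_of_kill ha
  obtain ⟨A, hA1, hA2, hA3, hA4⟩ := matrix_of_kill hb
  rw [compl_compl] at hA2 hA3
  exact ⟨A, B, hA1, hA2, hA3, hB1, hB2, hB3, by omega⟩

end Pool.Agent.Lib.MP_23961f_co.K
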