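import Pool.Agent.Lib.MP_23961f_co.K.NearL

/-!
The merge lemma. `y, y'` are looped and non-adjacent for `A`; in `mg A y y'` the vertex `y` is
looped and has the union of the neighbourhoods, `y'` has no loop and the intersection, and `y, y'`
are adjacent. Then `RepL (mg A y y') d → RepL A d`
(`x y := P + t Q`, `x y' := - P + t Q` and a small correction).
-/

set_option autoImplicit false

open scoped InnerProductSpace Topology

namespace Pool.Agent.Lib.MP_23961f_co.K

open Pool.Agent.Lib.MP_23961f_co.AA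

/-- the merged relation -/
def mg {V : Type*} (A : V → V → Prop) (y y' v w : V) : Prop :=
  (v = y ∧ (w = y ∨ w = y' ∨ (w ≠ y ∧ w ≠ y' ∧ (A y w ∨ A y' w)))) ∨
  (v = y' ∧ (w = y ∨ (w ≠ y ∧ w ≠ y' ∧ A y w ∧ A y' w))) ∨
  (v ≠ y ∧ v ≠ y' ∧ ((w = y ∧ (A y v ∨ A y' v)) ∨ (w = y' ∧ A y v ∧ A y' v) ∨
    (w ≠ y ∧ w ≠ y' ∧ A v w)))

section mg

variable {V : Type*} {A : V → V → Prop} {y y' : V}

theorem mg_yy : mg A y y' y y := Or.inl ⟨rfl, Or.inl rfl⟩

theorem mg_yy' : mg A y y' y y' := Or.inl ⟨rfl, Or.inr (Or.inl rfl)⟩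

theorem not_mg (h : y ≠ y') : ¬ mg A y y' y' y' := by
  rintro (⟨h1, _⟩ | ⟨_, h1 | ⟨_, h1, _⟩⟩ | ⟨_, h1, _⟩)
  · exact h h1.symm
  · exact h h1.symm
  · exact h1 rfl
  · exact h1 rfl

theorem mg_y_iff {w : V} (h : y ≠ y') (hw : w ≠ y) (hw' : w ≠ y') :
    mg A y y' y w ↔ A y w ∨ A y' w := by
  constructor
  · rintro (⟨_, h1 | h1 | ⟨_, _, h1⟩⟩ | ⟨h1, _⟩ | ⟨h1, _⟩)
    · exact absurd h1 hw
    · exact absurd h1 hw'
    · exact h1
    · exact absurd h1 h
    · exact absurd rfl h1
  · intro h1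
    exact Or.inl ⟨rfl, Or.inr (Or.inr ⟨hw, hw', h1⟩)⟩

theorem mg_y'_iff {w : V} (h : y ≠ y') (hw : w ≠ y) (hw' : w ≠ y') :
    mg A y y' y' w ↔ A y w ∧ A y' w := by
  constructor
  · rintro (⟨h1, _⟩ | ⟨_, h1 | ⟨_, _, h1⟩⟩ | ⟨_, h1, _⟩)
    · exact absurd h1.symm h
    · exact absurd h1 hw
    · exact h1
    · exact absurd rfl h1
  · intro h1
    exact Or.inr (Or.inl ⟨rfl, Or.inr ⟨hw, hw', h1⟩⟩)

theorem mg_iff {v w : V} (hv : v ≠ y) (hv' : v ≠ y') (hw : w ≠ y) (hw' : w ≠ y') :
    mg A y y' v w ↔ A v w := by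
  constructor
  · rintro (⟨h1, _⟩ | ⟨h1, _⟩ | ⟨_, _, ⟨h1, _⟩ | ⟨h1, _⟩ | ⟨_, _, h1⟩⟩)
    · exact absurd h1 hv
    · exact absurd h1 hv'
    · exact absurd h1 hw
    · exact absurd h1 hw'
    · exact h1
  · intro h1
    exact Or.inr (Or.inr ⟨hv, hv', Or.inr (Or.inr ⟨hw, hw', h1⟩)⟩)

theorem mg_symm (h : y ≠ y') (hA : ∀ v w, A v w → A w v) :
    ∀ v w, mg A y y' v w → mg A y y' w v := by
  rintro v w (⟨rfl, h1 | h1 | ⟨h1, h2, h3⟩⟩ | ⟨rfl, h1 | ⟨h1, h2, h3⟩⟩ |
    ⟨h0, h0', ⟨h1, h2⟩ | ⟨h1, h2⟩ | ⟨h1, h2, h3⟩⟩)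
  · subst h1
    exact mg_yy
  · subst h1
    exact Or.inr (Or.inl ⟨rfl, Or.inl rfl⟩)
  · exact Or.inr (Or.inr ⟨h1, h2, Or.inl ⟨rfl, h3⟩⟩)
  · subst h1
    exact mg_yy'
  · exact Or.inr (Or.inr ⟨h1, h2, Or.inr (Or.inl ⟨rfl, h3⟩)⟩)
  · subst h1
    exact Or.inl ⟨rfl, Or.inr (Or.inr ⟨h0, h0', h2⟩)⟩
  · subst h1
    exact Or.inr (Or.inl ⟨rfl, Or.inr ⟨h0, h0', h2⟩⟩)
  · exact Or.inr (Or.inr ⟨h1, h2, Or.inr (Or.inr ⟨h0, h0', hA _ _ h3⟩)⟩)

end mg

section

variable {V : Type*} [Fintype V] {E : Type*} [NormedAddCommGroup E] [InnerProductSpace ℝ E]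

open Classical in
/-- `1`, `-1` on the private neighbours of `y`, `y'` -/
noncomputable def sg (A : V → V → Prop) (y y' w : V) : ℝ :=
  (if A y w then 1 else 0) - (if A y' w then 1 else 0)

open Classical in
/-- the perturbation of the equations -/
noncomputable def kk (A : V → V → Prop) (y y' a b : V) (q : (V → E) × ℝ) : ℝ :=
  if a = y then
    if b = y then q.2 ^ 2 * ⟪q.1 y', q.1 y'⟫_ℝ
    else if b = y' then 0 else sg A y y' b * (q.2 * ⟪q.1 y', q.1 b⟫_ℝ)
  else if b = y then
    if a = y' then 0 else sg A y y' a * (q.2 * ⟪q.1 y', q.1 a⟫_ℝ)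
  else 0

theorem kk_zero (A : V → V → Prop) (y y' a b : V) (x : V → E) :
    kk A y y' a b (x, 0) = 0 := by
  unfold kk
  split_ifs <;> simp

theorem contDiff_kk (A : V → V → Prop) (y y' a b : V) :
    ContDiff ℝ 1 (kk (E := E) A y y' a b) := by
  have h1 : ∀ c d : V, ContDiff ℝ 1 (fun q : (V → E) × ℝ => ⟪q.1 c, q.1 d⟫_ℝ) := by
    intro c d
    refine ContDiff.inner ℝ ?_ ?_
    · exact (contDiff_apply ℝ E c).comp contDiff_fst
    · exact (contDiff_apply ℝ E d).comp contDiff_fst
  unfold kk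
  split_ifs
  · exact (contDiff_snd.pow _).mul (h1 _ _)
  · exact contDiff_const
  · exact contDiff_const.mul (contDiff_snd.mul (h1 _ _))
  · exact contDiff_const
  · exact contDiff_const.mul (contDiff_snd.mul (h1 _ _))
  · exact contDiff_const

open Classical in
/-- the modified stress map -/
noncomputable def SS (A : V → V → Prop) (y y' : V) (q : (V → E) × ℝ) (Y : V → V → ℝ)
    (v : V) : E :=
  if v = y then ∑ w, Y y w • q.1 w
  else if v = y' then ∑ w, Y y' w • q.1 w +
    ((∑ w, (if w = y ∨ w = y' then 0 else q.2 * sg A y y' w * Y y w) • q.1 w) +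
      (q.2 ^ 2 * Y y y) • q.1 y')
  else ∑ w, Y v w • q.1 w + (q.2 * sg A y y' v * Y y v) • q.1 y'

theorem continuous_SS (A : V → V → Prop) (y y' v : V) :
    Continuous (fun z : ((V → E) × ℝ) × (V → V → ℝ) => SS A y y' z.1 z.2 v) := by
  have hY : ∀ a b : V, Continuous (fun z : ((V → E) × ℝ) × (V → V → ℝ) => z.2 a b) := by
    intro a b
    fun_prop
  have hx : ∀ a : V, Continuous (fun z : ((V → E) × ℝ) × (V → V → ℝ) => z.1.1 a) := by
    intro a
    fun_prop
  have ht : Continuous (fun z : ((V → E) × ℝ) × (V → V → ℝ) => z.1.2) := by fun_prop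
  unfold SS
  split_ifs
  · exact continuous_finsetSum _ fun w _ => (hY y w).smul (hx w)
  · refine Continuous.add (continuous_finsetSum _ fun w _ => (hY y' w).smul (hx w))
      (Continuous.add (continuous_finsetSum _ fun w _ => ?_)
        (((ht.pow 2).mul (hY y y)).smul (hx y')))
    split_ifs
    · exact continuous_const.smul (hx w)
    · exact ((ht.mul continuous_const).mul (hY y w)).smul (hx w)
  · exact Continuous.add (continuous_finsetSum _ fun w _ => (hY v w).smul (hx w))
      (((ht.mul continuous_const).mul (hY y v)).smul (hx y'))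

theorem SS_smul (A : V → V → Prop) (y y' : V) (q : (V → E) × ℝ)
    (Y : V → V → ℝ) (r : ℝ) (v : V) :
    SS A y y' q (fun a b => r * Y a b) v = r • SS A y y' q Y v := by
  classical
  have h1 : ∀ a : V, ∑ w, (r * Y a w) • q.1 w = r • ∑ w, Y a w • q.1 w := by
    intro a
    rw [Finset.smul_sum]
    exact Finset.sum_congr rfl fun w _ => by rw [mul_smul]
  unfold SS
  split_ifs
  · exact h1 y
  · rw [h1, smul_add, smul_add]
    congr 2
    · rw [Finset.smul_sum]
      refine Finset.sum_congr rfl fun w _ => ?_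
      split_ifs
      · rw [zero_smul, smul_zero]
      · rw [← mul_smul]
        congr 1
        ring
    · rw [← mul_smul]
      congr 1
      ring
  · rw [h1, smul_add]
    congr 1
    rw [← mul_smul]
    congr 1
    ring

theorem SS_zero (A : V → V → Prop) (y y' : V) (x : V → E) (Y : V → V → ℝ) (v : V) :
    SS A y y' (x, (0 : ℝ)) Y v = ∑ w, Y v w • x w := by
  classical
  unfold SS
  by_cases h1 : v = y
  · rw [if_pos h1, h1]
  · rw [if_neg h1]
    by_cases h2 : v = y'
    · rw [if_pos h2, h2]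
      simp only [zero_pow two_ne_zero, zero_mul, zero_smul, add_zero, ite_self,
        Finset.sum_const_zero]
    · rw [if_neg h2]
      simp only [zero_mul, zero_smul, add_zero]

theorem sum_split {M : Type*} [AddCommMonoid M] [DecidableEq V] {y y' : V} (h : y ≠ y')
    (F : V → M) :
    ∑ w, F w = F y + F y' + ∑ w, if w = y ∨ w = y' then 0 else F w := by
  have h1 : ∀ w, F w = ((if w = y then F y else 0) + (if w = y' then F y' else 0)) +
      (if w = y ∨ w = y' then 0 else F w) := by
    intro w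
    by_cases hw : w = y
    · subst hw
      simp [h]
    · by_cases hw' : w = y'
      · subst hw'
        simp [hw]
      · simp [hw, hw']
  conv_lhs => rw [Finset.sum_congr rfl fun w _ => h1 w]
  rw [Finset.sum_add_distrib, Finset.sum_add_distrib, Finset.sum_ite_eq' Finset.univ y,
    Finset.sum_ite_eq' Finset.univ y', if_pos (Finset.mem_univ _), if_pos (Finset.mem_univ _)]

open Classical in
/-- the new configuration -/
noncomputable def nx (y y' : V) (x : V → E) (t : ℝ) (v : V) : E :=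
  if v = y then x y + t • x y' else if v = y' then - x y + t • x y' else x v

open Classical in
/-- the stress of the merged relation -/
noncomputable def ny (A : V → V → Prop) (y y' : V) (t : ℝ) (X : V → V → ℝ) (v w : V) : ℝ :=
  if v = y then
    if w = y then X y y + X y' y' else if w = y' then t * (X y y - X y' y')
    else X y w - X y' w
  else if v = y' then
    if w = y then t * (X y y - X y' y') else if w = y' then 0
    else if A y w ∧ A y' w then t * (X y w + X y' w) else 0
  else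
    if w = y then X y v - X y' v else if w = y' then
      (if A y v ∧ A y' v then t * (X y v + X y' v) else 0)
    else X v w

end

section

variable {V : Type*} [Fintype V] {E : Type*} [NormedAddCommGroup E] [InnerProductSpace ℝ E]
  {A : V → V → Prop} {y y' : V}

theorem ny_symm (hyy : y ≠ y') (t : ℝ) {X : V → V → ℝ} (hX : ∀ v w, X v w = X w v)
    (v w : V) : ny A y y' t X v w = ny A y y' t X w v := by
  unfold ny
  by_cases hv : v = y
  · by_cases hw : w = y
    · rw [hv, hw]
    · by_cases hw' : w = y'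
      · have h1 : y' ≠ y := hyy.symm
        simp only [hv, hw', if_true, if_neg h1]
      · simp only [hv, if_true, if_neg hw, if_neg hw']
  · by_cases hv' : v = y'
    · by_cases hw : w = y
      · have h1 : y' ≠ y := hyy.symm
        simp only [hw, hv', if_true, if_neg h1]
      · by_cases hw' : w = y'
        · rw [hv', hw']
        · have h1 : y' ≠ y := hyy.symm
          simp only [hv', if_true, if_neg hw, if_neg hw', if_neg h1]
    · by_cases hw : w = y
      · simp only [hw, if_true, if_neg hv, if_neg hv']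
      · by_cases hw' : w = y'
        · have h1 : y' ≠ y := hyy.symm
          simp only [hw', if_true, if_neg hv, if_neg hv', if_neg h1]
        · simp only [if_neg hv, if_neg hv', if_neg hw, if_neg hw']
          exact hX v w

theorem ny_supp (hyy : y ≠ y') (hAs : ∀ v w, A v w → A w v) (t : ℝ) {X : V → V → ℝ}
    (hX0 : ∀ v w, ¬ A v w → X v w = 0) (v w : V) (h : ¬ mg A y y' v w) :
    ny A y y' t X v w = 0 := by
  have hy'y : y' ≠ y := hyy.symm
  unfold ny
  by_cases hv : v = y
  · subst hv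
    by_cases hw : w = v
    · subst hw
      exact absurd mg_yy h
    · by_cases hw' : w = y'
      · subst hw'
        exact absurd mg_yy' h
      · rw [mg_y_iff hyy hw hw'] at h
        rw [if_pos rfl, if_neg hw, if_neg hw', hX0 _ _ (fun h1 => h (Or.inl h1)),
          hX0 _ _ (fun h1 => h (Or.inr h1)), sub_zero]
  · by_cases hv' : v = y'
    · subst hv'
      by_cases hw : w = y
      · subst hw
        exact absurd (mg_symm hyy hAs _ _ mg_yy') h
      · by_cases hw' : w = v
        · subst hw'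
          simp only [if_neg hy'y, if_true]
        · rw [mg_y'_iff hyy hw hw'] at h
          rw [if_neg hy'y, if_pos rfl, if_neg hw, if_neg hw', if_neg h]
    · by_cases hw : w = y
      · subst hw
        have h1 : ¬ mg A w y' w v := fun h2 => h (mg_symm hyy hAs _ _ h2)
        rw [mg_y_iff hyy hv hv'] at h1
        rw [if_neg hv, if_neg hv', if_pos rfl, hX0 _ _ (fun h2 => h1 (Or.inl h2)),
          hX0 _ _ (fun h2 => h1 (Or.inr h2)), sub_zero]
      · by_cases hw' : w = y'
        · subst hw'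
          have h1 : ¬ mg A y w w v := fun h2 => h (mg_symm hyy hAs _ _ h2)
          rw [mg_y'_iff hyy hv hv'] at h1
          rw [if_neg hv, if_neg hv', if_neg hy'y, if_pos rfl, if_neg h1]
        · rw [mg_iff hv hv' hw hw'] at h
          rw [if_neg hv, if_neg hv', if_neg hw, if_neg hw', hX0 _ _ h]

end

end Pool.Agent.Lib.MP_23961f_co.K
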