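import Pool.Agent.Lib.MP_23961f_co.K.MergeMain
import Pool.Agent.Lib.MP_23961f_co.K.Kill

/-!
Merge sequences of a relation with loops. `MR k R`: from `R` one reaches, by deleting units and by
merging adjacent pairs (`gm`), a relation with a looped clique on `k` vertices.
Main theorem `gcc_of_merge`: the matrices of the question if `k + l ≥ n` for `G` with all loops and
its complement with all loops.
-/

set_option autoImplicit false

open scoped InnerProductSpace Topology

namespace Pool.Agent.Lib.MP_23961f_co.K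

/-- The merge of `z, z'`: `z` gets a loop and the union of the neighbourhoods, `z'` loses its loop
and keeps the intersection; `z, z'` are no longer adjacent. -/
def gm {V : Type*} (R : V → V → Prop) (z z' v w : V) : Prop :=
  (v = z ∧ (w = z ∨ (w ≠ z ∧ w ≠ z' ∧ (R z w ∨ R z' w)))) ∨
  (v = z' ∧ w ≠ z ∧ w ≠ z' ∧ R z w ∧ R z' w) ∨
  (v ≠ z ∧ v ≠ z' ∧ ((w = z ∧ (R z v ∨ R z' v)) ∨ (w = z' ∧ R z v ∧ R z' v) ∨
    (w ≠ z ∧ w ≠ z' ∧ R v w)))

/-- `R` has a looped clique on `k` vertices after deletions of units and merges. -/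
inductive MR {V : Type*} (k : ℕ) : (V → V → Prop) → Prop
  | clique (R : V → V → Prop) (P : Finset V) (hk : k ≤ P.card)
      (h : ∀ v ∈ P, ∀ w ∈ P, R v w) : MR k R
  | del (R R' : V → V → Prop) (hs : ∀ v w, R' v w → R' w v) (h : ∀ v w, R' v w → R v w)
      (h' : MR k R') : MR k R
  | merge (R : V → V → Prop) (z z' : V) (hne : z ≠ z') (hz : R z' z)
      (h' : MR k (gm R z z')) : MR k R

theorem not_gm {V : Type*} {R : V → V → Prop} {z z' : V} (hne : z ≠ z') (v w : V) :
    ¬ gm R z z' v w ↔ mg (fun a b => ¬ R a b) z' z v w := by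
  classical
  have hne' : z' ≠ z := hne.symm
  unfold gm mg
  by_cases hv : v = z
  · subst hv
    by_cases hw : w = v
    · subst hw
      simp [hne]
    · by_cases hw' : w = z'
      · subst hw'
        simp [hne, hne']
      · simp [hne, hw, hw']
        tauto
  · by_cases hv' : v = z'
    · subst hv'
      by_cases hw : w = z
      · subst hw
        simp [hne']
      · by_cases hw' : w = v
        · subst hw'
          simp [hne']
        · simp [hne', hw, hw']
          tauto
    · by_cases hw : w = z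
      · subst hw
        simp [hne, hv, hv']
        tauto
      · by_cases hw' : w = z'
        · subst hw'
          simp [hne', hv, hv']
          tauto
        · simp [hv, hv', hw, hw']

theorem gm_symm {V : Type*} {R : V → V → Prop} {z z' : V} (hne : z ≠ z')
    (hR : ∀ v w, R v w → R w v) (v w : V) (h : gm R z z' v w) : gm R z z' w v := by
  by_contra h1
  rw [not_gm hne] at h1
  have h2 := mg_symm hne.symm (A := fun a b => ¬ R a b) (fun a b h3 h4 => h3 (hR _ _ h4)) _ _ h1
  rw [← not_gm hne] at h2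
  exact h2 h

theorem repL_of_MR {V : Type*} [Fintype V] {k : ℕ} {R : V → V → Prop} (h : MR k R)
    (hR : ∀ v w, R v w → R w v) : RepL (fun v w => ¬ R v w) (Fintype.card V - k) := by
  classical
  induction h with
  | clique R P hk h =>
    obtain ⟨Q, hQ, hQk⟩ := Finset.exists_subset_card_eq hk
    have h1 := repL_of_indep (A := fun v w => ¬ R v w) Q
      (fun v hv w hw h2 => h2 (h v (hQ hv) w (hQ hw)))
    rwa [hQk] at h1
  | del R R' hs h h' ih =>
    exact (ih hs).mono fun v w h1 h2 => h1 (h _ _ h2)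
  | merge R z z' hne hz h' ih =>
    have h1 := ih (gm_symm hne hR)
    have h2 : RepL (mg (fun a b => ¬ R a b) z' z) (Fintype.card V - k) :=
      h1.mono fun v w h3 => (not_gm hne v w).2 h3
    exact repL_merge hne.symm (fun v w h3 h4 => h3 (hR _ _ h4)) (fun h3 => h3 hz) h2

/-- `G` with all loops. -/
def full {V : Type*} (G : SimpleGraph V) (v w : V) : Prop := v = w ∨ G.Adj v w

theorem matrix_of_MR {V : Type*} [Fintype V] {k : ℕ} {G : SimpleGraph V} (h : MR k (full G)) :
    ∃ A : Matrix V V ℝ, A.PosSemidef ∧ (∀ i j, i ≠ j → (A i j ≠ 0 ↔ G.Adj i j)) ∧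
      (∀ X : Matrix V V ℝ, X.IsSymm → (∀ i, X i i = 0) →
        (∀ i j, G.Adj i j → X i j = 0) → A * X = 0 → X = 0) ∧
      A.rank ≤ Fintype.card V - k + 1 := by
  have h1 : RepL (fun v w => ¬ full G v w) (Fintype.card V - k) :=
    repL_of_MR h fun v w h2 => h2.imp Eq.symm fun h3 => h3.symm
  have h2 : RepL Gᶜ.Adj (Fintype.card V - k) := by
    refine h1.mono fun v w h3 h4 => ?_
    rcases h4 with h5 | h5
    · exact h3.ne h5
    · exact ((SimpleGraph.compl_adj G v w).1 h3).2 h5
  have h3 := exists_matrix_of_rep Gᶜ (h2.rep fun v h4 => h4.ne rfl)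
  rwa [compl_compl] at h3

/-- The asked inequality for a graph such that it and its complement, each with all loops, have
looped cliques on `k` and `l` vertices after merges, `k + l ≥ n`. -/
theorem gcc_of_merge {n : ℕ} {G : SimpleGraph (Fin n)} {k l : ℕ} (hk : MR k (full G))
    (hl : MR l (full Gᶜ)) (hkl : n ≤ k + l) :
    ∃ (A B : Matrix (Fin n) (Fin n) ℝ),
      A.PosSemidef ∧
      (∀ i j, i ≠ j → (A i j ≠ 0 ↔ G.Adj i j)) ∧
      (∀ X : Matrix (Fin n) (Fin n) ℝ, X.IsSymm → (∀ i, X i i = 0) →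
          (∀ i j, G.Adj i j → X i j = 0) → A * X = 0 → X = 0) ∧
      B.PosSemidef ∧
      (∀ i j, i ≠ j → (B i j ≠ 0 ↔ Gᶜ.Adj i j)) ∧
      (∀ X : Matrix (Fin n) (Fin n) ℝ, X.IsSymm → (∀ i, X i i = 0) →
          (∀ i j, Gᶜ.Adj i j → X i j = 0) → B * X = 0 → X = 0) ∧
      (n - A.rank) + (n - B.rank) + 2 ≥ n := by
  obtain ⟨A, hA1, hA2, hA3, hA4⟩ := matrix_of_MR hk
  obtain ⟨B, hB1, hB2, hB3, hB4⟩ := matrix_of_MR hl
  rw [Fintype.card_fin] at hA4 hB4
  exact ⟨A, B, hA1, hA2, hA3, hB1, hB2, hB3, by omega⟩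

end Pool.Agent.Lib.MP_23961f_co.K
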