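import Pool.Agent.Lib.MP_23961f_co.K.Merge

/-!
The merge lemma: `RepL (mg A y y') d → RepL A d` for `y, y'` looped and non-adjacent.
-/

set_option autoImplicit false

open scoped InnerProductSpace Topology

namespace Pool.Agent.Lib.MP_23961f_co.K

open Pool.Agent.Lib.MP_23961f_co.AA

section

variable {V : Type*} [Fintype V] {E : Type*} [NormedAddCommGroup E] [InnerProductSpace ℝ E]
  {A : V → V → Prop} {y y' : V}

theorem ny_coef (hyy : y ≠ y') (t : ℝ) {X : V → V → ℝ} (hX0 : ∀ v w, ¬ A v w → X v w = 0)
    {w : V} (hw : w ≠ y) (hw' : w ≠ y') :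
    ny A y y' t X y' w + t * sg A y y' w * (X y w - X y' w) = t * (X y w + X y' w) := by
  unfold ny sg
  rw [if_neg hyy.symm, if_pos rfl, if_neg hw, if_neg hw']
  by_cases h1 : A y w
  · by_cases h2 : A y' w
    · rw [if_pos ⟨h1, h2⟩, if_pos h1, if_pos h2]
      ring
    · rw [if_neg (fun h => h2 h.2), if_pos h1, if_neg h2, hX0 _ _ h2]
      ring
  · by_cases h2 : A y' w
    · rw [if_neg (fun h => h1 h.1), if_neg h1, if_pos h2, hX0 _ _ h1]
      ring
    · rw [if_neg (fun h => h1 h.1), if_neg h1, if_neg h2, hX0 _ _ h1, hX0 _ _ h2]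
      ring

open Classical in
/-- The stress part of the merge lemma. -/
theorem merge_stress (hyy : y ≠ y') (hAs : ∀ v w, A v w → A w v) (hna : ¬ A y y')
    {t : ℝ} (ht : t ≠ 0) (x : V → E)
    (hT : ∀ Y : V → V → ℝ, (∀ v w, Y v w = Y w v) → (∀ v w, ¬ mg A y y' v w → Y v w = 0) →
      (∀ v, SS A y y' (x, t) Y v = 0) → ∀ v w, Y v w = 0)
    (X : V → V → ℝ) (h1 : ∀ v w, X v w = X w v) (h2 : ∀ v w, ¬ A v w → X v w = 0)
    (h3 : ∀ v, ∑ w, X v w • nx y y' x t w = 0) : ∀ v w, X v w = 0 := by
  have hy'y : y' ≠ y := hyy.symm
  have hX12 : X y y' = 0 := h2 _ _ hna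
  have hX21 : X y' y = 0 := by rw [h1]; exact hX12
  set R : V → E := fun v => ∑ w, (if w = y ∨ w = y' then 0 else X v w) • x w with hR
  have row : ∀ v, R v + ((X v y - X v y') • x y + (t * (X v y + X v y')) • x y') = 0 := by
    intro v
    have h4 := h3 v
    rw [sum_split hyy] at h4
    have h5 : (∑ w, if w = y ∨ w = y' then 0 else X v w • nx y y' x t w) = R v := by
      simp only [hR]
      refine Finset.sum_congr rfl fun w _ => ?_
      by_cases hw : w = y ∨ w = y'
      · rw [if_pos hw, if_pos hw, zero_smul]
      · rw [if_neg hw, if_neg hw]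
        have h6 : nx y y' x t w = x w := by
          unfold nx
          rw [if_neg (fun h => hw (Or.inl h)), if_neg (fun h => hw (Or.inr h))]
        rw [h6]
    have h7 : nx y y' x t y = x y + t • x y' := if_pos rfl
    have h8 : nx y y' x t y' = - x y + t • x y' := by
      unfold nx
      rw [if_neg hy'y, if_pos rfl]
    rw [h5, h7, h8] at h4
    rw [← h4]
    module
  have hYS : ∀ v, SS A y y' (x, t) (ny A y y' t X) v = 0 := by
    intro v
    unfold SS
    by_cases hv : v = y
    · rw [if_pos hv]
      show ∑ w, ny A y y' t X y w • x w = 0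
      rw [sum_split hyy]
      have h4 : ny A y y' t X y y = X y y + X y' y' := by
        unfold ny
        rw [if_pos rfl, if_pos rfl]
      have h5 : ny A y y' t X y y' = t * (X y y - X y' y') := by
        unfold ny
        rw [if_pos rfl, if_neg hy'y, if_pos rfl]
      have h6 : (∑ w, if w = y ∨ w = y' then 0 else ny A y y' t X y w • x w) = R y - R y' := by
        simp only [hR]
        rw [← Finset.sum_sub_distrib]
        refine Finset.sum_congr rfl fun w _ => ?_
        by_cases hw : w = y ∨ w = y'
        · rw [if_pos hw, if_pos hw, if_pos hw, zero_smul, sub_zero]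
        · rw [if_neg hw, if_neg hw, if_neg hw, ← sub_smul]
          congr 1
          unfold ny
          rw [if_pos rfl, if_neg (fun h => hw (Or.inl h)), if_neg (fun h => hw (Or.inr h))]
      rw [h4, h5, h6]
      have e1 := row y
      have e2 := row y'
      rw [hX12] at e1
      rw [hX21] at e2
      calc (X y y + X y' y') • x y + (t * (X y y - X y' y')) • x y' + (R y - R y') =
          (R y + ((X y y - 0) • x y + (t * (X y y + 0)) • x y')) -
          (R y' + ((0 - X y' y') • x y + (t * (0 + X y' y')) • x y')) := by module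
        _ = 0 := by rw [e1, e2, sub_zero]
    · rw [if_neg hv]
      by_cases hv' : v = y'
      · rw [if_pos hv']
        show ∑ w, ny A y y' t X y' w • x w +
          ((∑ w, (if w = y ∨ w = y' then 0 else t * sg A y y' w * ny A y y' t X y w) • x w) +
            (t ^ 2 * ny A y y' t X y y) • x y') = 0
        have h4 : ny A y y' t X y y = X y y + X y' y' := by
          unfold ny
          rw [if_pos rfl, if_pos rfl]
        have h5 : ny A y y' t X y' y = t * (X y y - X y' y') := by
          unfold ny
          rw [if_neg hy'y, if_pos rfl, if_pos rfl]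
        have h5' : ny A y y' t X y' y' = 0 := by
          unfold ny
          rw [if_neg hy'y, if_pos rfl, if_neg hy'y, if_pos rfl]
        rw [sum_split hyy, h4, h5, h5']
        have h6 : (∑ w, if w = y ∨ w = y' then 0 else ny A y y' t X y' w • x w) +
            (∑ w, (if w = y ∨ w = y' then 0 else t * sg A y y' w * ny A y y' t X y w) • x w) =
            t • (R y + R y') := by
          simp only [hR]
          rw [← Finset.sum_add_distrib, ← Finset.sum_add_distrib, Finset.smul_sum]
          refine Finset.sum_congr rfl fun w _ => ?_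
          by_cases hw : w = y ∨ w = y'
          · rw [if_pos hw, if_pos hw, if_pos hw, if_pos hw, zero_smul, add_zero, smul_zero]
          · rw [if_neg hw, if_neg hw, if_neg hw, if_neg hw, ← add_smul, ← add_smul, ← mul_smul]
            congr 1
            have hwy : w ≠ y := fun h => hw (Or.inl h)
            have hwy' : w ≠ y' := fun h => hw (Or.inr h)
            have h7 : ny A y y' t X y w = X y w - X y' w := by
              unfold ny
              rw [if_pos rfl, if_neg hwy, if_neg hwy']
            rw [h7]
            exact ny_coef hyy t h2 hwy hwy'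
        have e1 := row y
        have e2 := row y'
        rw [hX12] at e1
        rw [hX21] at e2
        calc (t * (X y y - X y' y')) • x y + (0 : ℝ) • x y' +
              (∑ w, if w = y ∨ w = y' then 0 else ny A y y' t X y' w • x w) +
              ((∑ w, (if w = y ∨ w = y' then 0 else
                t * sg A y y' w * ny A y y' t X y w) • x w) +
                (t ^ 2 * (X y y + X y' y')) • x y') =
            ((∑ w, if w = y ∨ w = y' then 0 else ny A y y' t X y' w • x w) +
              (∑ w, (if w = y ∨ w = y' then 0 else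
                t * sg A y y' w * ny A y y' t X y w) • x w)) +
              ((t * (X y y - X y' y')) • x y + (t ^ 2 * (X y y + X y' y')) • x y') := by
                module
          _ = t • (R y + R y') +
              ((t * (X y y - X y' y')) • x y + (t ^ 2 * (X y y + X y' y')) • x y') := by
                rw [h6]
          _ = t • ((R y + ((X y y - 0) • x y + (t * (X y y + 0)) • x y')) +
              (R y' + ((0 - X y' y') • x y + (t * (0 + X y' y')) • x y'))) := by module
          _ = 0 := by rw [e1, e2, add_zero, smul_zero]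
      · rw [if_neg hv']
        show ∑ w, ny A y y' t X v w • x w +
          (t * sg A y y' v * ny A y y' t X y v) • x y' = 0
        have h4 : ny A y y' t X v y = X y v - X y' v := by
          unfold ny
          rw [if_neg hv, if_neg hv', if_pos rfl]
        have h5 : ny A y y' t X v y' = ny A y y' t X y' v := ny_symm hyy t h1 v y'
        have h7 : ny A y y' t X y v = X y v - X y' v := by
          unfold ny
          rw [if_pos rfl, if_neg hv, if_neg hv']
        have h6 : (∑ w, if w = y ∨ w = y' then 0 else ny A y y' t X v w • x w) = R v := by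
          simp only [hR]
          refine Finset.sum_congr rfl fun w _ => ?_
          by_cases hw : w = y ∨ w = y'
          · rw [if_pos hw, if_pos hw, zero_smul]
          · rw [if_neg hw, if_neg hw]
            congr 1
            unfold ny
            rw [if_neg hv, if_neg hv', if_neg (fun h => hw (Or.inl h)),
              if_neg (fun h => hw (Or.inr h))]
        rw [sum_split hyy, h4, h5, h6, h7]
        have h8 := ny_coef hyy t h2 hv hv'
        have e1 := row v
        rw [h1 v y, h1 v y'] at e1
        calc (X y v - X y' v) • x y + ny A y y' t X y' v • x y' + R v +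
              (t * sg A y y' v * (X y v - X y' v)) • x y' =
            R v + ((X y v - X y' v) • x y + (ny A y y' t X y' v +
              t * sg A y y' v * (X y v - X y' v)) • x y') := by module
          _ = 0 := by rw [h8, e1]
  have hY0 := hT (ny A y y' t X) (ny_symm hyy t h1) (ny_supp hyy hAs t h2) hYS
  -- conclusion
  have hyy0 : X y y + X y' y' = 0 := by
    have := hY0 y y
    unfold ny at this
    rwa [if_pos rfl, if_pos rfl] at this
  have hyy1 : t * (X y y - X y' y') = 0 := by
    have := hY0 y y'
    unfold ny at this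
    rwa [if_pos rfl, if_neg hy'y, if_pos rfl] at this
  have hyy2 : X y y - X y' y' = 0 := (mul_eq_zero.1 hyy1).resolve_left ht
  have hXyy : X y y = 0 := by linarith
  have hXyy' : X y' y' = 0 := by linarith
  have hXyw : ∀ w, w ≠ y → w ≠ y' → X y w = 0 ∧ X y' w = 0 := by
    intro w hw hw'
    have h4 : X y w - X y' w = 0 := by
      have := hY0 y w
      unfold ny at this
      rwa [if_pos rfl, if_neg hw, if_neg hw'] at this
    by_cases h5 : A y w
    · by_cases h6 : A y' w
      · have h7 : t * (X y w + X y' w) = 0 := by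
          have := hY0 y' w
          unfold ny at this
          rwa [if_neg hy'y, if_pos rfl, if_neg hw, if_neg hw', if_pos ⟨h5, h6⟩] at this
        have h8 : X y w + X y' w = 0 := (mul_eq_zero.1 h7).resolve_left ht
        constructor <;> linarith
      · have h7 := h2 _ _ h6
        constructor <;> linarith
    · have h7 := h2 _ _ h5
      constructor <;> linarith
  have hXy : ∀ w, X y w = 0 := by
    intro w
    by_cases hw : w = y
    · rw [hw]; exact hXyy
    · by_cases hw' : w = y'
      · rw [hw']; exact hX12
      · exact (hXyw w hw hw').1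
  have hXy' : ∀ w, X y' w = 0 := by
    intro w
    by_cases hw : w = y
    · rw [hw]; exact hX21
    · by_cases hw' : w = y'
      · rw [hw']; exact hXyy'
      · exact (hXyw w hw hw').2
  intro v w
  by_cases hv : v = y
  · rw [hv]; exact hXy w
  · by_cases hv' : v = y'
    · rw [hv']; exact hXy' w
    · by_cases hw : w = y
      · rw [hw, h1]; exact hXy v
      · by_cases hw' : w = y'
        · rw [hw', h1]; exact hXy' v
        · have := hY0 v w
          unfold ny at this
          rwa [if_neg hv, if_neg hv', if_neg hw, if_neg hw'] at this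

end

open Classical in
/-- The merge lemma. -/
theorem repL_merge {V : Type*} [Fintype V] {A : V → V → Prop} {y y' : V} (hyy : y ≠ y')
    (hAs : ∀ v w, A v w → A w v) (hna : ¬ A y y') {d : ℕ}
    (h : RepL (mg A y y') d) : RepL A d := by
  obtain ⟨x, hx0, hx1, hxF⟩ := h
  let o : V → ℕ := fun v => (Fintype.equivFin V v : ℕ)
  have ho : Function.Injective o := by
    intro v w hvw
    exact (Fintype.equivFin V).injective (Fin.ext hvw)
  have hms := mg_symm hyy hAs
  have hy'y : y' ≠ y := hyy.symm
  -- the compact set of unit stresses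
  let C : Set (V → V → ℝ) := {Y | (∀ v w, Y v w = Y w v) ∧
    (∀ v w, ¬ mg A y y' v w → Y v w = 0)} ∩ Metric.sphere 0 1
  have hC : IsCompact C := by
    refine (isCompact_sphere _ _).inter_left ?_
    have h1 : {Y : V → V → ℝ | (∀ v w, Y v w = Y w v) ∧
        (∀ v w, ¬ mg A y y' v w → Y v w = 0)} =
        (⋂ v, ⋂ w, {Y | Y v w = Y w v}) ∩ ⋂ v, ⋂ w, {Y | ¬ mg A y y' v w → Y v w = 0} := by
      ext Y
      simp only [Set.mem_setOf_eq, Set.mem_inter_iff, Set.mem_iInter]
    rw [h1]
    refine IsClosed.inter (isClosed_iInter fun v => isClosed_iInter fun w =>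
      isClosed_eq (by fun_prop) (by fun_prop)) (isClosed_iInter fun v => isClosed_iInter fun w => ?_)
    by_cases h2 : mg A y y' v w
    · have h3 : {Y : V → V → ℝ | ¬ mg A y y' v w → Y v w = 0} = Set.univ :=
        Set.eq_univ_of_forall fun Y h4 => absurd h2 h4
      rw [h3]
      exact isClosed_univ
    · have h3 : {Y : V → V → ℝ | ¬ mg A y y' v w → Y v w = 0} = {Y | Y v w = 0} := by
        ext Y
        exact ⟨fun h4 => h4 h2, fun h4 _ => h4⟩
      rw [h3]
      exact isClosed_eq (by fun_prop) (by fun_prop)
  have hev : ∀ᶠ q in 𝓝 (x, (0 : ℝ)), ∀ Y ∈ C, (fun v => SS A y y' q Y v) ≠ 0 := by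
    refine hC.eventually_forall_of_forall_eventually fun Y hY => ?_
    have hcont : Continuous (fun z : ((V → EuclideanSpace ℝ (Fin d)) × ℝ) × (V → V → ℝ) =>
        (fun v => SS A y y' z.1 z.2 v)) :=
      continuous_pi fun v => continuous_SS A y y' v
    have hne : (fun v => SS A y y' (x, (0 : ℝ)) Y v) ≠ 0 := by
      intro h0
      have h1 : ∀ v, ∑ w, Y v w • x w = 0 := by
        intro v
        rw [← SS_zero A y y' x Y v]
        exact congrFun h0 v
      have h4 := hxF Y hY.1.1 hY.1.2 h1
      have h5 : Y = 0 := funext fun v => funext fun w => h4 v w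
      have h6 := hY.2
      rw [h5] at h6
      simp at h6
    exact hcont.continuousAt.eventually_ne hne
  obtain ⟨x', t, ht, hmem, heq⟩ := exists_near (S := oriL o (mg A y y')) (x := x)
    (nsL_of ho hms hxF)
    (fun q p => kk A y y' p.1.1 p.1.2 q)
    (contDiff_pi.2 fun p => contDiff_kk A y y' _ _)
    (fun z => funext fun p => kk_zero A y y' _ _ z) hev
  have hT : ∀ Y : V → V → ℝ, (∀ v w, Y v w = Y w v) →
      (∀ v w, ¬ mg A y y' v w → Y v w = 0) →
      (∀ v, SS A y y' (x', t) Y v = 0) → ∀ v w, Y v w = 0 := by
    intro Y h1 h2 h3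
    by_contra hne
    have hY0 : Y ≠ 0 := by
      intro h
      apply hne
      intro v w
      rw [h]
      rfl
    have hn : ‖Y‖ ≠ 0 := norm_ne_zero_iff.2 hY0
    refine hmem (fun a b => ‖Y‖⁻¹ * Y a b) ⟨⟨fun v w => ?_, fun v w h => ?_⟩, ?_⟩ ?_
    · show ‖Y‖⁻¹ * Y v w = ‖Y‖⁻¹ * Y w v
      rw [h1]
    · show ‖Y‖⁻¹ * Y v w = 0
      rw [h2 v w h, mul_zero]
    · have h4 : (fun a b => ‖Y‖⁻¹ * Y a b) = ‖Y‖⁻¹ • Y := rfl
      rw [h4, mem_sphere_zero_iff_norm, norm_smul, norm_inv, norm_norm]
      exact inv_mul_cancel₀ hn
    · funext v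
      rw [SS_smul, h3 v, smul_zero]
      rfl
  -- the equations
  have heq' : ∀ v w, mg A y y' v w → ⟪x' v, x' w⟫_ℝ + kk A y y' v w (x', t) = ⟪x v, x w⟫_ℝ := by
    have h1 : ∀ v w, oriL o (mg A y y') v w →
        ⟪x' v, x' w⟫_ℝ + kk A y y' v w (x', t) = ⟪x v, x w⟫_ℝ :=
      fun v w hvw => heq ⟨(v, w), hvw⟩
    have hks : ∀ v w, kk A y y' v w (x', t) = kk A y y' w v (x', t) := by
      intro v w
      unfold kk
      by_cases hv : v = y
      · by_cases hw : w = y
        · rw [hv, hw]
        · by_cases hw' : w = y'
          · simp only [hv, hw', if_true, if_neg hy'y]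
          · simp only [hv, if_true, if_neg hw, if_neg hw']
      · by_cases hw : w = y
        · by_cases hv' : v = y'
          · simp only [hw, hv', if_true, if_neg hy'y]
          · simp only [hw, if_true, if_neg hv, if_neg hv']
        · simp only [if_neg hv, if_neg hw]
    intro v w hvw
    rcases le_total (o v) (o w) with h2 | h2
    · exact h1 v w ⟨hvw, h2⟩
    · have h3 := h1 w v ⟨hms _ _ hvw, h2⟩
      rw [real_inner_comm, hks, real_inner_comm (x w) (x v)]
      rw [← h3, real_inner_comm]
  have hPQ : ⟪x' y, x' y'⟫_ℝ = 0 := by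
    have h1 := heq' y y' mg_yy'
    have h2 : kk A y y' y y' (x', t) = 0 := by
      unfold kk
      rw [if_pos rfl, if_neg hy'y, if_pos rfl]
    rw [h2, hx0 y y' hyy mg_yy', add_zero] at h1
    exact h1
  have hPP : ⟪x' y, x' y⟫_ℝ + t ^ 2 * ⟪x' y', x' y'⟫_ℝ = 1 := by
    have h1 := heq' y y mg_yy
    have h2 : kk A y y' y y (x', t) = t ^ 2 * ⟪x' y', x' y'⟫_ℝ := by
      unfold kk
      rw [if_pos rfl, if_pos rfl]
    rw [h2, hx1 y mg_yy] at h1
    exact h1
  have hnxy : nx y y' x' t y = x' y + t • x' y' := if_pos rfl
  have hnxy' : nx y y' x' t y' = - x' y + t • x' y' := by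
    unfold nx
    rw [if_neg hy'y, if_pos rfl]
  have hnx : ∀ w, w ≠ y → w ≠ y' → nx y y' x' t w = x' w := by
    intro w hw hw'
    unfold nx
    rw [if_neg hw, if_neg hw']
  have hwP : ∀ w, w ≠ y → w ≠ y' → (A y w ∨ A y' w) →
      ⟪x' y, x' w⟫_ℝ + sg A y y' w * (t * ⟪x' y', x' w⟫_ℝ) = 0 := by
    intro w hw hw' hA
    have h0 : mg A y y' y w := (mg_y_iff hyy hw hw').2 hA
    have h1 := heq' y w h0
    have h2 : kk A y y' y w (x', t) = sg A y y' w * (t * ⟪x' y', x' w⟫_ℝ) := by
      unfold kk
      rw [if_pos rfl, if_neg hw, if_neg hw']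
    rw [h2, hx0 y w (Ne.symm hw) h0] at h1
    exact h1
  have hwQ : ∀ w, w ≠ y → w ≠ y' → A y w → A y' w → ⟪x' y', x' w⟫_ℝ = 0 := by
    intro w hw hw' h1 h2
    have h0 : mg A y y' y' w := (mg_y'_iff hyy hw hw').2 ⟨h1, h2⟩
    have h3 := heq' y' w h0
    have h4 : kk A y y' y' w (x', t) = 0 := by
      unfold kk
      rw [if_neg hy'y, if_neg hw]
    rw [h4, hx0 y' w (Ne.symm hw') h0, add_zero] at h3
    exact h3
  have hyw : ∀ w, w ≠ y → w ≠ y' → A y w → ⟪x' y + t • x' y', x' w⟫_ℝ = 0 := by
    intro w hw hw' h1
    rw [inner_add_left, real_inner_smul_left]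
    have h2 := hwP w hw hw' (Or.inl h1)
    by_cases h3 : A y' w
    · have h4 := hwQ w hw hw' h1 h3
      rw [h4, mul_zero, mul_zero, add_zero] at h2
      rw [h2, h4, mul_zero, add_zero]
    · have h4 : sg A y y' w = 1 := by
        unfold sg
        rw [if_pos h1, if_neg h3, sub_zero]
      rw [h4, one_mul] at h2
      exact h2
  have hyw' : ∀ w, w ≠ y → w ≠ y' → A y' w → ⟪- x' y + t • x' y', x' w⟫_ℝ = 0 := by
    intro w hw hw' h1
    rw [inner_add_left, real_inner_smul_left, inner_neg_left]
    have h2 := hwP w hw hw' (Or.inr h1)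
    by_cases h3 : A y w
    · have h4 := hwQ w hw hw' h3 h1
      rw [h4, mul_zero, mul_zero, add_zero] at h2
      rw [h2, h4, mul_zero, neg_zero, add_zero]
    · have h4 : sg A y y' w = -1 := by
        unfold sg
        rw [if_neg h3, if_pos h1]
        ring
      rw [h4] at h2
      linarith
  refine ⟨nx y y' x' t, ?_, ?_, ?_⟩
  · intro v w hvw hA
    by_cases hv : v = y
    · by_cases hw : w = y
      · exact absurd (hv.trans hw.symm) hvw
      · by_cases hw' : w = y'
        · rw [hv, hw'] at hA
          exact absurd hA hna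
        · rw [hv] at hA
          rw [hv, hnxy, hnx w hw hw']
          exact hyw w hw hw' hA
    · by_cases hv' : v = y'
      · by_cases hw : w = y
        · rw [hv', hw] at hA
          exact absurd (hAs _ _ hA) hna
        · by_cases hw' : w = y'
          · exact absurd (hv'.trans hw'.symm) hvw
          · rw [hv'] at hA
            rw [hv', hnxy', hnx w hw hw']
            exact hyw' w hw hw' hA
      · by_cases hw : w = y
        · rw [hw] at hA
          rw [hw, hnxy, hnx v hv hv', real_inner_comm]
          exact hyw v hv hv' (hAs _ _ hA)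
        · by_cases hw' : w = y'
          · rw [hw'] at hA
            rw [hw', hnxy', hnx v hv hv', real_inner_comm]
            exact hyw' v hv hv' (hAs _ _ hA)
          · rw [hnx v hv hv', hnx w hw hw']
            have h0 : mg A y y' v w := (mg_iff hv hv' hw hw').2 hA
            have h1 := heq' v w h0
            have h2 : kk A y y' v w (x', t) = 0 := by
              unfold kk
              rw [if_neg hv, if_neg hw]
            rw [h2, hx0 v w hvw h0, add_zero] at h1
            exact h1
  · intro v hA
    by_cases hv : v = y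
    · rw [hv, hnxy, inner_add_left, inner_add_right, inner_add_right, real_inner_smul_left,
        real_inner_smul_left, real_inner_smul_right, real_inner_smul_right,
        real_inner_comm (x' y) (x' y'), hPQ]
      rw [← hPP]
      ring
    · by_cases hv' : v = y'
      · rw [hv', hnxy', inner_add_left, inner_add_right, inner_add_right, real_inner_smul_left,
          real_inner_smul_left, real_inner_smul_right, real_inner_smul_right, inner_neg_left,
          inner_neg_left, inner_neg_right, inner_neg_right,
          real_inner_comm (x' y) (x' y'), hPQ]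
        rw [← hPP]
        ring
      · rw [hnx v hv hv']
        have h0 : mg A y y' v v := (mg_iff hv hv' hv hv').2 hA
        have h1 := heq' v v h0
        have h2 : kk A y y' v v (x', t) = 0 := by
          unfold kk
          rw [if_neg hv, if_neg hv]
        rw [h2, hx1 v h0, add_zero] at h1
        exact h1
  · intro X h1 h2 h3
    exact merge_stress hyy hAs hna ht x' hT X h1 h2 h3

end Pool.Agent.Lib.MP_23961f_co.K
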