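import Pool.Agent.Lib.MP_23961f_co.K.Basic

/-!
Solving the orthogonality relations with a small perturbation: if `x` is orthogonal along `S`
without stress and `κ (y, 0) = 0`, then the equations `⟪x' a, x' b⟫ + κ (x', t) = 0` have a solution
near `(x, 0)` with `t ≠ 0`.
-/

set_option autoImplicit false

open scoped InnerProductSpace Topology

namespace Pool.Agent.Lib.MP_23961f_co.K

open Pool.Agent.Lib.MP_23961f_co.AA

open Classical in
theorem exists_zero_near {V : Type*} [Fintype V] [DecidableEq V] {E : Type*}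
    [NormedAddCommGroup E] [InnerProductSpace ℝ E] [FiniteDimensional ℝ E]
    {S : V → V → Prop} {x : V → E} (hx : ∀ v w, S v w → ⟪x v, x w⟫_ℝ = 0) (hN : NS S x)
    (κ : (V → E) × ℝ → ({p : V × V // S p.1 p.2} → ℝ)) (hκ : ContDiff ℝ 1 κ)
    (hκ0 : ∀ y, κ (y, 0) = 0) {O : Set ((V → E) × ℝ)} (hO : O ∈ 𝓝 (x, (0 : ℝ))) :
    ∃ (x' : V → E) (t : ℝ), t ≠ 0 ∧ (x', t) ∈ O ∧
      ∀ p : {p : V × V // S p.1 p.2}, ⟪x' p.1.1, x' p.1.2⟫_ℝ + κ (x', t) p = 0 := by
  -- the derivative of `κ`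
  obtain ⟨κ', hκ'⟩ : ∃ κ' : (V → E) × ℝ →L[ℝ] ({p : V × V // S p.1 p.2} → ℝ),
      HasStrictFDerivAt κ κ' (x, (0 : ℝ)) :=
    ⟨fderiv ℝ κ (x, 0), (hκ.contDiffAt (x := (x, (0 : ℝ)))).hasStrictFDerivAt (by norm_num)⟩
  have hκ'0 : ∀ h : V → E, κ' (h, 0) = 0 := by
    intro h
    have h1 : HasFDerivAt (fun y : V → E => κ (y, 0))
        (κ'.comp (ContinuousLinearMap.inl ℝ (V → E) ℝ)) x := by
      have h2 : HasFDerivAt (fun y : V → E => (y, (0 : ℝ)))
          (ContinuousLinearMap.inl ℝ (V → E) ℝ) x := by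
        have := (hasFDerivAt_id (𝕜 := ℝ) x).prodMk (hasFDerivAt_const (𝕜 := ℝ) (0 : ℝ) x)
        exact this
      exact HasFDerivAt.comp x hκ'.hasFDerivAt h2
    have h3 : HasFDerivAt (fun y : V → E => κ (y, 0))
        (0 : (V → E) →L[ℝ] ({p : V × V // S p.1 p.2} → ℝ)) x := by
      have h4 : (fun y : V → E => κ (y, 0)) = fun _ => 0 := funext hκ0
      rw [h4]
      exact hasFDerivAt_const _ _
    have h5 := h1.unique h3
    have h6 := congrArg (fun L => L h) h5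
    simpa using h6
  -- the full map
  have hphi : HasStrictFDerivAt (fun q : (V → E) × ℝ => phi S q.1)
      ((phi' S x).comp (ContinuousLinearMap.fst ℝ (V → E) ℝ)) (x, (0 : ℝ)) :=
    HasStrictFDerivAt.comp (x, (0 : ℝ)) (hasStrictFDerivAt_phi S x) hasStrictFDerivAt_fst
  have hF : HasStrictFDerivAt (fun q : (V → E) × ℝ => (phi S q.1 + κ q, q.2))
      ((((phi' S x).comp (ContinuousLinearMap.fst ℝ (V → E) ℝ)) + κ').prod
        (ContinuousLinearMap.snd ℝ (V → E) ℝ)) (x, (0 : ℝ)) :=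
    (hphi.add hκ').prodMk hasStrictFDerivAt_snd
  have hsurj : (((((phi' S x).comp (ContinuousLinearMap.fst ℝ (V → E) ℝ)) + κ').prod
        (ContinuousLinearMap.snd ℝ (V → E) ℝ))).range = ⊤ := by
    refine LinearMap.range_eq_top.2 ?_
    rintro ⟨y, τ⟩
    have h1 : (phi' S x).range = ⊤ := range_phi' hN
    obtain ⟨h, hh⟩ := LinearMap.range_eq_top.1 h1 (y - κ' (0, τ))
    refine ⟨(h, τ), ?_⟩
    have h2 : κ' (h, τ) = κ' (0, τ) := by
      have h3 : ((h, τ) : (V → E) × ℝ) = (h, 0) + (0, τ) := by simp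
      rw [h3, map_add, hκ'0, zero_add]
    have h4 : phi' S x h = y - κ' (0, τ) := hh
    show (phi' S x h + κ' (h, τ), τ) = (y, τ)
    rw [h2, h4, sub_add_cancel]
  have hmap := hF.map_nhds_eq_of_surj hsurj
  have hval : (fun q : (V → E) × ℝ => (phi S q.1 + κ q, q.2)) (x, (0 : ℝ)) =
      ((0 : {p : V × V // S p.1 p.2} → ℝ), (0 : ℝ)) := by
    show (phi S x + κ (x, 0), (0 : ℝ)) = (0, 0)
    rw [hκ0, add_zero]
    have h1 : phi S x = 0 := funext fun p => hx _ _ p.2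
    rw [h1]
  have himg : (fun q : (V → E) × ℝ => (phi S q.1 + κ q, q.2)) '' O ∈
      𝓝 ((0 : {p : V × V // S p.1 p.2} → ℝ), (0 : ℝ)) := by
    rw [← hval, ← hmap]
    exact Filter.image_mem_map hO
  have hcont : Filter.Tendsto (fun t : ℝ => ((0 : {p : V × V // S p.1 p.2} → ℝ), t)) (𝓝[≠] 0)
      (𝓝 ((0 : {p : V × V // S p.1 p.2} → ℝ), (0 : ℝ))) := by
    have h3 : Continuous (fun t : ℝ => ((0 : {p : V × V // S p.1 p.2} → ℝ), t)) := by fun_prop
    exact (h3.tendsto 0).mono_left nhdsWithin_le_nhds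
  have hev : ∀ᶠ t : ℝ in 𝓝[≠] 0, ((0 : {p : V × V // S p.1 p.2} → ℝ), t) ∈
      (fun q : (V → E) × ℝ => (phi S q.1 + κ q, q.2)) '' O := hcont himg
  obtain ⟨t, ht, ht0⟩ := (hev.and self_mem_nhdsWithin).exists
  obtain ⟨⟨x', t'⟩, hO', hq⟩ := ht
  have hq' : (phi S x' + κ (x', t'), t') = (0, t) := hq
  have h1 : t' = t := congrArg Prod.snd hq'
  have h2 : phi S x' + κ (x', t') = 0 := congrArg Prod.fst hq'
  subst h1
  exact ⟨x', t', ht0, hO', fun p => congrFun h2 p⟩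

end Pool.Agent.Lib.MP_23961f_co.K
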