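import Pool.Agent.Lib.MP_23961f_co.K.Near
import Pool.Agent.Lib.MP_23961f_co.K.LemmaL

/-!
Relations with loops. A loop at `v` means the equation `⟪u v, u v⟫ = 1`, and stresses may have
diagonal entries at loops.
-/

set_option autoImplicit false

open scoped InnerProductSpace Topology

namespace Pool.Agent.Lib.MP_23961f_co.K

open Pool.Agent.Lib.MP_23961f_co.AA

/-- orientation of a relation with loops -/
def oriL {V : Type*} (o : V → ℕ) (S : V → V → Prop) : V → V → Prop := fun v w => S v w ∧ o v ≤ o w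

section

variable {V : Type*} [Fintype V] {E : Type*} [NormedAddCommGroup E] [InnerProductSpace ℝ E]

open Classical in
/-- A stress-free configuration has linearly independent stress vectors (loops allowed). -/
theorem nsL_of [DecidableEq V] {o : V → ℕ} (ho : Function.Injective o) {S : V → V → Prop}
    (hS : ∀ v w, S v w → S w v) {u : V → E} (h : SFree S u) : NS (oriL o S) u := by
  refine Fintype.linearIndependent_iff.2 fun g hg p => ?_
  let g' : V → V → ℝ := fun v w => if h : oriL o S v w then g ⟨(v, w), h⟩ else 0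
  let X : V → V → ℝ := fun v w => g' v w + g' w v
  have hXs : ∀ v w, X v w = X w v := fun v w => add_comm _ _
  have hX0 : ∀ v w, ¬ S v w → X v w = 0 := by
    intro v w h1
    show (if h : oriL o S v w then g ⟨(v, w), h⟩ else 0) +
      (if h : oriL o S w v then g ⟨(w, v), h⟩ else 0) = 0
    rw [dif_neg (fun h2 => h1 h2.1), dif_neg (fun h2 => h1 (hS _ _ h2.1)), add_zero]
  have hsum : ∀ v, ∑ w, X v w • u w = 0 := by
    intro v
    have h1 : (∑ p : {p : V × V // oriL o S p.1 p.2}, g p • mv u p.1) v = 0 := by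
      rw [hg]
      rfl
    have h2 : (∑ p : {p : V × V // oriL o S p.1 p.2}, g p • mv u p.1) =
        ∑ a, ∑ b, g' a b • mv u (a, b) := by
      have h3 : (∑ p : {p : V × V // oriL o S p.1 p.2}, g p • mv u p.1) =
          ∑ p : {p : V × V // oriL o S p.1 p.2}, g' p.1.1 p.1.2 • mv u p.1 := by
        refine Finset.sum_congr rfl fun p _ => ?_
        congr 1
        show g p = if h : oriL o S p.1.1 p.1.2 then g ⟨(p.1.1, p.1.2), h⟩ else 0
        rw [dif_pos p.2]
      rw [h3, ← Finset.sum_subtype (Finset.univ.filter (fun p : V × V => oriL o S p.1 p.2))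
        (by simp) (fun p : V × V => g' p.1 p.2 • mv u p), Finset.sum_filter,
        Fintype.sum_prod_type]
      refine Finset.sum_congr rfl fun a _ => Finset.sum_congr rfl fun b _ => ?_
      by_cases hab : oriL o S a b
      · rw [if_pos hab]
      · rw [if_neg hab]
        have h4 : g' a b = 0 := dif_neg hab
        rw [h4, zero_smul]
    rw [h2, Finset.sum_apply] at h1
    have h5 : ∀ a, (∑ b, g' a b • mv u (a, b)) v =
        (if a = v then ∑ b, g' v b • u b else 0) + g' a v • u a := by
      intro a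
      rw [Finset.sum_apply]
      have h6 : ∀ b, (g' a b • mv u (a, b)) v =
          (if a = v then g' v b • u b else 0) + (if b = v then g' a v • u a else 0) := by
        intro b
        simp only [Pi.smul_apply, mv, Pi.add_apply, Pi.single_apply, smul_add]
        congr 1
        · by_cases ha : v = a
          · subst ha
            simp
          · have ha' : ¬ a = v := fun h => ha h.symm
            simp [ha, ha']
        · by_cases hb : v = b
          · subst hb
            simp
          · have hb' : ¬ b = v := fun h => hb h.symm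
            simp [hb, hb']
      rw [Finset.sum_congr rfl (fun b _ => h6 b), Finset.sum_add_distrib,
        Finset.sum_ite_eq' Finset.univ v, if_pos (Finset.mem_univ v)]
      congr 1
      by_cases ha : a = v
      · simp [ha]
      · simp [ha]
    rw [Finset.sum_congr rfl (fun a _ => h5 a), Finset.sum_add_distrib,
      Finset.sum_ite_eq' Finset.univ v, if_pos (Finset.mem_univ v),
      ← Finset.sum_add_distrib] at h1
    rw [← h1]
    refine Finset.sum_congr rfl fun w _ => ?_
    rw [← add_smul]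
  have hX := h X hXs hX0 hsum
  have hp := hX p.1.1 p.1.2
  have hg' : g' p.1.1 p.1.2 = g p := by
    show (if h : oriL o S p.1.1 p.1.2 then g ⟨(p.1.1, p.1.2), h⟩ else 0) = g p
    rw [dif_pos p.2]
  by_cases hd : p.1.1 = p.1.2
  · have h1 : X p.1.1 p.1.2 = g' p.1.1 p.1.2 + g' p.1.2 p.1.1 := rfl
    have h2 : g' p.1.2 p.1.1 = g' p.1.1 p.1.2 := by rw [hd]
    rw [h1, h2, hg'] at hp
    linarith
  · have h1 : X p.1.1 p.1.2 = g' p.1.1 p.1.2 + g' p.1.2 p.1.1 := rfl
    have h2 : g' p.1.2 p.1.1 = 0 := by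
      refine dif_neg fun h3 => hd ?_
      exact ho (le_antisymm p.2.2 h3.2)
    rw [h1, h2, hg', add_zero] at hp
    exact hp

end

open Classical in
theorem exists_near {V : Type*} [Fintype V] [DecidableEq V] {E : Type*}
    [NormedAddCommGroup E] [InnerProductSpace ℝ E] [FiniteDimensional ℝ E]
    {S : V → V → Prop} {x : V → E} (hN : NS S x)
    (κ : (V → E) × ℝ → ({p : V × V // S p.1 p.2} → ℝ)) (hκ : ContDiff ℝ 1 κ)
    (hκ0 : ∀ y, κ (y, 0) = 0) {O : Set ((V → E) × ℝ)} (hO : O ∈ 𝓝 (x, (0 : ℝ))) :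
    ∃ (x' : V → E) (t : ℝ), t ≠ 0 ∧ (x', t) ∈ O ∧
      ∀ p : {p : V × V // S p.1 p.2},
        ⟪x' p.1.1, x' p.1.2⟫_ℝ + κ (x', t) p = ⟪x p.1.1, x p.1.2⟫_ℝ := by
  -- the derivative of `κ`
  obtain ⟨κ', hκ'⟩ : ∃ κ' : (V → E) × ℝ →L[ℝ] ({p : V × V // S p.1 p.2} → ℝ),
      HasStrictFDerivAt κ κ' (x, (0 : ℝ)) :=
    ⟨fderiv ℝ κ (x, 0), (hκ.contDiffAt (x := (x, (0 : ℝ)))).hasStrictFDerivAt (by norm_num)⟩
  have hκ'0 : ∀ h : V → E, κ' (h, 0) = 0 := by
    intro h
    have h1 : HasFDerivAt (fun y : V → E => κ (y, 0))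
        (κ'.comp (ContinuousLinearMap.inl ℝ (V → E) ℝ)) x := by
      have h2 : HasFDerivAt (fun y : V → E => (y, (0 : ℝ)))
          (ContinuousLinearMap.inl ℝ (V → E) ℝ) x := by
        have := (hasFDerivAt_id (𝕜 := ℝ) x).prodMk (hasFDerivAt_const (𝕜 := ℝ) (0 : ℝ) x)
        exact this
      exact HasFDerivAt.comp x hκ'.hasFDerivAt h2
    have h3 : HasFDerivAt (fun y : V → E => κ (y, 0))
        (0 : (V → E) →L[ℝ] ({p : V × V // S p.1 p.2} → ℝ)) x := by
      have h4 : (fun y : V → E => κ (y, 0)) = fun _ => 0 := funext hκ0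
      rw [h4]
      exact hasFDerivAt_const _ _
    have h5 := h1.unique h3
    have h6 := congrArg (fun L => L h) h5
    simpa using h6
  -- the full map
  have hphi : HasStrictFDerivAt (fun q : (V → E) × ℝ => phi S q.1)
      ((phi' S x).comp (ContinuousLinearMap.fst ℝ (V → E) ℝ)) (x, (0 : ℝ)) :=
    HasStrictFDerivAt.comp (x, (0 : ℝ)) (hasStrictFDerivAt_phi S x) hasStrictFDerivAt_fst
  have hF : HasStrictFDerivAt (fun q : (V → E) × ℝ => (phi S q.1 + κ q, q.2))
      ((((phi' S x).comp (ContinuousLinearMap.fst ℝ (V → E) ℝ)) + κ').prod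
        (ContinuousLinearMap.snd ℝ (V → E) ℝ)) (x, (0 : ℝ)) :=
    (hphi.add hκ').prodMk hasStrictFDerivAt_snd
  have hsurj : (((((phi' S x).comp (ContinuousLinearMap.fst ℝ (V → E) ℝ)) + κ').prod
        (ContinuousLinearMap.snd ℝ (V → E) ℝ))).range = ⊤ := by
    refine LinearMap.range_eq_top.2 ?_
    rintro ⟨y, τ⟩
    have h1 : (phi' S x).range = ⊤ := range_phi' hN
    obtain ⟨h, hh⟩ := LinearMap.range_eq_top.1 h1 (y - κ' (0, τ))
    refine ⟨(h, τ), ?_⟩
    have h2 : κ' (h, τ) = κ' (0, τ) := by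
      have h3 : ((h, τ) : (V → E) × ℝ) = (h, 0) + (0, τ) := by simp
      rw [h3, map_add, hκ'0, zero_add]
    have h4 : phi' S x h = y - κ' (0, τ) := hh
    show (phi' S x h + κ' (h, τ), τ) = (y, τ)
    rw [h2, h4, sub_add_cancel]
  have hmap := hF.map_nhds_eq_of_surj hsurj
  have hval : (fun q : (V → E) × ℝ => (phi S q.1 + κ q, q.2)) (x, (0 : ℝ)) =
      (phi S x, (0 : ℝ)) := by
    show (phi S x + κ (x, 0), (0 : ℝ)) = (phi S x, 0)
    rw [hκ0, add_zero]
  have himg : (fun q : (V → E) × ℝ => (phi S q.1 + κ q, q.2)) '' O ∈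
      𝓝 (phi S x, (0 : ℝ)) := by
    rw [← hval, ← hmap]
    exact Filter.image_mem_map hO
  have hcont : Filter.Tendsto (fun t : ℝ => (phi S x, t)) (𝓝[≠] 0)
      (𝓝 (phi S x, (0 : ℝ))) := by
    have h3 : Continuous (fun t : ℝ => (phi S x, t)) := by fun_prop
    exact (h3.tendsto 0).mono_left nhdsWithin_le_nhds
  have hev : ∀ᶠ t : ℝ in 𝓝[≠] 0, (phi S x, t) ∈
      (fun q : (V → E) × ℝ => (phi S q.1 + κ q, q.2)) '' O := hcont himg
  obtain ⟨t, ht, ht0⟩ := (hev.and self_mem_nhdsWithin).exists
  obtain ⟨⟨x', t'⟩, hO', hq⟩ := ht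
  have hq' : (phi S x' + κ (x', t'), t') = (phi S x, t) := hq
  have h1 : t' = t := congrArg Prod.snd hq'
  have h2 : phi S x' + κ (x', t') = phi S x := congrArg Prod.fst hq'
  subst h1
  exact ⟨x', t', ht0, hO', fun p => congrFun h2 p⟩

/-- A relation with loops has a configuration in dimension `d`: orthogonal along the pairs, unit
vectors at the loops, without stress. -/
def RepL {V : Type*} [Fintype V] (A : V → V → Prop) (d : ℕ) : Prop :=
  ∃ u : V → EuclideanSpace ℝ (Fin d), (∀ v w, v ≠ w → A v w → ⟪u v, u w⟫_ℝ = 0) ∧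
    (∀ v, A v v → ⟪u v, u v⟫_ℝ = 1) ∧ SFree A u

theorem RepL.mono {V : Type*} [Fintype V] {A B : V → V → Prop} {d : ℕ} (h : RepL B d)
    (hAB : ∀ v w, A v w → B v w) : RepL A d := by
  obtain ⟨u, h1, h2, h3⟩ := h
  exact ⟨u, fun v w hvw hA => h1 v w hvw (hAB _ _ hA), fun v hv => h2 v (hAB _ _ hv),
    h3.mono hAB⟩

theorem RepL.rep {V : Type*} [Fintype V] {A : V → V → Prop} {d : ℕ} (h : RepL A d)
    (hA : ∀ v, ¬ A v v) : Rep A d := by
  obtain ⟨u, h1, _, h3⟩ := h
  refine ⟨u, fun v w hvw => h1 v w ?_ hvw, h3⟩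
  rintro rfl
  exact hA _ hvw

open Classical in
/-- No unit of `A` inside `P`: a configuration in dimension `n - |P|`. -/
theorem repL_of_indep {V : Type*} [Fintype V] {A : V → V → Prop}
    (P : Finset V) (hP : ∀ v ∈ P, ∀ w ∈ P, ¬ A v w) :
    RepL A (Fintype.card V - P.card) := by
  have hc : Fintype.card {v : V // v ∉ P} = Fintype.card V - P.card := by
    rw [Fintype.card_subtype_compl]
    simp
  let e : {v : V // v ∉ P} ≃ Fin (Fintype.card V - P.card) :=
    Fintype.equivFinOfCardEq hc
  let u : V → EuclideanSpace ℝ (Fin (Fintype.card V - P.card)) := fun v =>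
    if h : v ∉ P then EuclideanSpace.single (e ⟨v, h⟩) 1 else 0
  have hu0 : ∀ v, v ∈ P → u v = 0 := fun v hv => dif_neg (not_not.2 hv)
  have hu1 : ∀ v (h : v ∉ P), u v = EuclideanSpace.single (e ⟨v, h⟩) 1 := fun v h => dif_pos h
  refine ⟨u, ?_, ?_, ?_⟩
  · intro v w hvw _
    by_cases hv : v ∈ P
    · rw [hu0 v hv, inner_zero_left]
    · by_cases hw : w ∈ P
      · rw [hu0 w hw, inner_zero_right]
      · rw [hu1 v hv, hu1 w hw]
        have hne : e ⟨v, hv⟩ ≠ e ⟨w, hw⟩ := by
          intro h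
          exact hvw (congrArg Subtype.val (e.injective h))
        rw [EuclideanSpace.inner_single_left, EuclideanSpace.single_apply, if_neg hne]
        simp
  · intro v hv
    have hvP : v ∉ P := fun h => hP v h v h hv
    rw [hu1 v hvP, EuclideanSpace.inner_single_left, EuclideanSpace.single_apply, if_pos rfl]
    simp
  · intro X hXs hX0 hs
    have key : ∀ v w, w ∉ P → X v w = 0 := by
      intro v w hw
      have h1 := congrArg (fun f : EuclideanSpace ℝ (Fin (Fintype.card V - P.card)) =>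
        ⟪EuclideanSpace.single (e ⟨w, hw⟩) (1 : ℝ), f⟫_ℝ) (hs v)
      simp only [inner_zero_right, inner_sum, inner_smul_right] at h1
      rw [Finset.sum_eq_single w] at h1
      · rw [hu1 w hw, EuclideanSpace.inner_single_left, EuclideanSpace.single_apply,
          if_pos rfl] at h1
        simpa using h1
      · intro b _ hb
        by_cases hbP : b ∈ P
        · rw [hu0 b hbP, inner_zero_right, mul_zero]
        · have hne : e ⟨w, hw⟩ ≠ e ⟨b, hbP⟩ := by
            intro h
            exact hb (congrArg Subtype.val (e.injective h)).symm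
          rw [hu1 b hbP, EuclideanSpace.inner_single_left, EuclideanSpace.single_apply,
            if_neg hne]
          simp
      · intro h
        exact absurd (Finset.mem_univ _) h
    intro v w
    by_cases hw : w ∈ P
    · by_cases hv : v ∈ P
      · exact hX0 v w (hP v hv w hw)
      · rw [hXs]
        exact key w v hv
    · exact key v w hw

end Pool.Agent.Lib.MP_23961f_co.K
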