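import Pool.Agent.Lib.MP_23961f_co.K.Near

/-!
One round. `K` is independent for `A`; every `w` with `W w` gives up the pair `{w, f w}`, where
`f w` is its neighbour in `K` of least rank. If the remaining relation has an orthogonal
configuration without stress in dimension `d`, then `A` has one in dimension `d + 1`.
-/

set_option autoImplicit false

open scoped InnerProductSpace Topology

namespace Pool.Agent.Lib.MP_23961f_co.K

open Pool.Agent.Lib.MP_23961f_co.AA

/-- the remaining relation -/
def rest {V : Type*} (A : V → V → Prop) (W : V → Prop) (f : V → V) : V → V → Prop :=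
  fun v w => A v w ∧ ¬ (W v ∧ f v = w) ∧ ¬ (W w ∧ f w = v)

section

variable {V : Type*} [Fintype V] {E : Type*} [NormedAddCommGroup E] [InnerProductSpace ℝ E]

open Classical in
/-- the coefficients -/
noncomputable def gam (K W : V → Prop) (f : V → V) (rk e : V → ℕ) (a b : V)
    (q : (V → E) × ℝ) : ℝ :=
  if W a then
    if K b then
      if rk (f a) < rk b then q.2 ^ (rk b - rk (f a)) else 0
    else if W b then - ⟪q.1 (f b), q.1 b⟫_ℝ * q.2 ^ (e (f b) + e (f a)) else 0
  else 0

theorem gam_zero (K W : V → Prop) (f : V → V) (rk e : V → ℕ) (he : ∀ v, e v ≠ 0) (a b : V)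
    (y : V → E) : gam K W f rk e a b (y, 0) = 0 := by
  unfold gam
  split_ifs with h1 h2 h3 h4
  · show (0 : ℝ) ^ _ = 0
    exact zero_pow (by omega)
  · rfl
  · show _ * (0 : ℝ) ^ _ = 0
    rw [zero_pow (by have := he (f b); omega), mul_zero]
  · rfl
  · rfl

theorem contDiff_gam (K W : V → Prop) (f : V → V) (rk e : V → ℕ) (a b : V) :
    ContDiff ℝ 1 (gam (E := E) K W f rk e a b) := by
  have h1 : ContDiff ℝ 1 (fun q : (V → E) × ℝ => ⟪q.1 (f b), q.1 b⟫_ℝ) := by
    refine ContDiff.inner ℝ ?_ ?_
    · exact (contDiff_apply ℝ E (f b)).comp contDiff_fst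
    · exact (contDiff_apply ℝ E b).comp contDiff_fst
  unfold gam
  split_ifs with h2 h3 h4 h5
  · exact contDiff_snd.pow _
  · exact contDiff_const
  · exact h1.neg.mul (contDiff_snd.pow _)
  · exact contDiff_const
  · exact contDiff_const

open Classical in
/-- the perturbation of the equations -/
noncomputable def kap (K W : V → Prop) (f : V → V) (rk e : V → ℕ) (a b : V)
    (q : (V → E) × ℝ) : ℝ :=
  if W b then - gam K W f rk e b a q * ⟪q.1 (f b), q.1 b⟫_ℝ
  else if W a then - gam K W f rk e a b q * ⟪q.1 (f a), q.1 a⟫_ℝ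
  else 0

theorem kap_zero (K W : V → Prop) (f : V → V) (rk e : V → ℕ) (he : ∀ v, e v ≠ 0) (a b : V)
    (y : V → E) : kap K W f rk e a b (y, 0) = 0 := by
  unfold kap
  split_ifs with h1 h2
  · rw [gam_zero K W f rk e he]
    ring
  · rw [gam_zero K W f rk e he]
    ring
  · rfl

theorem contDiff_kap (K W : V → Prop) (f : V → V) (rk e : V → ℕ) (a b : V) :
    ContDiff ℝ 1 (kap (E := E) K W f rk e a b) := by
  have h1 : ∀ b : V, ContDiff ℝ 1 (fun q : (V → E) × ℝ => ⟪q.1 (f b), q.1 b⟫_ℝ) := by
    intro b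
    refine ContDiff.inner ℝ ?_ ?_
    · exact (contDiff_apply ℝ E (f b)).comp contDiff_fst
    · exact (contDiff_apply ℝ E b).comp contDiff_fst
  unfold kap
  split_ifs with h2 h3
  · exact (contDiff_gam K W f rk e b a).neg.mul (h1 b)
  · exact (contDiff_gam K W f rk e a b).neg.mul (h1 a)
  · exact contDiff_const

open Classical in
/-- the last coordinates -/
noncomputable def cc (K W : V → Prop) (f : V → V) (e : V → ℕ) (x : V → E) (t : ℝ) (b : V) : ℝ :=
  if K b then (t ^ e b)⁻¹ else if W b then - ⟪x (f b), x b⟫_ℝ * t ^ e (f b) else 0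

open Classical in
/-- the modified stress map -/
noncomputable def TT (K W : V → Prop) (f : V → V) (rk e : V → ℕ) (q : (V → E) × ℝ)
    (Y : V → V → ℝ) (v : V) : E :=
  ∑ w, Y v w • q.1 w -
    ((if W v then (∑ b, Y v b * gam K W f rk e v b q) • q.1 (f v) else 0) +
      ∑ a, if W a ∧ f a = v then (∑ b, Y a b * gam K W f rk e a b q) • q.1 a else 0)

theorem continuous_TT (K W : V → Prop) (f : V → V) (rk e : V → ℕ) (v : V) :
    Continuous (fun z : ((V → E) × ℝ) × (V → V → ℝ) => TT K W f rk e z.1 z.2 v) := by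
  have hY : ∀ a b : V, Continuous (fun z : ((V → E) × ℝ) × (V → V → ℝ) => z.2 a b) := by
    intro a b
    fun_prop
  have hx : ∀ a : V, Continuous (fun z : ((V → E) × ℝ) × (V → V → ℝ) => z.1.1 a) := by
    intro a
    fun_prop
  have hg : ∀ a b : V, Continuous (fun z : ((V → E) × ℝ) × (V → V → ℝ) =>
      gam K W f rk e a b z.1) := fun a b =>
    (contDiff_gam (E := E) K W f rk e a b).continuous.comp continuous_fst
  have hZ : ∀ a : V, Continuous (fun z : ((V → E) × ℝ) × (V → V → ℝ) =>
      ∑ b, z.2 a b * gam K W f rk e a b z.1) := fun a =>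
    continuous_finsetSum _ fun b _ => (hY a b).mul (hg a b)
  unfold TT
  refine Continuous.sub ?_ (Continuous.add ?_ ?_)
  · exact continuous_finsetSum _ fun w _ => (hY v w).smul (hx w)
  · split_ifs
    · exact (hZ v).smul (hx (f v))
    · exact continuous_const
  · refine continuous_finsetSum _ fun a _ => ?_
    split_ifs
    · exact (hZ a).smul (hx a)
    · exact continuous_const

theorem TT_smul (K W : V → Prop) (f : V → V) (rk e : V → ℕ) (q : (V → E) × ℝ)
    (Y : V → V → ℝ) (r : ℝ) (v : V) :
    TT K W f rk e q (fun a b => r * Y a b) v = r • TT K W f rk e q Y v := by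
  classical
  have hZ : ∀ a : V, ∑ b, (r * Y a b) * gam K W f rk e a b q =
      r * ∑ b, Y a b * gam K W f rk e a b q := by
    intro a
    rw [Finset.mul_sum]
    exact Finset.sum_congr rfl fun b _ => by ring
  unfold TT
  rw [smul_sub, smul_add, Finset.smul_sum, Finset.smul_sum]
  congr 1
  · exact Finset.sum_congr rfl fun w _ => by rw [mul_smul]
  congr 1
  · split_ifs
    · rw [hZ, mul_smul]
    · rw [smul_zero]
  · refine Finset.sum_congr rfl fun a _ => ?_
    split_ifs
    · rw [hZ, mul_smul]
    · rw [smul_zero]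

end

end Pool.Agent.Lib.MP_23961f_co.K
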