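import Pool.Agent.Lib.MP_23961f_co.K.Round

/-!
The round lemma: `Rep (rest A W f) d → Rep A (d + 1)`.
-/

set_option autoImplicit false

open scoped InnerProductSpace Topology

namespace Pool.Agent.Lib.MP_23961f_co.K

open Pool.Agent.Lib.MP_23961f_co.AA

/-- the data of a round -/
structure RoundData {V : Type*} (A : V → V → Prop) (K W : V → Prop) (f : V → V)
    (rk : V → ℕ) : Prop where
  indep : ∀ a b, K a → K b → ¬ A a b
  mem : ∀ w, W w → K (f w)
  adj : ∀ w, W w → A w (f w)
  first : ∀ w, W w → ∀ k, K k → A w k → k ≠ f w → rk (f w) < rk k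

section

variable {V : Type*} [Fintype V] {E : Type*} [NormedAddCommGroup E] [InnerProductSpace ℝ E]
  {A : V → V → Prop} {K W : V → Prop} {f : V → V} {rk e : V → ℕ} {m : ℕ}

theorem RoundData.notK (hR : RoundData A K W f rk) {w : V} (hw : W w) : ¬ K w :=
  fun h => hR.indep w (f w) h (hR.mem w hw) (hR.adj w hw)

theorem cc_mul (hR : RoundData A K W f rk) (hm : ∀ v, rk v < m) (he : ∀ v, e v = m - rk v)
    {a b : V} (hab : A a b) (ha : W a) (hb : b ≠ f a) {t : ℝ} (ht : t ≠ 0) (x : V → E) :
    cc K W f e x t b * t ^ e (f a) = gam K W f rk e a b (x, t) := by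
  unfold cc gam
  rw [if_pos ha]
  by_cases hK : K b
  · have h1 := hR.first a ha b hK hab hb
    rw [if_pos hK, if_pos hK, if_pos h1]
    have h2 : e (f a) = e b + (rk b - rk (f a)) := by
      rw [he, he]
      have := hm b
      omega
    rw [h2, pow_add, ← mul_assoc, inv_mul_cancel₀ (pow_ne_zero _ ht), one_mul]
  · rw [if_neg hK, if_neg hK]
    by_cases hW : W b
    · rw [if_pos hW, if_pos hW, pow_add]
      ring
    · rw [if_neg hW, if_neg hW, zero_mul]

theorem cc_mul_cc (hAs : ∀ v w, A v w → A w v) (hR : RoundData A K W f rk)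
    (hm : ∀ v, rk v < m) (he : ∀ v, e v = m - rk v)
    {a b : V} (hab : rest A W f a b) {t : ℝ} (ht : t ≠ 0) (x : V → E) :
    cc K W f e x t a * cc K W f e x t b = kap K W f rk e a b (x, t) := by
  obtain ⟨h1, h2, h3⟩ := hab
  unfold kap
  by_cases hWb : W b
  · rw [if_pos hWb]
    have hKb := hR.notK hWb
    have h4 : cc K W f e x t b = - ⟪x (f b), x b⟫_ℝ * t ^ e (f b) := by
      unfold cc
      rw [if_neg hKb, if_pos hWb]
    have h5 := cc_mul hR hm he (hAs _ _ h1) hWb (fun h => h3 ⟨hWb, h.symm⟩) ht x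
    rw [← h5, h4]
    ring
  · rw [if_neg hWb]
    by_cases hWa : W a
    · rw [if_pos hWa]
      have hKa := hR.notK hWa
      have h4 : cc K W f e x t a = - ⟪x (f a), x a⟫_ℝ * t ^ e (f a) := by
        unfold cc
        rw [if_neg hKa, if_pos hWa]
      have h5 := cc_mul hR hm he h1 hWa (fun h => h2 ⟨hWa, h.symm⟩) ht x
      rw [← h5, h4]
      ring
    · rw [if_neg hWa]
      by_cases hKa : K a
      · have hKb : ¬ K b := fun h => hR.indep a b hKa h h1
        have h4 : cc K W f e x t b = 0 := by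
          unfold cc
          rw [if_neg hKb, if_neg hWb]
        rw [h4, mul_zero]
      · have h4 : cc K W f e x t a = 0 := by
          unfold cc
          rw [if_neg hKa, if_neg hWa]
        rw [h4, zero_mul]

theorem cc_first (hR : RoundData A K W f rk) {w : V} (hw : W w) {t : ℝ} (ht : t ≠ 0)
    (x : V → E) : ⟪x w, x (f w)⟫_ℝ + cc K W f e x t w * cc K W f e x t (f w) = 0 := by
  have h1 : cc K W f e x t w = - ⟪x (f w), x w⟫_ℝ * t ^ e (f w) := by
    unfold cc
    rw [if_neg (hR.notK hw), if_pos hw]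
  have h2 : cc K W f e x t (f w) = (t ^ e (f w))⁻¹ := by
    unfold cc
    rw [if_pos (hR.mem w hw)]
  rw [h1, h2, real_inner_comm]
  have h3 := pow_ne_zero (e (f w)) ht
  field_simp
  ring

open Classical in
/-- The stress part of the round lemma. -/
theorem stress_zero (hAs : ∀ v w, A v w → A w v) (hAi : ∀ v, ¬ A v v)
    (hR : RoundData A K W f rk)
    (hm : ∀ v, rk v < m) (he : ∀ v, e v = m - rk v) {t : ℝ} (ht : t ≠ 0) (x : V → E)
    (hT : ∀ Y : V → V → ℝ, (∀ v w, Y v w = Y w v) → (∀ v w, ¬ rest A W f v w → Y v w = 0) →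
      (∀ v, TT K W f rk e (x, t) Y v = 0) → ∀ v w, Y v w = 0)
    (X : V → V → ℝ) (h1 : ∀ v w, X v w = X w v) (h2 : ∀ v w, ¬ A v w → X v w = 0)
    (h3 : ∀ v, ∑ w, X v w • x w = 0) (h4 : ∀ v, ∑ w, X v w * cc K W f e x t w = 0) :
    ∀ v w, X v w = 0 := by
  set Y : V → V → ℝ := fun v w => if rest A W f v w then X v w else 0 with hY
  have hrs : ∀ v w, rest A W f v w → rest A W f w v :=
    fun v w h => ⟨hAs _ _ h.1, h.2.2, h.2.1⟩
  have hYs : ∀ v w, Y v w = Y w v := by
    intro v w
    simp only [hY]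
    by_cases h : rest A W f v w
    · rw [if_pos h, if_pos (hrs _ _ h), h1]
    · rw [if_neg h, if_neg (fun h' => h (hrs _ _ h'))]
  -- the decomposition of `X`
  have hdec : ∀ v w, X v w = Y v w + ((if W v ∧ f v = w then X v w else 0) +
      (if W w ∧ f w = v then X v w else 0)) := by
    intro v w
    simp only [hY]
    by_cases hA : A v w
    · by_cases h5 : W v ∧ f v = w
      · have h6 : ¬ (W w ∧ f w = v) := by
          rintro ⟨h7, h8⟩
          have h9 := hR.mem v h5.1
          rw [h5.2] at h9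
          exact hR.notK h7 h9
        have h10 : ¬ rest A W f v w := fun h => h.2.1 h5
        rw [if_neg h10, if_pos h5, if_neg h6]
        ring
      · by_cases h6 : W w ∧ f w = v
        · have h10 : ¬ rest A W f v w := fun h => h.2.2 h6
          rw [if_neg h10, if_neg h5, if_pos h6]
          ring
        · have h10 : rest A W f v w := ⟨hA, h5, h6⟩
          rw [if_pos h10, if_neg h5, if_neg h6]
          ring
    · have h10 : ¬ rest A W f v w := fun h => hA h.1
      rw [if_neg h10, h2 v w hA]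
      simp
  -- the freed pairs
  have hZ : ∀ a, W a → ∑ b, Y a b * gam K W f rk e a b (x, t) = - X a (f a) := by
    intro a ha
    have h5 : ∑ b, X a b * (cc K W f e x t b * t ^ e (f a)) = 0 := by
      have h6 : ∀ b, X a b * (cc K W f e x t b * t ^ e (f a)) =
          (X a b * cc K W f e x t b) * t ^ e (f a) := fun b => by ring
      rw [Finset.sum_congr rfl fun b _ => h6 b, ← Finset.sum_mul, h4, zero_mul]
    have h7 : cc K W f e x t (f a) * t ^ e (f a) = 1 := by
      unfold cc
      rw [if_pos (hR.mem a ha)]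
      exact inv_mul_cancel₀ (pow_ne_zero _ ht)
    have h8 : ∀ b, X a b * (cc K W f e x t b * t ^ e (f a)) =
        Y a b * gam K W f rk e a b (x, t) + (if b = f a then X a (f a) else 0) := by
      intro b
      by_cases hb : b = f a
      · subst hb
        have h9 : Y a (f a) = 0 := by
          simp only [hY]
          rw [if_neg (fun h => h.2.1 ⟨ha, rfl⟩)]
        rw [if_pos rfl, h7, h9]
        ring
      · rw [if_neg hb, add_zero]
        by_cases hA : A a b
        · have h9 : Y a b = X a b := by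
            simp only [hY]
            refine if_pos ⟨hA, fun h => hb h.2.symm, ?_⟩
            rintro ⟨h10, h11⟩
            have h12 := hR.mem b h10
            rw [h11] at h12
            exact hR.notK ha h12
          rw [h9, cc_mul hR hm he hA ha hb ht x]
        · have h9 : Y a b = 0 := by
            simp only [hY]
            exact if_neg (fun h => hA h.1)
          rw [h2 a b hA, h9, zero_mul, zero_mul]
    rw [Finset.sum_congr rfl fun b _ => h8 b, Finset.sum_add_distrib,
      Finset.sum_ite_eq' Finset.univ (f a), if_pos (Finset.mem_univ _)] at h5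
    linarith
  have hYT : ∀ v, TT K W f rk e (x, t) Y v = 0 := by
    intro v
    unfold TT
    have h5 : (if W v then (∑ b, Y v b * gam K W f rk e v b (x, t)) • (x (f v)) else 0) =
        - ∑ w, (if W v ∧ f v = w then X v w else 0) • x w := by
      by_cases hv : W v
      · rw [if_pos hv, hZ v hv, Finset.sum_eq_single (f v)]
        · rw [if_pos ⟨hv, rfl⟩, neg_smul]
        · intro w _ hw
          rw [if_neg (fun h => hw h.2.symm), zero_smul]
        · intro h
          exact absurd (Finset.mem_univ _) h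
      · rw [if_neg hv, Finset.sum_eq_zero, neg_zero]
        intro w _
        rw [if_neg (fun h => hv h.1), zero_smul]
    have h6 : (∑ a, if W a ∧ f a = v then
        (∑ b, Y a b * gam K W f rk e a b (x, t)) • (x a) else 0) =
        - ∑ w, (if W w ∧ f w = v then X v w else 0) • x w := by
      rw [← Finset.sum_neg_distrib]
      refine Finset.sum_congr rfl fun a _ => ?_
      by_cases ha : W a ∧ f a = v
      · rw [if_pos ha, if_pos ha, hZ a ha.1, ha.2, neg_smul, h1 a v]
      · rw [if_neg ha, if_neg ha, zero_smul, neg_zero]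
    show ∑ w, Y v w • x w - _ = 0
    rw [h5, h6, ← neg_add, sub_neg_eq_add, ← Finset.sum_add_distrib, ← Finset.sum_add_distrib]
    rw [← h3 v]
    refine Finset.sum_congr rfl fun w _ => ?_
    rw [← add_smul, ← add_smul, ← hdec v w]
  have hY0 := hT Y hYs (fun v w h => by
    simp only [hY]
    exact if_neg h) hYT
  have hX0 : ∀ a, W a → X a (f a) = 0 := by
    intro a ha
    have h5 := hZ a ha
    rw [Finset.sum_eq_zero (fun b _ => by rw [hY0, zero_mul])] at h5
    linarith
  intro v w
  rw [hdec v w, hY0, zero_add]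
  by_cases h5 : W v ∧ f v = w
  · by_cases h6 : W w ∧ f w = v
    · rw [if_pos h5, if_pos h6, ← h5.2, hX0 v h5.1, add_zero]
    · rw [if_pos h5, if_neg h6, ← h5.2, hX0 v h5.1, add_zero]
  · by_cases h6 : W w ∧ f w = v
    · rw [if_neg h5, if_pos h6, h1 v w, ← h6.2, hX0 w h6.1, add_zero]
    · rw [if_neg h5, if_neg h6, add_zero]

end

open Classical in
/-- The round lemma. -/
theorem rep_round {V : Type*} [Fintype V] {A : V → V → Prop} {K W : V → Prop} {f : V → V}
    {rk : V → ℕ} (hAs : ∀ v w, A v w → A w v) (hAi : ∀ v, ¬ A v v)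
    (hR : RoundData A K W f rk) {d : ℕ} (h : Rep (rest A W f) d) : Rep A (d + 1) := by
  obtain ⟨x, hx0, hxF⟩ := h
  obtain ⟨m, hm⟩ : ∃ m, ∀ v, rk v < m :=
    ⟨Finset.univ.sup rk + 1, fun v => Nat.lt_succ_of_le (Finset.le_sup (Finset.mem_univ v))⟩
  obtain ⟨e, he⟩ : ∃ e : V → ℕ, ∀ v, e v = m - rk v := ⟨fun v => m - rk v, fun _ => rfl⟩
  have he0 : ∀ v, e v ≠ 0 := by
    intro v
    rw [he]
    have := hm v
    omega
  let o : V → ℕ := fun v => (Fintype.equivFin V v : ℕ)
  have ho : Function.Injective o := by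
    intro v w hvw
    exact (Fintype.equivFin V).injective (Fin.ext hvw)
  have hrs : ∀ v w, rest A W f v w → rest A W f w v :=
    fun v w h => ⟨hAs _ _ h.1, h.2.2, h.2.1⟩
  have hri : ∀ v, ¬ rest A W f v v := fun v h => hAi v h.1
  -- the compact set of unit relations
  let C : Set (V → V → ℝ) := {Y | (∀ v w, Y v w = Y w v) ∧
    (∀ v w, ¬ rest A W f v w → Y v w = 0)} ∩ Metric.sphere 0 1
  have hC : IsCompact C := by
    refine (isCompact_sphere _ _).inter_left ?_
    have h1 : {Y : V → V → ℝ | (∀ v w, Y v w = Y w v) ∧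
        (∀ v w, ¬ rest A W f v w → Y v w = 0)} =
        (⋂ v, ⋂ w, {Y | Y v w = Y w v}) ∩ ⋂ v, ⋂ w, {Y | ¬ rest A W f v w → Y v w = 0} := by
      ext Y
      simp only [Set.mem_setOf_eq, Set.mem_inter_iff, Set.mem_iInter]
    rw [h1]
    refine IsClosed.inter (isClosed_iInter fun v => isClosed_iInter fun w =>
      isClosed_eq (by fun_prop) (by fun_prop)) (isClosed_iInter fun v => isClosed_iInter fun w => ?_)
    by_cases h2 : rest A W f v w
    · have h3 : {Y : V → V → ℝ | ¬ rest A W f v w → Y v w = 0} = Set.univ :=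
        Set.eq_univ_of_forall fun Y h4 => absurd h2 h4
      rw [h3]
      exact isClosed_univ
    · have h3 : {Y : V → V → ℝ | ¬ rest A W f v w → Y v w = 0} = {Y | Y v w = 0} := by
        ext Y
        exact ⟨fun h4 => h4 h2, fun h4 _ => h4⟩
      rw [h3]
      exact isClosed_eq (by fun_prop) (by fun_prop)
  have hev : ∀ᶠ q in 𝓝 (x, (0 : ℝ)), ∀ Y ∈ C, (fun v => TT K W f rk e q Y v) ≠ 0 := by
    refine hC.eventually_forall_of_forall_eventually fun Y hY => ?_
    have hcont : Continuous (fun z : ((V → EuclideanSpace ℝ (Fin d)) × ℝ) × (V → V → ℝ) =>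
        (fun v => TT K W f rk e z.1 z.2 v)) :=
      continuous_pi fun v => continuous_TT K W f rk e v
    have hne : (fun v => TT K W f rk e (x, (0 : ℝ)) Y v) ≠ 0 := by
      intro h0
      have h1 : ∀ v, ∑ w, Y v w • x w = 0 := by
        intro v
        have h2 : TT K W f rk e (x, (0 : ℝ)) Y v = 0 := congrFun h0 v
        unfold TT at h2
        have h3 : ∀ a, ∑ b, Y a b * gam K W f rk e a b (x, (0 : ℝ)) = 0 := fun a =>
          Finset.sum_eq_zero fun b _ => by rw [gam_zero K W f rk e he0, mul_zero]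
        simp only [h3, zero_smul, ite_self, Finset.sum_const_zero, add_zero, sub_zero] at h2
        exact h2
      have h4 := hxF Y hY.1.1 hY.1.2 h1
      have h5 : Y = 0 := funext fun v => funext fun w => h4 v w
      have h6 := hY.2
      rw [h5] at h6
      simp at h6
    exact hcont.continuousAt.eventually_ne hne
  obtain ⟨x', t, ht, hmem, heq⟩ := exists_zero_near (S := ori o (rest A W f)) (x := x)
    (fun v w hvw => hx0 v w hvw.1) ((sFree_iff ho hrs hri x).1 hxF)
    (fun q p => kap K W f rk e p.1.1 p.1.2 q)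
    (contDiff_pi.2 fun p => contDiff_kap K W f rk e _ _)
    (fun y => funext fun p => kap_zero K W f rk e he0 _ _ y) hev
  -- the stress map is injective at `(x', t)`
  have hT : ∀ Y : V → V → ℝ, (∀ v w, Y v w = Y w v) →
      (∀ v w, ¬ rest A W f v w → Y v w = 0) →
      (∀ v, TT K W f rk e (x', t) Y v = 0) → ∀ v w, Y v w = 0 := by
    intro Y h1 h2 h3
    by_contra hne
    have hY0 : Y ≠ 0 := by
      intro h
      apply hne
      intro v w
      rw [h]
      rfl
    have hn : ‖Y‖ ≠ 0 := norm_ne_zero_iff.2 hY0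
    refine hmem (fun a b => ‖Y‖⁻¹ * Y a b) ⟨⟨fun v w => ?_, fun v w h => ?_⟩, ?_⟩ ?_
    · show ‖Y‖⁻¹ * Y v w = ‖Y‖⁻¹ * Y w v
      rw [h1]
    · show ‖Y‖⁻¹ * Y v w = 0
      rw [h2 v w h, mul_zero]
    · have h4 : (fun a b => ‖Y‖⁻¹ * Y a b) = ‖Y‖⁻¹ • Y := rfl
      rw [h4, mem_sphere_zero_iff_norm, norm_smul, norm_inv, norm_norm]
      exact inv_mul_cancel₀ hn
    · funext v
      rw [TT_smul, h3 v, smul_zero]
      rfl
  have horth : ∀ v w, A v w →
      ⟪pr x' (cc K W f e x' t) v, pr x' (cc K W f e x' t) w⟫_ℝ = 0 := by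
    have h1 : ∀ v w, ori o (rest A W f) v w →
        ⟪x' v, x' w⟫_ℝ + cc K W f e x' t v * cc K W f e x' t w = 0 := by
      intro v w hvw
      rw [cc_mul_cc hAs hR hm he hvw.1 ht]
      exact heq ⟨(v, w), hvw⟩
    have h2 : ∀ v w, rest A W f v w →
        ⟪x' v, x' w⟫_ℝ + cc K W f e x' t v * cc K W f e x' t w = 0 := by
      intro v w hvw
      rcases lt_trichotomy (o v) (o w) with h3 | h3 | h3
      · exact h1 v w ⟨hvw, h3⟩
      · rw [ho h3] at hvw
        exact absurd hvw (hri _)
      · rw [real_inner_comm, mul_comm]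
        exact h1 w v ⟨hrs _ _ hvw, h3⟩
    intro v w hvw
    rw [inner_pr]
    by_cases h3 : W v ∧ f v = w
    · rw [← h3.2]
      exact cc_first hR h3.1 ht x'
    · by_cases h4 : W w ∧ f w = v
      · rw [real_inner_comm, mul_comm, ← h4.2]
        exact cc_first hR h4.1 ht x'
      · exact h2 v w ⟨hvw, h3, h4⟩
  refine rep_of (E := WithLp 2 (EuclideanSpace ℝ (Fin d) × ℝ)) (by rw [finrank_pr]; simp)
    (u := pr x' (cc K W f e x' t)) horth ?_
  intro X h1 h2 h3
  exact stress_zero hAs hAi hR hm he ht x' hT X h1 h2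
    (fun v => ((sum_pr_eq_zero_iff x' _ (X v)).1 (h3 v)).1)
    (fun v => ((sum_pr_eq_zero_iff x' _ (X v)).1 (h3 v)).2)

end Pool.Agent.Lib.MP_23961f_co.K
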