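import Pool.Agent.Lib.MP_23961f_co.K.MergeMain

/-!
The shift lemma. `y, y'` are non-adjacent and without loops for `A`; in `ks A y y'` the vertex `y`
has the union of the neighbourhoods and `y'` the intersection. Then
`RepL (ks A y y') d → RepL A d` (`x y := P + t Q`, `x y' := - P + t Q` and a small correction).
-/

set_option autoImplicit false

open scoped InnerProductSpace Topology

namespace Pool.Agent.Lib.MP_23961f_co.K

open Pool.Agent.Lib.MP_23961f_co.AA

/-- the shifted relation -/
def ks {V : Type*} (A : V → V → Prop) (y y' v w : V) : Prop :=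
  (v = y ∧ w ≠ y ∧ w ≠ y' ∧ (A y w ∨ A y' w)) ∨
  (v = y' ∧ w ≠ y ∧ w ≠ y' ∧ A y w ∧ A y' w) ∨
  (v ≠ y ∧ v ≠ y' ∧ ((w = y ∧ (A y v ∨ A y' v)) ∨ (w = y' ∧ A y v ∧ A y' v) ∨
    (w ≠ y ∧ w ≠ y' ∧ A v w)))

section ks

variable {V : Type*} {A : V → V → Prop} {y y' : V}

theorem not_ks_yy : ¬ ks A y y' y y := by
  rintro (⟨_, h1, _⟩ | ⟨_, h1, _⟩ | ⟨h1, _⟩)
  · exact h1 rfl
  · exact h1 rfl
  · exact h1 rfl

theorem not_ks_yy' : ¬ ks A y y' y y' := by
  rintro (⟨_, _, h1, _⟩ | ⟨_, _, h1, _⟩ | ⟨h1, _⟩)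
  · exact h1 rfl
  · exact h1 rfl
  · exact h1 rfl

theorem not_ks_y'y : ¬ ks A y y' y' y := by
  rintro (⟨_, h1, _⟩ | ⟨_, h1, _⟩ | ⟨_, h1, _⟩)
  · exact h1 rfl
  · exact h1 rfl
  · exact h1 rfl

theorem not_ks_y'y' : ¬ ks A y y' y' y' := by
  rintro (⟨_, _, h1, _⟩ | ⟨_, _, h1, _⟩ | ⟨_, h1, _⟩)
  · exact h1 rfl
  · exact h1 rfl
  · exact h1 rfl

theorem ks_y_iff {w : V} (h : y ≠ y') (hw : w ≠ y) (hw' : w ≠ y') :
    ks A y y' y w ↔ A y w ∨ A y' w := by
  constructor
  · rintro (⟨_, _, _, h1⟩ | ⟨h1, _⟩ | ⟨h1, _⟩)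
    · exact h1
    · exact absurd h1 h
    · exact absurd rfl h1
  · intro h1
    exact Or.inl ⟨rfl, hw, hw', h1⟩

theorem ks_y'_iff {w : V} (h : y ≠ y') (hw : w ≠ y) (hw' : w ≠ y') :
    ks A y y' y' w ↔ A y w ∧ A y' w := by
  constructor
  · rintro (⟨h1, _⟩ | ⟨_, _, _, h1⟩ | ⟨_, h1, _⟩)
    · exact absurd h1.symm h
    · exact h1
    · exact absurd rfl h1
  · intro h1
    exact Or.inr (Or.inl ⟨rfl, hw, hw', h1⟩)

theorem ks_iff {v w : V} (hv : v ≠ y) (hv' : v ≠ y') (hw : w ≠ y) (hw' : w ≠ y') :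
    ks A y y' v w ↔ A v w := by
  constructor
  · rintro (⟨h1, _⟩ | ⟨h1, _⟩ | ⟨_, _, ⟨h1, _⟩ | ⟨h1, _⟩ | ⟨_, _, h1⟩⟩)
    · exact absurd h1 hv
    · exact absurd h1 hv'
    · exact absurd h1 hw
    · exact absurd h1 hw'
    · exact h1
  · intro h1
    exact Or.inr (Or.inr ⟨hv, hv', Or.inr (Or.inr ⟨hw, hw', h1⟩)⟩)

theorem ks_symm (hA : ∀ v w, A v w → A w v) :
    ∀ v w, ks A y y' v w → ks A y y' w v := by
  rintro v w (⟨rfl, h1, h2, h3⟩ | ⟨rfl, h1, h2, h3⟩ |
    ⟨h0, h0', ⟨h1, h2⟩ | ⟨h1, h2⟩ | ⟨h1, h2, h3⟩⟩)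
  · exact Or.inr (Or.inr ⟨h1, h2, Or.inl ⟨rfl, h3⟩⟩)
  · exact Or.inr (Or.inr ⟨h1, h2, Or.inr (Or.inl ⟨rfl, h3⟩)⟩)
  · subst h1
    exact Or.inl ⟨rfl, h0, h0', h2⟩
  · subst h1
    exact Or.inr (Or.inl ⟨rfl, h0, h0', h2⟩)
  · exact Or.inr (Or.inr ⟨h1, h2, Or.inr (Or.inr ⟨h0, h0', hA _ _ h3⟩)⟩)

end ks

section

variable {V : Type*} [Fintype V] {E : Type*} [NormedAddCommGroup E] [InnerProductSpace ℝ E]
  {A : V → V → Prop} {y y' : V}

theorem ny_supp_ks (hyy : y ≠ y') (hl : ¬ A y y) (hl' : ¬ A y' y') (t : ℝ) {X : V → V → ℝ}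
    (hX0 : ∀ v w, ¬ A v w → X v w = 0) (v w : V) (h : ¬ ks A y y' v w) :
    ny A y y' t X v w = 0 := by
  have hy'y : y' ≠ y := hyy.symm
  unfold ny
  by_cases hv : v = y
  · subst hv
    by_cases hw : w = v
    · subst hw
      rw [if_pos rfl, if_pos rfl, hX0 _ _ hl, hX0 _ _ hl', add_zero]
    · by_cases hw' : w = y'
      · subst hw'
        rw [if_pos rfl, if_neg hw, if_pos rfl, hX0 _ _ hl, hX0 _ _ hl', sub_zero, mul_zero]
      · rw [ks_y_iff hyy hw hw'] at h
        rw [if_pos rfl, if_neg hw, if_neg hw', hX0 _ _ (fun h1 => h (Or.inl h1)),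
          hX0 _ _ (fun h1 => h (Or.inr h1)), sub_zero]
  · by_cases hv' : v = y'
    · subst hv'
      by_cases hw : w = y
      · subst hw
        rw [if_neg hv, if_pos rfl, if_pos rfl, hX0 _ _ hl, hX0 _ _ hl', sub_zero, mul_zero]
      · by_cases hw' : w = v
        · subst hw'
          rw [if_neg hv, if_pos rfl, if_neg hw, if_pos rfl]
        · rw [ks_y'_iff hyy hw hw'] at h
          rw [if_neg hv, if_pos rfl, if_neg hw, if_neg hw', if_neg h]
    · by_cases hw : w = y
      · subst hw
        have h1 : ¬ (A w v ∨ A y' v) := fun h2 =>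
          h (Or.inr (Or.inr ⟨hv, hv', Or.inl ⟨rfl, h2⟩⟩))
        rw [if_neg hv, if_neg hv', if_pos rfl, hX0 _ _ (fun h2 => h1 (Or.inl h2)),
          hX0 _ _ (fun h2 => h1 (Or.inr h2)), sub_zero]
      · by_cases hw' : w = y'
        · subst hw'
          have h1 : ¬ (A y v ∧ A w v) := fun h2 =>
            h (Or.inr (Or.inr ⟨hv, hv', Or.inr (Or.inl ⟨rfl, h2⟩)⟩))
          rw [if_neg hv, if_neg hv', if_neg hw, if_pos rfl, if_neg h1]
        · rw [ks_iff hv hv' hw hw'] at h
          rw [if_neg hv, if_neg hv', if_neg hw, if_neg hw', hX0 _ _ h]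

open Classical in
/-- The modified stress map vanishes at the modified stress. -/
theorem SS_ny (hyy : y ≠ y') {t : ℝ} (x : V → E) (X : V → V → ℝ)
    (h1 : ∀ v w, X v w = X w v) (h2 : ∀ v w, ¬ A v w → X v w = 0) (hna : ¬ A y y')
    (h3 : ∀ v, ∑ w, X v w • nx y y' x t w = 0) :
    ∀ v, SS A y y' (x, t) (ny A y y' t X) v = 0 := by
  have hy'y : y' ≠ y := hyy.symm
  have hX12 : X y y' = 0 := h2 _ _ hna
  have hX21 : X y' y = 0 := by rw [h1]; exact hX12
  set R : V → E := fun v => ∑ w, (if w = y ∨ w = y' then 0 else X v w) • x w with hR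
  have row : ∀ v, R v + ((X v y - X v y') • x y + (t * (X v y + X v y')) • x y') = 0 := by
    intro v
    have h4 := h3 v
    rw [sum_split hyy] at h4
    have h5 : (∑ w, if w = y ∨ w = y' then 0 else X v w • nx y y' x t w) = R v := by
      simp only [hR]
      refine Finset.sum_congr rfl fun w _ => ?_
      by_cases hw : w = y ∨ w = y'
      · rw [if_pos hw, if_pos hw, zero_smul]
      · rw [if_neg hw, if_neg hw]
        have h6 : nx y y' x t w = x w := by
          unfold nx
          rw [if_neg (fun h => hw (Or.inl h)), if_neg (fun h => hw (Or.inr h))]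
        rw [h6]
    have h7 : nx y y' x t y = x y + t • x y' := if_pos rfl
    have h8 : nx y y' x t y' = - x y + t • x y' := by
      unfold nx
      rw [if_neg hy'y, if_pos rfl]
    rw [h5, h7, h8] at h4
    rw [← h4]
    module
  intro v
  unfold SS
  by_cases hv : v = y
  · rw [if_pos hv]
    show ∑ w, ny A y y' t X y w • x w = 0
    rw [sum_split hyy]
    have h4 : ny A y y' t X y y = X y y + X y' y' := by
      unfold ny
      rw [if_pos rfl, if_pos rfl]
    have h5 : ny A y y' t X y y' = t * (X y y - X y' y') := by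
      unfold ny
      rw [if_pos rfl, if_neg hy'y, if_pos rfl]
    have h6 : (∑ w, if w = y ∨ w = y' then 0 else ny A y y' t X y w • x w) = R y - R y' := by
      simp only [hR]
      rw [← Finset.sum_sub_distrib]
      refine Finset.sum_congr rfl fun w _ => ?_
      by_cases hw : w = y ∨ w = y'
      · rw [if_pos hw, if_pos hw, if_pos hw, zero_smul, sub_zero]
      · rw [if_neg hw, if_neg hw, if_neg hw, ← sub_smul]
        congr 1
        unfold ny
        rw [if_pos rfl, if_neg (fun h => hw (Or.inl h)), if_neg (fun h => hw (Or.inr h))]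
    rw [h4, h5, h6]
    have e1 := row y
    have e2 := row y'
    rw [hX12] at e1
    rw [hX21] at e2
    calc (X y y + X y' y') • x y + (t * (X y y - X y' y')) • x y' + (R y - R y') =
        (R y + ((X y y - 0) • x y + (t * (X y y + 0)) • x y')) -
        (R y' + ((0 - X y' y') • x y + (t * (0 + X y' y')) • x y')) := by module
      _ = 0 := by rw [e1, e2, sub_zero]
  · rw [if_neg hv]
    by_cases hv' : v = y'
    · rw [if_pos hv']
      show ∑ w, ny A y y' t X y' w • x w +
        ((∑ w, (if w = y ∨ w = y' then 0 else t * sg A y y' w * ny A y y' t X y w) • x w) +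
          (t ^ 2 * ny A y y' t X y y) • x y') = 0
      have h4 : ny A y y' t X y y = X y y + X y' y' := by
        unfold ny
        rw [if_pos rfl, if_pos rfl]
      have h5 : ny A y y' t X y' y = t * (X y y - X y' y') := by
        unfold ny
        rw [if_neg hy'y, if_pos rfl, if_pos rfl]
      have h5' : ny A y y' t X y' y' = 0 := by
        unfold ny
        rw [if_neg hy'y, if_pos rfl, if_neg hy'y, if_pos rfl]
      rw [sum_split hyy, h4, h5, h5']
      have h6 : (∑ w, if w = y ∨ w = y' then 0 else ny A y y' t X y' w • x w) +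
          (∑ w, (if w = y ∨ w = y' then 0 else t * sg A y y' w * ny A y y' t X y w) • x w) =
          t • (R y + R y') := by
        simp only [hR]
        rw [← Finset.sum_add_distrib, ← Finset.sum_add_distrib, Finset.smul_sum]
        refine Finset.sum_congr rfl fun w _ => ?_
        by_cases hw : w = y ∨ w = y'
        · rw [if_pos hw, if_pos hw, if_pos hw, if_pos hw, zero_smul, add_zero, smul_zero]
        · rw [if_neg hw, if_neg hw, if_neg hw, if_neg hw, ← add_smul, ← add_smul, ← mul_smul]
          congr 1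
          have hwy : w ≠ y := fun h => hw (Or.inl h)
          have hwy' : w ≠ y' := fun h => hw (Or.inr h)
          have h7 : ny A y y' t X y w = X y w - X y' w := by
            unfold ny
            rw [if_pos rfl, if_neg hwy, if_neg hwy']
          rw [h7]
          exact ny_coef hyy t h2 hwy hwy'
      have e1 := row y
      have e2 := row y'
      rw [hX12] at e1
      rw [hX21] at e2
      calc (t * (X y y - X y' y')) • x y + (0 : ℝ) • x y' +
            (∑ w, if w = y ∨ w = y' then 0 else ny A y y' t X y' w • x w) +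
            ((∑ w, (if w = y ∨ w = y' then 0 else
              t * sg A y y' w * ny A y y' t X y w) • x w) +
              (t ^ 2 * (X y y + X y' y')) • x y') =
          ((∑ w, if w = y ∨ w = y' then 0 else ny A y y' t X y' w • x w) +
            (∑ w, (if w = y ∨ w = y' then 0 else
              t * sg A y y' w * ny A y y' t X y w) • x w)) +
            ((t * (X y y - X y' y')) • x y + (t ^ 2 * (X y y + X y' y')) • x y') := by
              module
        _ = t • (R y + R y') +
            ((t * (X y y - X y' y')) • x y + (t ^ 2 * (X y y + X y' y')) • x y') := by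
              rw [h6]
        _ = t • ((R y + ((X y y - 0) • x y + (t * (X y y + 0)) • x y')) +
            (R y' + ((0 - X y' y') • x y + (t * (0 + X y' y')) • x y'))) := by module
        _ = 0 := by rw [e1, e2, add_zero, smul_zero]
    · rw [if_neg hv']
      show ∑ w, ny A y y' t X v w • x w +
        (t * sg A y y' v * ny A y y' t X y v) • x y' = 0
      have h4 : ny A y y' t X v y = X y v - X y' v := by
        unfold ny
        rw [if_neg hv, if_neg hv', if_pos rfl]
      have h5 : ny A y y' t X v y' = ny A y y' t X y' v := ny_symm hyy t h1 v y'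
      have h7 : ny A y y' t X y v = X y v - X y' v := by
        unfold ny
        rw [if_pos rfl, if_neg hv, if_neg hv']
      have h6 : (∑ w, if w = y ∨ w = y' then 0 else ny A y y' t X v w • x w) = R v := by
        simp only [hR]
        refine Finset.sum_congr rfl fun w _ => ?_
        by_cases hw : w = y ∨ w = y'
        · rw [if_pos hw, if_pos hw, zero_smul]
        · rw [if_neg hw, if_neg hw]
          congr 1
          unfold ny
          rw [if_neg hv, if_neg hv', if_neg (fun h => hw (Or.inl h)),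
            if_neg (fun h => hw (Or.inr h))]
      rw [sum_split hyy, h4, h5, h6, h7]
      have h8 := ny_coef hyy t h2 hv hv'
      have e1 := row v
      rw [h1 v y, h1 v y'] at e1
      calc (X y v - X y' v) • x y + ny A y y' t X y' v • x y' + R v +
            (t * sg A y y' v * (X y v - X y' v)) • x y' =
          R v + ((X y v - X y' v) • x y + (ny A y y' t X y' v +
            t * sg A y y' v * (X y v - X y' v)) • x y') := by module
        _ = 0 := by rw [h8, e1]

/-- A stress whose modification vanishes vanishes. -/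
theorem eq_zero_of_ny (hyy : y ≠ y') {t : ℝ} (ht : t ≠ 0) (X : V → V → ℝ)
    (h1 : ∀ v w, X v w = X w v) (h2 : ∀ v w, ¬ A v w → X v w = 0) (hna : ¬ A y y')
    (hY0 : ∀ v w, ny A y y' t X v w = 0) : ∀ v w, X v w = 0 := by
  have hy'y : y' ≠ y := hyy.symm
  have hX12 : X y y' = 0 := h2 _ _ hna
  have hX21 : X y' y = 0 := by rw [h1]; exact hX12
  have hyy0 : X y y + X y' y' = 0 := by
    have := hY0 y y
    unfold ny at this
    rwa [if_pos rfl, if_pos rfl] at this
  have hyy1 : t * (X y y - X y' y') = 0 := by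
    have := hY0 y y'
    unfold ny at this
    rwa [if_pos rfl, if_neg hy'y, if_pos rfl] at this
  have hyy2 : X y y - X y' y' = 0 := (mul_eq_zero.1 hyy1).resolve_left ht
  have hXyy : X y y = 0 := by linarith
  have hXyy' : X y' y' = 0 := by linarith
  have hXyw : ∀ w, w ≠ y → w ≠ y' → X y w = 0 ∧ X y' w = 0 := by
    intro w hw hw'
    have h4 : X y w - X y' w = 0 := by
      have := hY0 y w
      unfold ny at this
      rwa [if_pos rfl, if_neg hw, if_neg hw'] at this
    by_cases h5 : A y w
    · by_cases h6 : A y' w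
      · have h7 : t * (X y w + X y' w) = 0 := by
          have := hY0 y' w
          unfold ny at this
          rwa [if_neg hy'y, if_pos rfl, if_neg hw, if_neg hw', if_pos ⟨h5, h6⟩] at this
        have h8 : X y w + X y' w = 0 := (mul_eq_zero.1 h7).resolve_left ht
        constructor <;> linarith
      · have h7 := h2 _ _ h6
        constructor <;> linarith
    · have h7 := h2 _ _ h5
      constructor <;> linarith
  have hXy : ∀ w, X y w = 0 := by
    intro w
    by_cases hw : w = y
    · rw [hw]; exact hXyy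
    · by_cases hw' : w = y'
      · rw [hw']; exact hX12
      · exact (hXyw w hw hw').1
  have hXy' : ∀ w, X y' w = 0 := by
    intro w
    by_cases hw : w = y
    · rw [hw]; exact hX21
    · by_cases hw' : w = y'
      · rw [hw']; exact hXyy'
      · exact (hXyw w hw hw').2
  intro v w
  by_cases hv : v = y
  · rw [hv]; exact hXy w
  · by_cases hv' : v = y'
    · rw [hv']; exact hXy' w
    · by_cases hw : w = y
      · rw [hw, h1]; exact hXy v
      · by_cases hw' : w = y'
        · rw [hw', h1]; exact hXy' v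
        · have := hY0 v w
          unfold ny at this
          rwa [if_neg hv, if_neg hv', if_neg hw, if_neg hw'] at this

end

open Classical in
/-- The shift lemma, with a neighbourhood. -/
theorem repL_shift_near {V : Type*} [Fintype V] {A : V → V → Prop} {y y' : V} (hyy : y ≠ y')
    (hAs : ∀ v w, A v w → A w v) (hna : ¬ A y y') (hl : ¬ A y y) (hl' : ¬ A y' y') {d : ℕ}
    (x : V → EuclideanSpace ℝ (Fin d))
    (hx0 : ∀ v w, v ≠ w → ks A y y' v w → ⟪x v, x w⟫_ℝ = 0)
    (hx1 : ∀ v, ks A y y' v v → ⟪x v, x v⟫_ℝ = 1) (hxF : SFree (ks A y y') x)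
    {O : Set ((V → EuclideanSpace ℝ (Fin d)) × ℝ)} (hO : O ∈ 𝓝 (x, (0 : ℝ))) :
    ∃ (x' : V → EuclideanSpace ℝ (Fin d)) (t : ℝ), t ≠ 0 ∧ (x', t) ∈ O ∧
      (∀ v w, v ≠ w → A v w → ⟪nx y y' x' t v, nx y y' x' t w⟫_ℝ = 0) ∧
      (∀ v, A v v → ⟪nx y y' x' t v, nx y y' x' t v⟫_ℝ = 1) ∧ SFree A (nx y y' x' t) := by
  let o : V → ℕ := fun v => (Fintype.equivFin V v : ℕ)
  have ho : Function.Injective o := by
    intro v w hvw
    exact (Fintype.equivFin V).injective (Fin.ext hvw)
  have hms := ks_symm (y := y) (y' := y') hAs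
  have hy'y : y' ≠ y := hyy.symm
  -- the compact set of unit stresses
  let C : Set (V → V → ℝ) := {Y | (∀ v w, Y v w = Y w v) ∧
    (∀ v w, ¬ ks A y y' v w → Y v w = 0)} ∩ Metric.sphere 0 1
  have hC : IsCompact C := by
    refine (isCompact_sphere _ _).inter_left ?_
    have h1 : {Y : V → V → ℝ | (∀ v w, Y v w = Y w v) ∧
        (∀ v w, ¬ ks A y y' v w → Y v w = 0)} =
        (⋂ v, ⋂ w, {Y | Y v w = Y w v}) ∩ ⋂ v, ⋂ w, {Y | ¬ ks A y y' v w → Y v w = 0} := by
      ext Y
      simp only [Set.mem_setOf_eq, Set.mem_inter_iff, Set.mem_iInter]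
    rw [h1]
    refine IsClosed.inter (isClosed_iInter fun v => isClosed_iInter fun w =>
      isClosed_eq (by fun_prop) (by fun_prop)) (isClosed_iInter fun v => isClosed_iInter fun w => ?_)
    by_cases h2 : ks A y y' v w
    · have h3 : {Y : V → V → ℝ | ¬ ks A y y' v w → Y v w = 0} = Set.univ :=
        Set.eq_univ_of_forall fun Y h4 => absurd h2 h4
      rw [h3]
      exact isClosed_univ
    · have h3 : {Y : V → V → ℝ | ¬ ks A y y' v w → Y v w = 0} = {Y | Y v w = 0} := by
        ext Y
        exact ⟨fun h4 => h4 h2, fun h4 _ => h4⟩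
      rw [h3]
      exact isClosed_eq (by fun_prop) (by fun_prop)
  have hev : ∀ᶠ q in 𝓝 (x, (0 : ℝ)), ∀ Y ∈ C, (fun v => SS A y y' q Y v) ≠ 0 := by
    refine hC.eventually_forall_of_forall_eventually fun Y hY => ?_
    have hcont : Continuous (fun z : ((V → EuclideanSpace ℝ (Fin d)) × ℝ) × (V → V → ℝ) =>
        (fun v => SS A y y' z.1 z.2 v)) :=
      continuous_pi fun v => continuous_SS A y y' v
    have hne : (fun v => SS A y y' (x, (0 : ℝ)) Y v) ≠ 0 := by
      intro h0
      have h1 : ∀ v, ∑ w, Y v w • x w = 0 := by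
        intro v
        rw [← SS_zero A y y' x Y v]
        exact congrFun h0 v
      have h4 := hxF Y hY.1.1 hY.1.2 h1
      have h5 : Y = 0 := funext fun v => funext fun w => h4 v w
      have h6 := hY.2
      rw [h5] at h6
      simp at h6
    exact hcont.continuousAt.eventually_ne hne
  obtain ⟨x', t, ht, hmemO, heq⟩ := exists_near (S := oriL o (ks A y y')) (x := x)
    (nsL_of ho hms hxF)
    (fun q p => kk A y y' p.1.1 p.1.2 q)
    (contDiff_pi.2 fun p => contDiff_kk A y y' _ _)
    (fun z => funext fun p => kk_zero A y y' _ _ z) (Filter.inter_mem hev hO)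
  have hmem := hmemO.1
  have hT : ∀ Y : V → V → ℝ, (∀ v w, Y v w = Y w v) →
      (∀ v w, ¬ ks A y y' v w → Y v w = 0) →
      (∀ v, SS A y y' (x', t) Y v = 0) → ∀ v w, Y v w = 0 := by
    intro Y h1 h2 h3
    by_contra hne
    have hY0 : Y ≠ 0 := by
      intro h
      apply hne
      intro v w
      rw [h]
      rfl
    have hn : ‖Y‖ ≠ 0 := norm_ne_zero_iff.2 hY0
    refine hmem (fun a b => ‖Y‖⁻¹ * Y a b) ⟨⟨fun v w => ?_, fun v w h => ?_⟩, ?_⟩ ?_
    · show ‖Y‖⁻¹ * Y v w = ‖Y‖⁻¹ * Y w v
      rw [h1]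
    · show ‖Y‖⁻¹ * Y v w = 0
      rw [h2 v w h, mul_zero]
    · have h4 : (fun a b => ‖Y‖⁻¹ * Y a b) = ‖Y‖⁻¹ • Y := rfl
      rw [h4, mem_sphere_zero_iff_norm, norm_smul, norm_inv, norm_norm]
      exact inv_mul_cancel₀ hn
    · funext v
      rw [SS_smul, h3 v, smul_zero]
      rfl
  -- the equations
  have heq' : ∀ v w, ks A y y' v w → ⟪x' v, x' w⟫_ℝ + kk A y y' v w (x', t) = ⟪x v, x w⟫_ℝ := by
    have h1 : ∀ v w, oriL o (ks A y y') v w →
        ⟪x' v, x' w⟫_ℝ + kk A y y' v w (x', t) = ⟪x v, x w⟫_ℝ :=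
      fun v w hvw => heq ⟨(v, w), hvw⟩
    have hks : ∀ v w, kk A y y' v w (x', t) = kk A y y' w v (x', t) := by
      intro v w
      unfold kk
      by_cases hv : v = y
      · by_cases hw : w = y
        · rw [hv, hw]
        · by_cases hw' : w = y'
          · simp only [hv, hw', if_true, if_neg hy'y]
          · simp only [hv, if_true, if_neg hw, if_neg hw']
      · by_cases hw : w = y
        · by_cases hv' : v = y'
          · simp only [hw, hv', if_true, if_neg hy'y]
          · simp only [hw, if_true, if_neg hv, if_neg hv']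
        · simp only [if_neg hv, if_neg hw]
    intro v w hvw
    rcases le_total (o v) (o w) with h2 | h2
    · exact h1 v w ⟨hvw, h2⟩
    · have h3 := h1 w v ⟨hms _ _ hvw, h2⟩
      rw [real_inner_comm, hks, real_inner_comm (x w) (x v)]
      rw [← h3, real_inner_comm]
  have hnxy : nx y y' x' t y = x' y + t • x' y' := if_pos rfl
  have hnxy' : nx y y' x' t y' = - x' y + t • x' y' := by
    unfold nx
    rw [if_neg hy'y, if_pos rfl]
  have hnx : ∀ w, w ≠ y → w ≠ y' → nx y y' x' t w = x' w := by
    intro w hw hw'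
    unfold nx
    rw [if_neg hw, if_neg hw']
  have hwP : ∀ w, w ≠ y → w ≠ y' → (A y w ∨ A y' w) →
      ⟪x' y, x' w⟫_ℝ + sg A y y' w * (t * ⟪x' y', x' w⟫_ℝ) = 0 := by
    intro w hw hw' hA
    have h0 : ks A y y' y w := (ks_y_iff hyy hw hw').2 hA
    have h1 := heq' y w h0
    have h2 : kk A y y' y w (x', t) = sg A y y' w * (t * ⟪x' y', x' w⟫_ℝ) := by
      unfold kk
      rw [if_pos rfl, if_neg hw, if_neg hw']
    rw [h2, hx0 y w (Ne.symm hw) h0] at h1
    exact h1
  have hwQ : ∀ w, w ≠ y → w ≠ y' → A y w → A y' w → ⟪x' y', x' w⟫_ℝ = 0 := by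
    intro w hw hw' h1 h2
    have h0 : ks A y y' y' w := (ks_y'_iff hyy hw hw').2 ⟨h1, h2⟩
    have h3 := heq' y' w h0
    have h4 : kk A y y' y' w (x', t) = 0 := by
      unfold kk
      rw [if_neg hy'y, if_neg hw]
    rw [h4, hx0 y' w (Ne.symm hw') h0, add_zero] at h3
    exact h3
  have hyw : ∀ w, w ≠ y → w ≠ y' → A y w → ⟪x' y + t • x' y', x' w⟫_ℝ = 0 := by
    intro w hw hw' h1
    rw [inner_add_left, real_inner_smul_left]
    have h2 := hwP w hw hw' (Or.inl h1)
    by_cases h3 : A y' w
    · have h4 := hwQ w hw hw' h1 h3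
      rw [h4, mul_zero, mul_zero, add_zero] at h2
      rw [h2, h4, mul_zero, add_zero]
    · have h4 : sg A y y' w = 1 := by
        unfold sg
        rw [if_pos h1, if_neg h3, sub_zero]
      rw [h4, one_mul] at h2
      exact h2
  have hyw' : ∀ w, w ≠ y → w ≠ y' → A y' w → ⟪- x' y + t • x' y', x' w⟫_ℝ = 0 := by
    intro w hw hw' h1
    rw [inner_add_left, real_inner_smul_left, inner_neg_left]
    have h2 := hwP w hw hw' (Or.inr h1)
    by_cases h3 : A y w
    · have h4 := hwQ w hw hw' h3 h1
      rw [h4, mul_zero, mul_zero, add_zero] at h2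
      rw [h2, h4, mul_zero, neg_zero, add_zero]
    · have h4 : sg A y y' w = -1 := by
        unfold sg
        rw [if_neg h3, if_pos h1]
        ring
      rw [h4] at h2
      linarith
  refine ⟨x', t, ht, hmemO.2, ?_, ?_, ?_⟩
  · intro v w hvw hA
    by_cases hv : v = y
    · by_cases hw : w = y
      · exact absurd (hv.trans hw.symm) hvw
      · by_cases hw' : w = y'
        · rw [hv, hw'] at hA
          exact absurd hA hna
        · rw [hv] at hA
          rw [hv, hnxy, hnx w hw hw']
          exact hyw w hw hw' hA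
    · by_cases hv' : v = y'
      · by_cases hw : w = y
        · rw [hv', hw] at hA
          exact absurd (hAs _ _ hA) hna
        · by_cases hw' : w = y'
          · exact absurd (hv'.trans hw'.symm) hvw
          · rw [hv'] at hA
            rw [hv', hnxy', hnx w hw hw']
            exact hyw' w hw hw' hA
      · by_cases hw : w = y
        · rw [hw] at hA
          rw [hw, hnxy, hnx v hv hv', real_inner_comm]
          exact hyw v hv hv' (hAs _ _ hA)
        · by_cases hw' : w = y'
          · rw [hw'] at hA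
            rw [hw', hnxy', hnx v hv hv', real_inner_comm]
            exact hyw' v hv hv' (hAs _ _ hA)
          · rw [hnx v hv hv', hnx w hw hw']
            have h0 : ks A y y' v w := (ks_iff hv hv' hw hw').2 hA
            have h1 := heq' v w h0
            have h2 : kk A y y' v w (x', t) = 0 := by
              unfold kk
              rw [if_neg hv, if_neg hw]
            rw [h2, hx0 v w hvw h0, add_zero] at h1
            exact h1
  · intro v hA
    by_cases hv : v = y
    · rw [hv] at hA
      exact absurd hA hl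
    · by_cases hv' : v = y'
      · rw [hv'] at hA
        exact absurd hA hl'
      · rw [hnx v hv hv']
        have h0 : ks A y y' v v := (ks_iff hv hv' hv hv').2 hA
        have h1 := heq' v v h0
        have h2 : kk A y y' v v (x', t) = 0 := by
          unfold kk
          rw [if_neg hv, if_neg hv]
        rw [h2, hx1 v h0, add_zero] at h1
        exact h1
  · intro X h1 h2 h3
    exact eq_zero_of_ny hyy ht X h1 h2 hna
      (hT (ny A y y' t X) (ny_symm hyy t h1) (ny_supp_ks hyy hl hl' t h2)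
        (SS_ny hyy x' X h1 h2 hna h3))

/-- The shift lemma for a pair without units. -/
theorem repL_shift {V : Type*} [Fintype V] {A : V → V → Prop} {y y' : V} (hyy : y ≠ y')
    (hAs : ∀ v w, A v w → A w v) (hna : ¬ A y y') (hl : ¬ A y y) (hl' : ¬ A y' y') {d : ℕ}
    (h : RepL (ks A y y') d) : RepL A d := by
  obtain ⟨x, hx0, hx1, hxF⟩ := h
  obtain ⟨x', t, _, _, h1, h2, h3⟩ :=
    repL_shift_near hyy hAs hna hl hl' x hx0 hx1 hxF (O := Set.univ) Filter.univ_mem
  exact ⟨_, h1, h2, h3⟩

end Pool.Agent.Lib.MP_23961f_co.K
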