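import Pool.Agent.Lib.MP_23961f_co.K.Shift
import Pool.Agent.Lib.MP_23961f_co.K.Kill

/-!
Shifts along edges. `esh G z z'` (for adjacent `z, z'`): `z` gets the union and `z'` the
intersection of the two neighbourhoods, the edge `z z'` stays. `Comp k G`: from `G` one reaches, by
such shifts and by deleting edges, a graph with a clique on `k` vertices.
Main theorem `gcc_of_comp`: the matrices of the question if `k + l ≥ n` for `G` and its complement.
-/

set_option autoImplicit false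

open scoped InnerProductSpace Topology

namespace Pool.Agent.Lib.MP_23961f_co.K

/-- The shift along the edge `z z'`: `z` gets the union of the two neighbourhoods and `z'` the
intersection, the edge `z z'` stays. -/
def esh {V : Type*} (G : SimpleGraph V) (z z' : V) : SimpleGraph V where
  Adj v w := v ≠ w ∧
    ((v = z ∧ w = z') ∨ (v = z' ∧ w = z) ∨
      (v = z ∧ w ≠ z' ∧ (G.Adj z w ∨ G.Adj z' w)) ∨
      (w = z ∧ v ≠ z' ∧ (G.Adj z v ∨ G.Adj z' v)) ∨
      (v = z' ∧ w ≠ z ∧ G.Adj z w ∧ G.Adj z' w) ∨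
      (w = z' ∧ v ≠ z ∧ G.Adj z v ∧ G.Adj z' v) ∨
      (v ≠ z ∧ v ≠ z' ∧ w ≠ z ∧ w ≠ z' ∧ G.Adj v w))
  symm := ⟨by
    rintro v w ⟨h0, h⟩
    refine ⟨h0.symm, ?_⟩
    rcases h with h | h | h | h | h | h | ⟨h1, h2, h3, h4, h5⟩
    · exact Or.inr (Or.inl ⟨h.2, h.1⟩)
    · exact Or.inl ⟨h.2, h.1⟩
    · exact Or.inr (Or.inr (Or.inr (Or.inl h)))
    · exact Or.inr (Or.inr (Or.inl h))
    · exact Or.inr (Or.inr (Or.inr (Or.inr (Or.inr (Or.inl h)))))
    · exact Or.inr (Or.inr (Or.inr (Or.inr (Or.inl h))))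
    · exact Or.inr (Or.inr (Or.inr (Or.inr (Or.inr (Or.inr ⟨h3, h4, h1, h2, h5.symm⟩)))))⟩
  loopless := ⟨fun _ h => h.1 rfl⟩

/-- `G` has a clique on `k` vertices after deletions of edges and shifts along edges. -/
inductive Comp {V : Type*} (k : ℕ) : SimpleGraph V → Prop
  | clique (G : SimpleGraph V) (P : Finset V) (hk : k ≤ P.card)
      (h : ∀ v ∈ P, ∀ w ∈ P, v ≠ w → G.Adj v w) : Comp k G
  | del (G G' : SimpleGraph V) (h : G' ≤ G) (h' : Comp k G') : Comp k G
  | shift (G : SimpleGraph V) (z z' : V) (h : G.Adj z z') (h' : Comp k (esh G z z')) : Comp k G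

theorem compl_esh {V : Type*} {G : SimpleGraph V} {z z' : V} (hne : z ≠ z') (v w : V)
    (h : ks Gᶜ.Adj z' z v w) : (esh G z z')ᶜ.Adj v w := by
  rw [SimpleGraph.compl_adj]
  have hne' : z' ≠ z := hne.symm
  rcases h with ⟨h1, h2, h3, h4⟩ | ⟨h1, h2, h3, h4, h5⟩ | ⟨h1, h2, h3⟩
  · subst h1
    refine ⟨Ne.symm h2, ?_⟩
    have h5 : ¬ (G.Adj z w ∧ G.Adj v w) := by
      rintro ⟨h6, h7⟩
      rcases h4 with h8 | h8
      · exact ((SimpleGraph.compl_adj _ _ _).1 h8).2 h7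
      · exact ((SimpleGraph.compl_adj _ _ _).1 h8).2 h6
    rintro ⟨_, h | h | h | h | h | h | h⟩
    · exact hne h.1.symm
    · exact h3 h.2
    · exact hne h.1.symm
    · exact h3 h.1
    · exact h5 ⟨h.2.2.1, h.2.2.2⟩
    · exact h2 h.1
    · exact h.2.1 rfl
  · subst h1
    refine ⟨Ne.symm h3, ?_⟩
    have h6 := ((SimpleGraph.compl_adj _ _ _).1 h4).2
    have h7 := ((SimpleGraph.compl_adj _ _ _).1 h5).2
    rintro ⟨_, h | h | h | h | h | h | h⟩
    · exact h2 h.2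
    · exact hne h.1
    · rcases h.2.2 with h8 | h8
      · exact h7 h8
      · exact h6 h8
    · exact h3 h.1
    · exact hne h.1
    · exact h2 h.1
    · exact h.1 rfl
  · rcases h3 with ⟨h3, h4⟩ | ⟨h3, h4, h5⟩ | ⟨h3, h4, h5⟩
    · subst h3
      refine ⟨h1, ?_⟩
      have h5 : ¬ (G.Adj z v ∧ G.Adj w v) := by
        rintro ⟨h6, h7⟩
        rcases h4 with h8 | h8
        · exact ((SimpleGraph.compl_adj _ _ _).1 h8).2 h7
        · exact ((SimpleGraph.compl_adj _ _ _).1 h8).2 h6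
      rintro ⟨_, h | h | h | h | h | h | h⟩
      · exact h2 h.1
      · exact h1 h.1
      · exact h2 h.1
      · exact hne' h.1
      · exact h1 h.1
      · exact h5 ⟨h.2.2.1, h.2.2.2⟩
      · exact h.2.2.2.1 rfl
    · subst h3
      refine ⟨h2, ?_⟩
      have h6 := ((SimpleGraph.compl_adj _ _ _).1 h4).2
      have h7 := ((SimpleGraph.compl_adj _ _ _).1 h5).2
      rintro ⟨_, h | h | h | h | h | h | h⟩
      · exact h2 h.1
      · exact h1 h.1
      · exact h2 h.1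
      · rcases h.2.2 with h8 | h8
        · exact h7 h8
        · exact h6 h8
      · exact h1 h.1
      · exact hne h.1
      · exact h.2.2.1 rfl
    · have h6 := (SimpleGraph.compl_adj _ _ _).1 h5
      refine ⟨h6.1, ?_⟩
      rintro ⟨_, h | h | h | h | h | h | h⟩
      · exact h2 h.1
      · exact h1 h.1
      · exact h2 h.1
      · exact h4 h.1
      · exact h1 h.1
      · exact h3 h.1
      · exact h6.2 h.2.2.2.2

theorem repL_of_comp {V : Type*} [Fintype V] {k : ℕ} {G : SimpleGraph V} (h : Comp k G) :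
    RepL Gᶜ.Adj (Fintype.card V - k) := by
  classical
  induction h with
  | clique G P hk h =>
    obtain ⟨Q, hQ, hQk⟩ := Finset.exists_subset_card_eq hk
    have h1 := repL_of_indep (A := Gᶜ.Adj) Q (fun v hv w hw h2 => by
      have h3 := (SimpleGraph.compl_adj _ _ _).1 h2
      exact h3.2 (h v (hQ hv) w (hQ hw) h3.1))
    rwa [hQk] at h1
  | del G G' h h' ih =>
    refine ih.mono fun v w h1 => ?_
    have h2 := (SimpleGraph.compl_adj _ _ _).1 h1
    exact (SimpleGraph.compl_adj _ _ _).2 ⟨h2.1, fun h3 => h2.2 (h h3)⟩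
  | shift G z z' hz h' ih =>
    have hne : z ≠ z' := hz.ne
    have h2 : RepL (ks Gᶜ.Adj z' z) (Fintype.card V - k) := ih.mono (compl_esh hne)
    refine repL_shift hne.symm (fun v w h3 => h3.symm) ?_ (fun h3 => h3.ne rfl)
      (fun h3 => h3.ne rfl) h2
    intro h3
    exact ((SimpleGraph.compl_adj _ _ _).1 h3).2 hz.symm

theorem matrix_of_comp {V : Type*} [Fintype V] {k : ℕ} {G : SimpleGraph V} (h : Comp k G) :
    ∃ A : Matrix V V ℝ, A.PosSemidef ∧ (∀ i j, i ≠ j → (A i j ≠ 0 ↔ G.Adj i j)) ∧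
      (∀ X : Matrix V V ℝ, X.IsSymm → (∀ i, X i i = 0) →
        (∀ i j, G.Adj i j → X i j = 0) → A * X = 0 → X = 0) ∧
      A.rank ≤ Fintype.card V - k + 1 := by
  have h3 := exists_matrix_of_rep Gᶜ ((repL_of_comp h).rep fun v h4 => h4.ne rfl)
  rwa [compl_compl] at h3

/-- The asked inequality for a graph such that it and its complement reach cliques on `k` and `l`
vertices by shifts along edges, `k + l ≥ n`. -/
theorem gcc_of_comp {n : ℕ} {G : SimpleGraph (Fin n)} {k l : ℕ} (hk : Comp k G)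
    (hl : Comp l Gᶜ) (hkl : n ≤ k + l) :
    ∃ (A B : Matrix (Fin n) (Fin n) ℝ),
      A.PosSemidef ∧
      (∀ i j, i ≠ j → (A i j ≠ 0 ↔ G.Adj i j)) ∧
      (∀ X : Matrix (Fin n) (Fin n) ℝ, X.IsSymm → (∀ i, X i i = 0) →
          (∀ i j, G.Adj i j → X i j = 0) → A * X = 0 → X = 0) ∧
      B.PosSemidef ∧
      (∀ i j, i ≠ j → (B i j ≠ 0 ↔ Gᶜ.Adj i j)) ∧
      (∀ X : Matrix (Fin n) (Fin n) ℝ, X.IsSymm → (∀ i, X i i = 0) →
          (∀ i j, Gᶜ.Adj i j → X i j = 0) → B * X = 0 → X = 0) ∧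
      (n - A.rank) + (n - B.rank) + 2 ≥ n := by
  obtain ⟨A, hA1, hA2, hA3, hA4⟩ := matrix_of_comp hk
  obtain ⟨B, hB1, hB2, hB3, hB4⟩ := matrix_of_comp hl
  rw [Fintype.card_fin] at hA4 hB4
  exact ⟨A, B, hA1, hA2, hA3, hB1, hB2, hB3, by omega⟩

end Pool.Agent.Lib.MP_23961f_co.K
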